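import Mathlib

/-!
2-bridge knots as 4-plats, their groups, Fox derivatives and Wada's twisted Alexander invariant.
-/

open scoped LaurentPolynomial MatrixGroups
open LaurentPolynomial

namespace Pool.Agent.W_MP_5f5bee_gt

/-! ### The group of a 2-bridge knot -/

/-- `m` full twists on the second and third strands (with meridians `b`, `c`, antiparallel). -/
def twistBC {G : Type*} [Group G] (m : ℤ) (s : G × G × G) : G × G × G :=
  (s.1, (s.2.1⁻¹ * s.2.2) ^ m * s.2.1 * ((s.2.1⁻¹ * s.2.2) ^ m)⁻¹,
    (s.2.1⁻¹ * s.2.2) ^ m * s.2.2 * ((s.2.1⁻¹ * s.2.2) ^ m)⁻¹)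

/-- `n` full twists on the first and second strands (with meridians `a`, `b`, antiparallel). -/
def twistAB {G : Type*} [Group G] (n : ℤ) (s : G × G × G) : G × G × G :=
  ((s.1 * s.2.1⁻¹) ^ n * s.1 * ((s.1 * s.2.1⁻¹) ^ n)⁻¹,
    (s.1 * s.2.1⁻¹) ^ n * s.2.1 * ((s.1 * s.2.1⁻¹) ^ n)⁻¹, s.2.2)

/-- The meridians of the first three strands of the 4-plat after the twist regions in `L`
(the head of the list is the last pair of twist regions), starting with the meridians
`x, x, y`. -/
def strands {G : Type*} [Group G] (x y : G) : List (ℤ × ℤ) → G × G × G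
  | [] => (x, x, y)
  | p :: L => twistAB p.2 (twistBC p.1 (strands x y L))

/-- The free group on the two meridians `x` and `y`. -/
abbrev F2 : Type := FreeGroup (Fin 2)

/-- The meridian `x`. -/
def gx : F2 := FreeGroup.of 0

/-- The meridian `y`. -/
def gy : F2 := FreeGroup.of 1

/-- The relator of the 2-bridge knot group: after all twists the second and third strands are
joined. -/
def rel (L : List (ℤ × ℤ)) : F2 :=
  (strands gx gy L).2.1 * (strands gx gy L).2.2⁻¹

/-- The group of the 2-bridge knot. -/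
abbrev KnotGroup (L : List (ℤ × ℤ)) : Type := PresentedGroup ({rel L} : Set F2)

/-- The quotient map from the free group on the meridians. -/
def toKnot (L : List (ℤ × ℤ)) : F2 →* KnotGroup L := PresentedGroup.mk {rel L}

/-! ### Fox calculus -/

/-- The integral group ring of the free group. -/
abbrev ZF : Type := MonoidAlgebra ℤ F2

/-- Left multiplication by a group element on the group ring. -/
noncomputable def mulL (g : F2) : ZF ≃+ ZF where
  toFun u := MonoidAlgebra.of ℤ F2 g * u
  invFun u := MonoidAlgebra.of ℤ F2 g⁻¹ * u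
  left_inv u := by
    change MonoidAlgebra.of ℤ F2 g⁻¹ * (MonoidAlgebra.of ℤ F2 g * u) = u
    rw [← mul_assoc, ← map_mul, inv_mul_cancel, map_one, one_mul]
  right_inv u := by
    change MonoidAlgebra.of ℤ F2 g * (MonoidAlgebra.of ℤ F2 g⁻¹ * u) = u
    rw [← mul_assoc, ← map_mul, mul_inv_cancel, map_one, one_mul]
  map_add' u v := mul_add _ _ _

/-- The action of the free group on its group ring by left multiplication. -/
noncomputable def foxAct : F2 →* MulAut (Multiplicative ZF) where
  toFun g := (mulL g).toMultiplicative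
  map_one' := by
    ext u
    simp [mulL]
  map_mul' g h := by
    ext u
    simp [mulL, mul_assoc]

/-- The homomorphism `w ↦ (∂w/∂x_i, w)` to the semidirect product of the group ring and the free
group. -/
noncomputable def foxHom (i : Fin 2) : F2 →* (Multiplicative ZF ⋊[foxAct] F2) :=
  FreeGroup.lift fun j => ⟨Multiplicative.ofAdd (if j = i then 1 else 0), FreeGroup.of j⟩

/-- The Fox derivative `∂w/∂x_i`. -/
noncomputable def fox (i : Fin 2) (w : F2) : ZF := Multiplicative.toAdd (foxHom i w).left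

theorem foxHom_right (i : Fin 2) (w : F2) : (foxHom i w).right = w := by
  have : (SemidirectProduct.rightHom.comp (foxHom i)) = MonoidHom.id F2 := by
    ext j
    simp [foxHom]
  exact DFunLike.congr_fun this w

theorem fox_mul (i : Fin 2) (u v : F2) :
    fox i (u * v) = fox i u + MonoidAlgebra.of ℤ F2 u * fox i v := by
  unfold fox
  rw [map_mul, SemidirectProduct.mul_left, foxHom_right]
  rfl

theorem fox_of (i j : Fin 2) : fox i (FreeGroup.of j) = if j = i then 1 else 0 := by
  simp [fox, foxHom]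

/-! ### Wada's invariant -/

/-- The total exponent sum (the abelianization `α`). -/
def degHom : F2 →* Multiplicative ℤ := FreeGroup.lift fun _ => Multiplicative.ofAdd 1

/-- The tensor product `g ↦ α(g) ρ(g)`. -/
noncomputable def twHom (ρ : F2 →* SL(2, ℂ)) : F2 →* Matrix (Fin 2) (Fin 2) ℂ[T;T⁻¹] where
  toFun g := (T (Multiplicative.toAdd (degHom g)) : ℂ[T;T⁻¹]) •
    ((ρ g : Matrix (Fin 2) (Fin 2) ℂ).map C)
  map_one' := by simp
  map_mul' g h := by
    rw [map_mul ρ, map_mul degHom, toAdd_mul, T_add, Matrix.SpecialLinearGroup.coe_mul,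
      Matrix.map_mul, Matrix.smul_mul, Matrix.mul_smul, smul_smul]

/-- The ring homomorphism `Φ` extending `g ↦ α(g) ρ(g)`. -/
noncomputable def Phi (ρ : F2 →* SL(2, ℂ)) : ZF →ₐ[ℤ] Matrix (Fin 2) (Fin 2) ℂ[T;T⁻¹] :=
  MonoidAlgebra.lift ℤ _ _ (twHom ρ)

/-- `Δ` is the twisted Alexander polynomial of the 2-bridge knot for the representation `ρ`:
`Δ = det Φ(∂r/∂x) / det Φ(y - 1)`. -/
def IsWada (L : List (ℤ × ℤ)) (ρ : KnotGroup L →* SL(2, ℂ)) (Δ : ℂ[T;T⁻¹]) : Prop :=
  Δ * (Phi (ρ.comp (toKnot L)) (MonoidAlgebra.of ℤ F2 gy - 1)).det =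
    (Phi (ρ.comp (toKnot L)) (fox 0 (rel L))).det

/-- The Laurent polynomial `f` has degree at most `n` and `c` is its coefficient of degree `n`. -/
def Top (f : ℂ[T;T⁻¹]) (n : ℤ) (c : ℂ) : Prop :=
  f.coeff n = c ∧ ∀ k, n < k → f.coeff k = 0

/-- The Laurent polynomial `f` is monic: its nonzero coefficient of highest degree is `±1`. -/
def IsMonicL (f : ℂ[T;T⁻¹]) : Prop := ∃ n, Top f n 1 ∨ Top f n (-1)

/-- No element of the image of `ρ` is elliptic, i.e. has trace in the real interval `(-2, 2)`
(equivalently, the image in `PSL(2, ℂ)` acts without fixed points on hyperbolic space, up to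
elements acting trivially). -/
def NoElliptic {G : Type*} [Group G] (ρ : G →* SL(2, ℂ)) : Prop :=
  ∀ (g : G) (t : ℝ), (ρ g : Matrix (Fin 2) (Fin 2) ℂ).trace = (t : ℂ) → ¬ (-2 < t ∧ t < 2)

/-- The numbers of full twists of all twist regions (the coefficients `b_{2g}, …, b_1`). -/
def twists : List (ℤ × ℤ) → List ℤ
  | [] => []
  | p :: L => p.2 :: p.1 :: twists L

/-- The integers `(u, v)`: `v` is, up to sign, the determinant of the knot. -/
def uv : List (ℤ × ℤ) → ℤ × ℤ
  | [] => (0, 1)
  | p :: L =>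
    ((uv L).1 - 2 * p.1 * (uv L).2,
      (uv L).2 + 2 * p.2 * ((uv L).1 - 2 * p.1 * (uv L).2))

/-- The pairs `(b_i, l_i)`, `l_i` an integer attached to the `i`-th twist region. -/
def bandsZ : List (ℤ × ℤ) → List (ℤ × ℤ)
  | [] => []
  | p :: L => (p.2, (uv L).1 - 2 * p.1 * (uv L).2) :: (p.1, (uv L).2) :: bandsZ L

end Pool.Agent.W_MP_5f5bee_gt
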