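import Mathlib
import Pool.Agent.W_MP_5f5bee_gt.Defs

/-!
Vector colourings of the strands: a parabolic matrix with trace two is `par q u`, and the twist
regions act on the vectors `u`.
-/

open scoped MatrixGroups
open Matrix

namespace Pool.Agent.W_MP_5f5bee_gt

variable {K : Type*} [CommRing K]

/-- The symplectic form, scaled by `q`. -/
def frm (q : K) (u z : Fin 2 → K) : K := q * (u 0 * z 1 - u 1 * z 0)

/-- The parabolic matrix of the vector `u`: `z ↦ z + ⟨u, z⟩ u`. -/
def par (q : K) (u : Fin 2 → K) : SL(2, K) :=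
  ⟨!![1 - q * (u 0 * u 1), q * u 0 ^ 2; -(q * u 1 ^ 2), 1 + q * (u 0 * u 1)], by
    rw [Matrix.det_fin_two_of]; ring⟩

theorem par_coe (q : K) (u : Fin 2 → K) : (par q u : Matrix (Fin 2) (Fin 2) K) =
    !![1 - q * (u 0 * u 1), q * u 0 ^ 2; -(q * u 1 ^ 2), 1 + q * (u 0 * u 1)] := rfl

theorem par_inv_coe (q : K) (u : Fin 2 → K) : ((par q u)⁻¹ : SL(2, K)).1 =
    !![1 + q * (u 0 * u 1), -(q * u 0 ^ 2); q * u 1 ^ 2, 1 - q * (u 0 * u 1)] := by
  rw [Matrix.SpecialLinearGroup.coe_inv, par_coe, Matrix.adjugate_fin_two_of, neg_neg]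

/-- `m` full twists on the second and third strands, on vectors. -/
def vBC (q : K) (m : ℤ) (s : (Fin 2 → K) × (Fin 2 → K) × (Fin 2 → K)) :
    (Fin 2 → K) × (Fin 2 → K) × (Fin 2 → K) :=
  (s.1, (((par q s.2.1)⁻¹ * par q s.2.2) ^ m).1.mulVec s.2.1,
    (((par q s.2.1)⁻¹ * par q s.2.2) ^ m).1.mulVec s.2.2)

/-- `n` full twists on the first and second strands, on vectors. -/
def vAB (q : K) (n : ℤ) (s : (Fin 2 → K) × (Fin 2 → K) × (Fin 2 → K)) :
    (Fin 2 → K) × (Fin 2 → K) × (Fin 2 → K) :=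
  (((par q s.1 * (par q s.2.1)⁻¹) ^ n).1.mulVec s.1,
    ((par q s.1 * (par q s.2.1)⁻¹) ^ n).1.mulVec s.2.1, s.2.2)

/-- The vectors of the strands. -/
def vst (q : K) : List (ℤ × ℤ) → (Fin 2 → K) × (Fin 2 → K) × (Fin 2 → K)
  | [] => (![1, 0], ![1, 0], ![0, 1])
  | p :: L => vAB q p.2 (vBC q p.1 (vst q L))

/-- The pairs `(b_i, r_i)` of all twist regions. -/
def bands (q : K) : List (ℤ × ℤ) → List (ℤ × K)
  | [] => []
  | p :: L => (p.2, frm q (vBC q p.1 (vst q L)).1 (vBC q p.1 (vst q L)).2.1) ::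
      (p.1, frm q (vst q L).2.1 (vst q L).2.2) :: bands q L

/-- The polynomial `det (1 + H + ⋯ + H^(b-1))` in the trace `y` of `H`. -/
def nb (y : K) : ℕ → K
  | 0 => 0
  | 1 => 1
  | b + 2 => y * nb y (b + 1) - nb y b + 2

/-- The product of the polynomials `nb` over all twist regions. -/
def lead (q : K) (L : List (ℤ × ℤ)) : K :=
  ((bands q L).map fun br => nb (2 + br.2 ^ 2) br.1.natAbs).prod

/-- The same product in terms of traces. -/
def leadM (x y : SL(2, K)) : List (ℤ × ℤ) → K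
  | [] => 1
  | p :: L =>
    nb ((twistBC p.1 (strands x y L)).1 * (twistBC p.1 (strands x y L)).2.1⁻¹).1.trace
        p.2.natAbs *
      (nb ((strands x y L).2.1⁻¹ * (strands x y L).2.2).1.trace p.1.natAbs * leadM x y L)

theorem mulVec_two (g : Matrix (Fin 2) (Fin 2) K) (u : Fin 2 → K) :
    g.mulVec u = ![g 0 0 * u 0 + g 0 1 * u 1, g 1 0 * u 0 + g 1 1 * u 1] := by
  ext i
  fin_cases i <;> simp [Matrix.mulVec, dotProduct, Fin.sum_univ_two]

theorem frm_mulVec (q : K) (g : SL(2, K)) (u z : Fin 2 → K) :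
    frm q (g.1.mulVec u) (g.1.mulVec z) = frm q u z := by
  have h := g.2
  rw [Matrix.det_fin_two] at h
  simp only [frm, mulVec_two, Matrix.cons_val_zero, Matrix.cons_val_one]
  linear_combination (q * (u 0 * z 1 - u 1 * z 0)) * h

theorem frm_self (q : K) (u : Fin 2 → K) : frm q u u = 0 := by
  simp only [frm]; ring

theorem par_mulVec (q : K) (g : SL(2, K)) (u : Fin 2 → K) :
    par q (g.1.mulVec u) = g * par q u * g⁻¹ := by
  have h := g.2
  rw [Matrix.det_fin_two] at h
  rw [eq_mul_inv_iff_mul_eq]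
  apply Subtype.ext
  rw [Matrix.SpecialLinearGroup.coe_mul, Matrix.SpecialLinearGroup.coe_mul, par_coe, par_coe,
    mulVec_two]
  ext i j
  fin_cases i <;> fin_cases j
  · simp [Matrix.mul_apply, Fin.sum_univ_two]
    linear_combination (-q * u 1 * (g.1 0 0 * u 0 + g.1 0 1 * u 1)) * h
  · simp [Matrix.mul_apply, Fin.sum_univ_two]
    linear_combination (q * u 0 * (g.1 0 0 * u 0 + g.1 0 1 * u 1)) * h
  · simp [Matrix.mul_apply, Fin.sum_univ_two]
    linear_combination (-q * u 1 * (g.1 1 0 * u 0 + g.1 1 1 * u 1)) * h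
  · simp [Matrix.mul_apply, Fin.sum_univ_two]
    linear_combination (q * u 0 * (g.1 1 0 * u 0 + g.1 1 1 * u 1)) * h

theorem trace_bc (q : K) (u z : Fin 2 → K) :
    ((par q u)⁻¹ * par q z).1.trace = 2 + frm q u z ^ 2 := by
  rw [Matrix.SpecialLinearGroup.coe_mul, par_inv_coe, par_coe, Matrix.trace_fin_two]
  simp [Matrix.mul_apply, Fin.sum_univ_two, frm]
  ring

theorem trace_ab (q : K) (u z : Fin 2 → K) :
    (par q u * (par q z)⁻¹).1.trace = 2 + frm q u z ^ 2 := by
  rw [Matrix.SpecialLinearGroup.coe_mul, par_inv_coe, par_coe, Matrix.trace_fin_two]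
  simp [Matrix.mul_apply, Fin.sum_univ_two, frm]
  ring

/-- The colouring of the strands by group elements comes from the one by vectors. -/
theorem strands_par (q : K) (L : List (ℤ × ℤ)) :
    strands (par q ![1, 0]) (par q ![0, 1]) L =
      (par q (vst q L).1, par q (vst q L).2.1, par q (vst q L).2.2) := by
  induction L with
  | nil => rfl
  | cons p L ih =>
    rw [strands, ih, vst]
    simp only [twistAB, twistBC, vAB, vBC, par_mulVec]

theorem leadM_par (q : K) (L : List (ℤ × ℤ)) :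
    leadM (par q ![1, 0]) (par q ![0, 1]) L = lead q L := by
  induction L with
  | nil => simp [leadM, lead, bands]
  | cons p L ih =>
    rw [leadM, ih, strands_par]
    have e : twistBC p.1 (par q (vst q L).1, par q (vst q L).2.1, par q (vst q L).2.2) =
        (par q (vBC q p.1 (vst q L)).1, par q (vBC q p.1 (vst q L)).2.1,
          par q (vBC q p.1 (vst q L)).2.2) := by
      simp only [twistBC, vBC, par_mulVec]
    rw [e, trace_ab, trace_bc]
    simp only [lead, bands, List.map_cons, List.prod_cons]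

/-! ### Functoriality -/

variable {K' : Type*} [CommRing K']

theorem par_map (φ : K →+* K') (q : K) (u : Fin 2 → K) :
    Matrix.SpecialLinearGroup.map φ (par q u) = par (φ q) (φ ∘ u) := by
  apply Subtype.ext
  ext i j
  change φ ((par q u).1 i j) = (par (φ q) (φ ∘ u)).1 i j
  rw [par_coe, par_coe]
  fin_cases i <;> fin_cases j <;> simp

theorem map_mulVec_SL (φ : K →+* K') (g : SL(2, K)) (u : Fin 2 → K) :
    (Matrix.SpecialLinearGroup.map φ g).1.mulVec (φ ∘ u) = φ ∘ (g.1.mulVec u) := by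
  ext i
  fin_cases i <;> simp

theorem vst_map (φ : K →+* K') (q : K) (L : List (ℤ × ℤ)) :
    vst (φ q) L = (φ ∘ (vst q L).1, φ ∘ (vst q L).2.1, φ ∘ (vst q L).2.2) := by
  induction L with
  | nil =>
    simp only [vst]
    refine Prod.ext ?_ (Prod.ext ?_ ?_) <;> (ext i; fin_cases i <;> simp)
  | cons p L ih =>
    rw [vst, vst, ih]
    simp only [vAB, vBC, ← par_map, ← map_mul, ← map_inv, ← map_zpow, map_mulVec_SL]

theorem frm_map (φ : K →+* K') (q : K) (u z : Fin 2 → K) :
    frm (φ q) (φ ∘ u) (φ ∘ z) = φ (frm q u z) := by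
  simp [frm]

theorem bands_map (φ : K →+* K') (q : K) (L : List (ℤ × ℤ)) :
    bands (φ q) L = (bands q L).map fun br => (br.1, φ br.2) := by
  induction L with
  | nil => rfl
  | cons p L ih =>
    have e : vBC (φ q) p.1 (vst (φ q) L) = (φ ∘ (vBC q p.1 (vst q L)).1,
        φ ∘ (vBC q p.1 (vst q L)).2.1, φ ∘ (vBC q p.1 (vst q L)).2.2) := by
      rw [vst_map]
      simp only [vBC, ← par_map, ← map_mul, ← map_inv, ← map_zpow, map_mulVec_SL]
    rw [bands, bands, ih, e, vst_map]
    simp only [frm_map, List.map_cons]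

theorem nb_map (φ : K →+* K') (y : K) (b : ℕ) : φ (nb y b) = nb (φ y) b := by
  induction b using nb.induct with
  | case1 => simp [nb]
  | case2 => simp [nb]
  | case3 b ih1 ih2 => simp [nb, ih1, ih2, map_ofNat]

theorem lead_map (φ : K →+* K') (q : K) (L : List (ℤ × ℤ)) : φ (lead q L) = lead (φ q) L := by
  rw [lead, lead, bands_map, map_list_prod, List.map_map, List.map_map]
  congr 1
  apply List.map_congr_left
  intro br _
  simp [nb_map, map_ofNat]

/-! ### The values of the form along a twist region -/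

theorem par_act (q : K) (u z : Fin 2 → K) : (par q u).1.mulVec z = z + frm q u z • u := by
  rw [mulVec_two, par_coe]
  ext i
  fin_cases i <;> simp [frm] <;> ring

theorem par_inv_act (q : K) (u z : Fin 2 → K) :
    ((par q u)⁻¹).1.mulVec z = z - frm q u z • u := by
  rw [mulVec_two, par_inv_coe]
  ext i
  fin_cases i <;> simp [frm] <;> ring

theorem frm_add (q : K) (u z w : Fin 2 → K) : frm q u (z + w) = frm q u z + frm q u w := by
  simp [frm]; ring

theorem frm_smul (q : K) (c : K) (u z : Fin 2 → K) : frm q u (c • z) = c * frm q u z := by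
  simp [frm]; ring

theorem frm_add_left (q : K) (u z w : Fin 2 → K) : frm q (u + z) w = frm q u w + frm q z w := by
  simp [frm]; ring

theorem frm_smul_left (q : K) (c : K) (u z : Fin 2 → K) :
    frm q (c • u) z = c * frm q u z := by
  simp [frm]; ring

theorem bc_act_left (q : K) (u z : Fin 2 → K) :
    ((par q u)⁻¹ * par q z).1.mulVec u =
      (1 + frm q u z ^ 2) • u + (-frm q u z) • z := by
  rw [Matrix.SpecialLinearGroup.coe_mul, ← Matrix.mulVec_mulVec, par_act, par_inv_act, frm_add,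
    frm_smul, frm_self]
  ext i
  simp [frm]; ring

theorem bc_act_right (q : K) (u z : Fin 2 → K) :
    ((par q u)⁻¹ * par q z).1.mulVec z = (-frm q u z) • u + z := by
  rw [Matrix.SpecialLinearGroup.coe_mul, ← Matrix.mulVec_mulVec, par_act, par_inv_act, frm_add,
    frm_smul, frm_self]
  ext i
  simp [frm]; ring

theorem ab_act_left (q : K) (u z : Fin 2 → K) :
    (par q u * (par q z)⁻¹).1.mulVec u =
      (1 + frm q u z ^ 2) • u + frm q u z • z := by
  rw [Matrix.SpecialLinearGroup.coe_mul, ← Matrix.mulVec_mulVec, par_inv_act, par_act]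
  ext i
  simp [frm]; ring

theorem ab_act_right (q : K) (u z : Fin 2 → K) :
    (par q u * (par q z)⁻¹).1.mulVec z = frm q u z • u + z := by
  rw [Matrix.SpecialLinearGroup.coe_mul, ← Matrix.mulVec_mulVec, par_inv_act, par_act]
  ext i
  simp [frm]; ring

theorem zpow_succ_mulVec (g : SL(2, K)) (m : ℤ) (u : Fin 2 → K) :
    (g ^ (m + 1)).1.mulVec u = (g ^ m).1.mulVec (g.1.mulVec u) := by
  rw [_root_.zpow_add_one, Matrix.SpecialLinearGroup.coe_mul, Matrix.mulVec_mulVec]

/-- The values of the form along the second kind of twist region. -/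
theorem vBC_frm (q : K) (s : (Fin 2 → K) × (Fin 2 → K) × (Fin 2 → K)) (m : ℤ) :
    frm q (vBC q m s).2.1 (vBC q m s).2.2 = frm q s.2.1 s.2.2 ∧
    frm q s.1 (vBC q m s).2.1 = frm q s.1 (vBC q (m + 1) s).2.1 +
      frm q s.2.1 s.2.2 * frm q s.1 (vBC q (m + 1) s).2.2 ∧
    frm q s.1 (vBC q m s).2.2 = frm q s.1 (vBC q (m + 1) s).2.2 +
      frm q s.2.1 s.2.2 * frm q s.1 (vBC q m s).2.1 := by
  refine ⟨?_, ?_, ?_⟩
  · simp only [vBC, frm_mulVec]
  · simp only [vBC, zpow_succ_mulVec, bc_act_left, bc_act_right, Matrix.mulVec_add,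
      Matrix.mulVec_smul, frm_add, frm_smul]
    ring
  · simp only [vBC, zpow_succ_mulVec, bc_act_left, bc_act_right, Matrix.mulVec_add,
      Matrix.mulVec_smul, frm_add, frm_smul]
    ring

/-- The values of the form along the first kind of twist region. -/
theorem vAB_frm (q : K) (s : (Fin 2 → K) × (Fin 2 → K) × (Fin 2 → K)) (n : ℤ) :
    frm q (vAB q n s).1 (vAB q n s).2.1 = frm q s.1 s.2.1 ∧
    frm q (vAB q (n + 1) s).2.1 s.2.2 = frm q (vAB q n s).2.1 s.2.2 +
      frm q s.1 s.2.1 * frm q (vAB q n s).1 s.2.2 ∧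
    frm q (vAB q (n + 1) s).1 s.2.2 = frm q (vAB q n s).1 s.2.2 +
      frm q s.1 s.2.1 * frm q (vAB q (n + 1) s).2.1 s.2.2 := by
  refine ⟨?_, ?_, ?_⟩
  · simp only [vAB, frm_mulVec]
  · simp only [vAB, zpow_succ_mulVec, ab_act_left, ab_act_right, Matrix.mulVec_add,
      Matrix.mulVec_smul, frm_add_left, frm_smul_left]
    ring
  · simp only [vAB, zpow_succ_mulVec, ab_act_left, ab_act_right, Matrix.mulVec_add,
      Matrix.mulVec_smul, frm_add_left, frm_smul_left]
    ring

theorem vBC_zero (q : K) (s : (Fin 2 → K) × (Fin 2 → K) × (Fin 2 → K)) : vBC q 0 s = s := by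
  simp [vBC]

theorem vAB_zero (q : K) (s : (Fin 2 → K) × (Fin 2 → K) × (Fin 2 → K)) : vAB q 0 s = s := by
  simp [vAB]

end Pool.Agent.W_MP_5f5bee_gt
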