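import Mathlib
import Pool.Agent.W_MP_5f5bee_gt.Vec

/-!
The polynomials `nb` and geometric sums of a matrix in `SL(2)`.
-/

open scoped MatrixGroups
open Matrix

namespace Pool.Agent.W_MP_5f5bee_gt

variable {K : Type*} [CommRing K]

/-- The geometric sum `(H^m - 1)/(H - 1)` for an integer `m`. -/
def geomZ (H : SL(2, K)) : ℤ → Matrix (Fin 2) (Fin 2) K
  | Int.ofNat n => ∑ i ∈ Finset.range n, (H ^ i).1
  | Int.negSucc n => -((H ^ (-(n + 1 : ℤ))).1 * ∑ i ∈ Finset.range (n + 1), (H ^ i).1)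

theorem geomZ_zero (H : SL(2, K)) : geomZ H 0 = 0 := by
  change (∑ i ∈ Finset.range 0, (H ^ i).1) = 0
  simp

theorem geomZ_succ (H : SL(2, K)) (m : ℤ) : geomZ H (m + 1) = geomZ H m + (H ^ m).1 := by
  rcases m with n | n
  · change (∑ i ∈ Finset.range (n + 1), (H ^ i).1) =
      (∑ i ∈ Finset.range n, (H ^ i).1) + (H ^ ((n : ℕ) : ℤ)).1
    rw [Finset.sum_range_succ, zpow_natCast]
  · rcases n with _ | k
    · change (∑ i ∈ Finset.range 0, (H ^ i).1) =
        -((H ^ (-((0 : ℕ) + 1 : ℤ))).1 * ∑ i ∈ Finset.range (0 + 1), (H ^ i).1) +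
          (H ^ (Int.negSucc 0)).1
      have e : (Int.negSucc 0) = (-((0 : ℕ) + 1 : ℤ)) := by simp
      rw [e]
      simp
    · have e1 : Int.negSucc (k + 1) + 1 = Int.negSucc k := by omega
      rw [e1]
      change -((H ^ (-(k + 1 : ℤ))).1 * ∑ i ∈ Finset.range (k + 1), (H ^ i).1) =
        -((H ^ (-(((k + 1 : ℕ) : ℤ) + 1))).1 * ∑ i ∈ Finset.range (k + 1 + 1), (H ^ i).1) +
          (H ^ (Int.negSucc (k + 1))).1
      have e2 : Int.negSucc (k + 1) = -(((k + 1 : ℕ) : ℤ) + 1) := by omega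
      rw [e2, Finset.sum_range_succ' (fun i => (H ^ i).1) (k + 1), mul_add, Finset.mul_sum,
        Finset.mul_sum]
      have e3 : ∀ i : ℕ, (H ^ (-(((k + 1 : ℕ) : ℤ) + 1))).1 * (H ^ (i + 1)).1 =
          (H ^ (-(k + 1 : ℤ))).1 * (H ^ i).1 := by
        intro i
        rw [← Matrix.SpecialLinearGroup.coe_mul, ← Matrix.SpecialLinearGroup.coe_mul,
          ← zpow_natCast H (i + 1), ← zpow_natCast H i, ← _root_.zpow_add, ← _root_.zpow_add]
        congr 2
        push_cast
        ring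
      rw [Finset.sum_congr rfl (fun i _ => e3 i)]
      simp

/-- `(H - 1) (1 + ⋯ + H^(m-1)) = H^m - 1`. -/
theorem sub_one_mul_geomZ (H : SL(2, K)) (m : ℤ) : (H.1 - 1) * geomZ H m = (H ^ m).1 - 1 := by
  induction m using Int.induction_on with
  | zero => rw [geomZ_zero]; simp
  | succ i ih =>
    rw [geomZ_succ, mul_add, ih, sub_mul, one_mul, ← Matrix.SpecialLinearGroup.coe_mul,
      ← _root_.zpow_one_add, add_comm 1 (i : ℤ)]
    abel
  | pred i ih =>
    have h := geomZ_succ H (-(i : ℤ) - 1)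
    rw [sub_add_cancel] at h
    rw [h, mul_add] at ih
    have h2 : (H.1 - 1) * (H ^ (-(i : ℤ) - 1)).1 =
        (H ^ (-(i : ℤ))).1 - (H ^ (-(i : ℤ) - 1)).1 := by
      rw [sub_mul, one_mul, ← Matrix.SpecialLinearGroup.coe_mul, ← _root_.zpow_one_add]
      congr 3
      ring
    rw [h2] at ih
    have h3 := eq_sub_of_add_eq ih
    rw [h3]
    abel

theorem geomZ_comm (H : SL(2, K)) (m : ℤ) : geomZ H m * H.1 = H.1 * geomZ H m := by
  have hz : ∀ k : ℤ, (H ^ k).1 * H.1 = H.1 * (H ^ k).1 := by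
    intro k
    rw [← Matrix.SpecialLinearGroup.coe_mul, ← Matrix.SpecialLinearGroup.coe_mul,
      ← _root_.zpow_one_add, ← _root_.zpow_add_one, add_comm]
  induction m using Int.induction_on with
  | zero => rw [geomZ_zero]; simp
  | succ i ih => rw [geomZ_succ, add_mul, mul_add, ih, hz]
  | pred i ih =>
    have h := geomZ_succ H (-(i : ℤ) - 1)
    rw [sub_add_cancel] at h
    rw [h, add_mul, mul_add, hz] at ih
    exact add_right_cancel ih

/-- Coordinates of the geometric sum in the basis `H, 1`. -/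
def sT (y : K) : ℕ → K × K
  | 0 => (0, 0)
  | n + 1 => (y * (sT y n).1 + (sT y n).2, 1 - (sT y n).1)

theorem sT_inv (y : K) (n : ℕ) :
    (y * (sT y n).1 + (sT y n).2 - (sT y n).1) ^ 2 +
      y * (y * (sT y n).1 + (sT y n).2 - (sT y n).1) * (1 - (sT y n).1 - (sT y n).2) +
      (1 - (sT y n).1 - (sT y n).2) ^ 2 = 1 := by
  induction n with
  | zero => simp [sT]
  | succ n ih =>
    simp only [sT]
    linear_combination ih

theorem sT_nb (y : K) (n : ℕ) :
    (sT y n).1 ^ 2 + y * (sT y n).1 * (sT y n).2 + (sT y n).2 ^ 2 = nb y n := by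
  induction n using nb.induct with
  | case1 => simp [sT, nb]
  | case2 => simp [sT, nb]
  | case3 n ih1 ih2 =>
    have h := sT_inv y n
    rw [nb, ← ih1, ← ih2]
    simp only [sT]
    linear_combination h

theorem sum_pow_eq (H : SL(2, K)) (n : ℕ) :
    (∑ i ∈ Finset.range n, (H ^ i).1) = (sT H.1.trace n).1 • H.1 +
      (sT H.1.trace n).2 • (1 : Matrix (Fin 2) (Fin 2) K) := by
  have hd := H.2
  rw [Matrix.det_fin_two] at hd
  induction n with
  | zero => simp [sT]
  | succ n ih =>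
    rw [Finset.sum_range_succ']
    have e : ∀ i : ℕ, (H ^ (i + 1)).1 = H.1 * (H ^ i).1 := by
      intro i
      rw [pow_succ', Matrix.SpecialLinearGroup.coe_mul]
    rw [Finset.sum_congr rfl (fun i _ => e i), ← Finset.mul_sum, ih]
    simp only [sT, pow_zero, Matrix.SpecialLinearGroup.coe_one]
    rw [Matrix.trace_fin_two]
    ext i j
    fin_cases i <;> fin_cases j
    · simp [Matrix.mul_apply, Fin.sum_univ_two]
      linear_combination (-(sT (H.1 0 0 + H.1 1 1) n).1) * hd
    · simp [Matrix.mul_apply, Fin.sum_univ_two]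
      ring
    · simp [Matrix.mul_apply, Fin.sum_univ_two]
      ring
    · simp [Matrix.mul_apply, Fin.sum_univ_two]
      linear_combination (-(sT (H.1 0 0 + H.1 1 1) n).1) * hd

theorem det_sum_pow (H : SL(2, K)) (n : ℕ) :
    (∑ i ∈ Finset.range n, (H ^ i).1).det = nb H.1.trace n := by
  have hd := H.2
  rw [Matrix.det_fin_two] at hd
  rw [sum_pow_eq, ← sT_nb, Matrix.det_fin_two]
  simp only [Matrix.add_apply, Matrix.smul_apply, smul_eq_mul, Matrix.one_apply_eq,
    Matrix.one_apply_ne (show (0 : Fin 2) ≠ 1 by decide),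
    Matrix.one_apply_ne (show (1 : Fin 2) ≠ 0 by decide)]
  rw [Matrix.trace_fin_two]
  linear_combination ((sT (H.1 0 0 + H.1 1 1) n).1 ^ 2) * hd

theorem det_geomZ (H : SL(2, K)) (m : ℤ) : (geomZ H m).det = nb H.1.trace m.natAbs := by
  rcases m with n | n
  · change (∑ i ∈ Finset.range n, (H ^ i).1).det = nb H.1.trace n
    exact det_sum_pow H n
  · change (-((H ^ (-(n + 1 : ℤ))).1 * ∑ i ∈ Finset.range (n + 1), (H ^ i).1)).det =
      nb H.1.trace (n + 1)
    rw [Matrix.det_neg, Matrix.det_mul, det_sum_pow, (H ^ (-(n + 1 : ℤ))).2]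
    simp

/-- The Chebyshev sequence, shifted: `0, 1, y, y² - 1, …`. -/
def chS (y : K) : ℕ → K
  | 0 => 0
  | 1 => 1
  | k + 2 => y * chS y (k + 1) - chS y k

theorem chS_inv (y : K) (k : ℕ) :
    chS y (k + 1) ^ 2 + chS y k ^ 2 - y * chS y (k + 1) * chS y k = 1 := by
  induction k with
  | zero => simp [chS]
  | succ k ih =>
    rw [chS]
    linear_combination ih

theorem nb_chS (y : K) (k : ℕ) :
    nb y (2 * k) = (y + 2) * chS y k ^ 2 ∧
      nb y (2 * k + 1) = (chS y (k + 1) + chS y k) ^ 2 := by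
  induction k with
  | zero => simp [nb, chS]
  | succ k ih =>
    obtain ⟨h1, h2⟩ := ih
    have hi := chS_inv y k
    have h3 : nb y (2 * (k + 1)) = (y + 2) * chS y (k + 1) ^ 2 := by
      have : 2 * (k + 1) = 2 * k + 2 := by ring
      rw [this, nb, h1, h2]
      linear_combination (-2 : K) * hi
    refine ⟨h3, ?_⟩
    have : 2 * (k + 1) + 1 = (2 * k + 1) + 2 := by ring
    rw [this, nb, h2]
    have e : 2 * k + 1 + 1 = 2 * (k + 1) := by ring
    rw [e, h3, chS]
    linear_combination (-2 : K) * hi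

theorem nb_even (r : K) (k : ℕ) : ∃ t : K, nb (2 + r ^ 2) (2 * k) = (r ^ 2 + 4) * t ^ 2 := by
  refine ⟨chS (2 + r ^ 2) k, ?_⟩
  rw [(nb_chS (2 + r ^ 2) k).1]
  ring

theorem nb_odd (r : K) (k : ℕ) : ∃ t : K, nb (2 + r ^ 2) (2 * k + 1) = t ^ 2 :=
  ⟨_, (nb_chS (2 + r ^ 2) k).2⟩

/-- `nb` in terms of an eigenvalue `z` of `H`: the product `(1 + ⋯ + z^(b-1)) (1 + ⋯ + w^(b-1))`
with `w = z⁻¹`. -/
theorem nb_eigen (z w : K) (hzw : z * w = 1) (b : ℕ) :
    nb (z + w) b = (∑ i ∈ Finset.range b, z ^ i) * ∑ i ∈ Finset.range b, w ^ i := by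
  induction b using nb.induct with
  | case1 => simp [nb]
  | case2 => simp [nb]
  | case3 b ih1 ih2 =>
    have hz := mul_geom_sum z b
    have hw := mul_geom_sum w b
    have hb : z ^ b * w ^ b = 1 := by rw [← mul_pow, hzw, one_pow]
    rw [nb, ih1, ih2, Finset.sum_range_succ (fun i => z ^ i) (b + 1),
      Finset.sum_range_succ (fun i => w ^ i) (b + 1), Finset.sum_range_succ (fun i => z ^ i) b,
      Finset.sum_range_succ (fun i => w ^ i) b, pow_succ z b, pow_succ w b]
    generalize (∑ i ∈ Finset.range b, z ^ i) = p at *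
    generalize (∑ i ∈ Finset.range b, w ^ i) = r at *
    generalize z ^ b = Z at *
    generalize w ^ b = W at *
    have h1 : p * r * (z + w - 2) = Z + W - 2 := by
      linear_combination (-(r * (w - 1))) * hz + (-(Z - 1)) * hw - hb + p * r * hzw
    have h2 : p * W * (z - 1) = 1 - W := by linear_combination W * hz + hb
    have h3 : r * Z * (w - 1) = 1 - Z := by linear_combination Z * hw + hb
    linear_combination h1 + h2 + h3 + (z + w - (1 + z) * (1 + w)) * hb + (-1 : K) * hzw

/-- If `det (1 + H + ⋯ + H^(b-1))` is `0` or `1` with `b ≥ 2`, then the trace of `H` is real and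
in `[-2, 2)`. -/
theorem nb_elliptic (y : ℂ) (b : ℕ) (hb : 2 ≤ b) (h : nb y b = 0 ∨ nb y b = 1) :
    ∃ t : ℝ, y = (t : ℂ) ∧ -2 ≤ t ∧ t < 2 := by
  obtain ⟨d, hd⟩ := IsAlgClosed.exists_pow_nat_eq (y ^ 2 - 4) (n := 2) (by norm_num)
  obtain ⟨z, w, hzw, hy⟩ : ∃ z w : ℂ, z * w = 1 ∧ y = z + w :=
    ⟨(y + d) / 2, (y - d) / 2, by linear_combination (-(1 : ℂ) / 4) * hd, by ring⟩
  have hz0 : z ≠ 0 := left_ne_zero_of_mul_eq_one hzw
  rw [hy, nb_eigen z w hzw b] at h
  have hz := mul_geom_sum z b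
  have hw := mul_geom_sum w b
  have hzwb : z ^ b * w ^ b = 1 := by rw [← mul_pow, hzw, one_pow]
  by_cases hz1 : z = 1
  · exfalso
    have hw1 : w = 1 := by rw [hz1, one_mul] at hzw; exact hzw
    rw [hz1, hw1] at h
    simp only [one_pow, Finset.sum_const, Finset.card_range, nsmul_eq_mul, mul_one] at h
    rcases h with h | h
    · have h' : ((b * b : ℕ) : ℂ) = ((0 : ℕ) : ℂ) := by push_cast; exact h
      have := Nat.cast_injective h'
      nlinarith
    · have h' : ((b * b : ℕ) : ℂ) = ((1 : ℕ) : ℂ) := by push_cast; exact h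
      have := Nat.cast_injective h'
      nlinarith
  · have hroot : ∃ n : ℕ, n ≠ 0 ∧ z ^ n = 1 := by
      rcases h with h | h
      · refine ⟨b, by omega, ?_⟩
        rcases mul_eq_zero.1 h with h | h
        · rw [h, mul_zero] at hz
          exact (sub_eq_zero.1 hz.symm)
        · rw [h, mul_zero] at hw
          rw [← sub_eq_zero.1 hw.symm] at hzwb
          rw [sub_eq_zero.1 hw.symm, mul_one] at hzwb
          exact hzwb
      · have h1 : (z ^ b - z) * (z ^ b - w) = 0 := by
          have h2 : (z ^ b - 1) * (w ^ b - 1) = (z - 1) * (w - 1) := by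
            rw [← hz, ← hw]
            linear_combination ((z - 1) * (w - 1)) * h
          linear_combination (-(z ^ b)) * h2 + (z ^ b - 1) * hzwb + (1 - z ^ b) * hzw
        rcases mul_eq_zero.1 h1 with h2 | h2
        · refine ⟨b - 1, by omega, ?_⟩
          have h3 := sub_eq_zero.1 h2
          have h4 : z * z ^ (b - 1) = z * 1 := by
            rw [← pow_succ', mul_one, show b - 1 + 1 = b by omega]
            exact h3
          exact mul_left_cancel₀ hz0 h4
        · refine ⟨b + 1, by omega, ?_⟩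
          rw [pow_succ, sub_eq_zero.1 h2, mul_comm]
          exact hzw
    obtain ⟨n, hn, hzn⟩ := hroot
    have hnorm : ‖z‖ = 1 := Complex.norm_eq_one_of_pow_eq_one hzn hn
    have hconj : w = (starRingEnd ℂ) z := by
      have h1 : z * (starRingEnd ℂ) z = 1 := by
        rw [Complex.mul_conj, Complex.normSq_eq_norm_sq, hnorm]
        simp
      exact mul_left_cancel₀ hz0 (hzw.trans h1.symm)
    have hre : |z.re| ≤ 1 := hnorm ▸ Complex.abs_re_le_norm z
    refine ⟨2 * z.re, ?_, ?_, ?_⟩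
    · rw [hy, hconj, Complex.add_conj]
    · have := (abs_le.1 hre).1
      linarith
    · rcases lt_or_eq_of_le (abs_le.1 hre).2 with h1 | h1
      · linarith
      · exfalso
        apply hz1
        have h2 : z.re ^ 2 + z.im ^ 2 = 1 := by
          have := Complex.normSq_eq_norm_sq z
          rw [hnorm, Complex.normSq_apply] at this
          nlinarith
        have h3 : z.im = 0 := by
          rw [h1] at h2
          nlinarith
        exact Complex.ext (by simpa using h1) (by simpa using h3)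

end Pool.Agent.W_MP_5f5bee_gt
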