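import Mathlib
import Pool.Agent.W_MP_5f5bee_gt.Nb

/-!
The top coefficient of the Fox determinant of the relator.
-/

open scoped LaurentPolynomial MatrixGroups
open LaurentPolynomial Matrix

namespace Pool.Agent.W_MP_5f5bee_gt

theorem coeff_T_mul (k : ℤ) (f : ℂ[T;T⁻¹]) (n : ℤ) : (T k * f).coeff n = f.coeff (n - k) := by
  rw [T, AddMonoidAlgebra.coeff_single_mul_eq_mul_coeff (n - k), one_mul]
  intro m' _
  constructor <;> intro h <;> omega

theorem coeff_C_mul' (a : ℂ) (f : ℂ[T;T⁻¹]) (n : ℤ) : (C a * f).coeff n = a * f.coeff n := by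
  rw [← single_eq_C, AddMonoidAlgebra.coeff_single_mul_eq_mul_coeff n]
  intro m' _
  simp

/-- The Laurent polynomial `f` has degree at most `n`. -/
def dle (f : ℂ[T;T⁻¹]) (n : ℤ) : Prop := ∀ k, n < k → f.coeff k = 0

theorem dle_mul {f g : ℂ[T;T⁻¹]} {n m : ℤ} (hf : dle f n) (hg : dle g m) :
    dle (f * g) (n + m) := by
  intro k hk
  rw [AddMonoidAlgebra.coeff_mul]
  refine Finset.sum_eq_zero fun a ha => Finset.sum_eq_zero fun b hb => ?_
  by_cases h : a + b = k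
  · by_cases h1 : n < a
    · simp [hf a h1]
    · have h2 : m < b := by omega
      simp [hg b h2]
  · simp [h]

theorem dle_add {f g : ℂ[T;T⁻¹]} {n : ℤ} (hf : dle f n) (hg : dle g n) : dle (f + g) n := by
  intro k hk
  rw [AddMonoidAlgebra.coeff_add, Finsupp.add_apply, hf k hk, hg k hk, add_zero]

theorem dle_neg {f : ℂ[T;T⁻¹]} {n : ℤ} (hf : dle f n) : dle (-f) n := by
  intro k hk
  rw [AddMonoidAlgebra.coeff_neg, Finsupp.neg_apply, hf k hk, neg_zero]

theorem dle_mono {f : ℂ[T;T⁻¹]} {n m : ℤ} (hf : dle f n) (h : n ≤ m) : dle f m :=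
  fun k hk => hf k (by omega)

theorem dle_T (n : ℤ) : dle (T n) n := by
  intro k hk
  rw [T_apply, if_neg (by omega)]

theorem dle_C (a : ℂ) : dle (C a) 0 := by
  intro k hk
  rw [C_apply, if_neg (by omega)]


/-! ### Matrices over Laurent polynomials -/

/-- All entries of `M` have degree at most `n`. -/
def DegLE (M : Matrix (Fin 2) (Fin 2) ℂ[T;T⁻¹]) (n : ℤ) : Prop :=
  ∀ i j, ∀ k, n < k → (M i j).coeff k = 0

/-- `M = T^n Z +` terms of lower degree. -/
def TopM (M : Matrix (Fin 2) (Fin 2) ℂ[T;T⁻¹]) (n : ℤ) (Z : Matrix (Fin 2) (Fin 2) ℂ) : Prop :=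
  DegLE (M - (T n : ℂ[T;T⁻¹]) • Z.map C) (n - 1)

section mat

variable {M M' : Matrix (Fin 2) (Fin 2) ℂ[T;T⁻¹]} {n m : ℤ} {Z Z' : Matrix (Fin 2) (Fin 2) ℂ}

theorem DegLE.add (h : DegLE M n) (h' : DegLE M' n) : DegLE (M + M') n :=
  fun i j => dle_add (h i j) (h' i j)

theorem DegLE.neg (h : DegLE M n) : DegLE (-M) n := fun i j => dle_neg (h i j)

theorem DegLE.sub (h : DegLE M n) (h' : DegLE M' n) : DegLE (M - M') n := by
  rw [sub_eq_add_neg]; exact h.add h'.neg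

theorem DegLE.mono (h : DegLE M n) (hnm : n ≤ m) : DegLE M m := fun i j => dle_mono (h i j) hnm

theorem DegLE.mul (h : DegLE M n) (h' : DegLE M' m) : DegLE (M * M') (n + m) := by
  intro i j
  rw [Matrix.mul_apply, Fin.sum_univ_two]
  exact dle_add (dle_mul (h i 0) (h' 0 j)) (dle_mul (h i 1) (h' 1 j))

theorem DegLE.smulT (h : DegLE M n) (k : ℤ) : DegLE ((T k : ℂ[T;T⁻¹]) • M) (n + k) := by
  intro i j
  rw [Matrix.smul_apply, smul_eq_mul, add_comm]
  exact dle_mul (dle_T k) (h i j)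

theorem degLE_const (Z : Matrix (Fin 2) (Fin 2) ℂ) : DegLE (Z.map C) 0 :=
  fun i j => dle_C (Z i j)

theorem DegLE.const_mul (h : DegLE M n) (A : Matrix (Fin 2) (Fin 2) ℂ) :
    DegLE (A.map C * M) n := by
  have := (degLE_const A).mul h
  rwa [zero_add] at this

theorem TopM.degLE (h : TopM M n Z) : DegLE M n := by
  have h1 : DegLE ((T n : ℂ[T;T⁻¹]) • Z.map C) (0 + n) := (degLE_const Z).smulT n
  rw [zero_add] at h1
  have h2 := (h.mono (show n - 1 ≤ n by omega)).add h1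
  rwa [sub_add_cancel] at h2

theorem TopM.add (h : TopM M n Z) (h' : TopM M' n Z') : TopM (M + M') n (Z + Z') := by
  have e : M + M' - (T n : ℂ[T;T⁻¹]) • (Z + Z').map C =
      (M - (T n : ℂ[T;T⁻¹]) • Z.map C) + (M' - (T n : ℂ[T;T⁻¹]) • Z'.map C) := by
    rw [Matrix.map_add _ (map_add _), smul_add]
    abel
  unfold TopM
  rw [e]
  exact DegLE.add h h'

theorem TopM.neg (h : TopM M n Z) : TopM (-M) n (-Z) := by
  have e : -M - (T n : ℂ[T;T⁻¹]) • (-Z).map C = -(M - (T n : ℂ[T;T⁻¹]) • Z.map C) := by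
    ext i j
    simp
    ring
  unfold TopM
  rw [e]
  exact DegLE.neg h

theorem TopM.add_low (h : TopM M n Z) (h' : DegLE M' (n - 1)) : TopM (M + M') n Z := by
  have e : M + M' - (T n : ℂ[T;T⁻¹]) • Z.map C = (M - (T n : ℂ[T;T⁻¹]) • Z.map C) + M' := by
    abel
  unfold TopM
  rw [e]
  exact DegLE.add h h'

theorem TopM.const_mul (h : TopM M n Z) (A : Matrix (Fin 2) (Fin 2) ℂ) :
    TopM (A.map C * M) n (A * Z) := by
  have e : A.map C * M - (T n : ℂ[T;T⁻¹]) • (A * Z).map C =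
      A.map C * (M - (T n : ℂ[T;T⁻¹]) • Z.map C) := by
    rw [Matrix.map_mul, Matrix.mul_sub, Matrix.mul_smul]
  unfold TopM
  rw [e]
  exact DegLE.const_mul h A

theorem TopM.smulT (h : TopM M n Z) (k : ℤ) : TopM ((T k : ℂ[T;T⁻¹]) • M) (n + k) Z := by
  have e : (T k : ℂ[T;T⁻¹]) • M - (T (n + k) : ℂ[T;T⁻¹]) • Z.map C =
      (T k : ℂ[T;T⁻¹]) • (M - (T n : ℂ[T;T⁻¹]) • Z.map C) := by
    rw [smul_sub, smul_smul, ← T_add, add_comm k n]
  unfold TopM
  rw [e]
  have := DegLE.smulT h k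
  exact this.mono (by omega)

theorem TopM.congr (h : TopM M n Z) (e : Z = Z') : TopM M n Z' := e ▸ h

theorem TopM.det (h : TopM M n Z) : Top M.det (2 * n) Z.det := by
  obtain ⟨R, hR, rfl⟩ : ∃ R, DegLE R (n - 1) ∧ M = (T n : ℂ[T;T⁻¹]) • Z.map C + R :=
    ⟨_, h, by abel⟩
  have hd : ((T n : ℂ[T;T⁻¹]) • Z.map C + R).det = T (2 * n) * C Z.det +
      (T n * (C (Z 0 0) * R 1 1 + C (Z 1 1) * R 0 0 - C (Z 0 1) * R 1 0 - C (Z 1 0) * R 0 1) +
        (R 0 0 * R 1 1 - R 0 1 * R 1 0)) := by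
    rw [Matrix.det_fin_two, Matrix.det_fin_two, two_mul, T_add, map_sub, map_mul, map_mul]
    simp only [Matrix.add_apply, Matrix.smul_apply, Matrix.map_apply, smul_eq_mul]
    ring
  have hc : ∀ (z : ℂ) (i j : Fin 2), dle (C z * R i j) (n - 1) := by
    intro z i j
    have := dle_mul (dle_C z) (hR i j)
    rwa [zero_add] at this
  have hlow : dle (T n * (C (Z 0 0) * R 1 1 + C (Z 1 1) * R 0 0 - C (Z 0 1) * R 1 0 -
      C (Z 1 0) * R 0 1) + (R 0 0 * R 1 1 - R 0 1 * R 1 0)) (2 * n - 1) := by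
    refine dle_add ?_ ?_
    · refine dle_mono (dle_mul (dle_T n) (?_ : dle _ (n - 1))) (by omega)
      rw [sub_eq_add_neg, sub_eq_add_neg]
      exact dle_add (dle_add (dle_add (hc _ _ _) (hc _ _ _)) (dle_neg (hc _ _ _)))
        (dle_neg (hc _ _ _))
    · rw [sub_eq_add_neg]
      exact dle_add (dle_mono (dle_mul (hR 0 0) (hR 1 1)) (by omega))
        (dle_neg (dle_mono (dle_mul (hR 0 1) (hR 1 0)) (by omega)))
  rw [hd]
  constructor
  · rw [AddMonoidAlgebra.coeff_add, Finsupp.add_apply, hlow _ (by omega), coeff_T_mul, C_apply,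
      sub_self, if_pos rfl, add_zero]
  · intro k hk
    rw [AddMonoidAlgebra.coeff_add, Finsupp.add_apply, hlow _ (by omega), coeff_T_mul, C_apply,
      if_neg (by omega), add_zero]

end mat


/-! ### Fox derivatives of twisted strands -/

section foxd

variable (ρ : F2 →* SL(2, ℂ))

/-- The image of the Fox derivative under `Φ`. -/
noncomputable def DD (w : F2) : Matrix (Fin 2) (Fin 2) ℂ[T;T⁻¹] := Phi ρ (fox 0 w)

theorem Phi_of (u : F2) : Phi ρ (MonoidAlgebra.of ℤ F2 u) = twHom ρ u := by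
  rw [Phi, MonoidAlgebra.lift_of]

theorem DD_mul (u v : F2) : DD ρ (u * v) = DD ρ u + twHom ρ u * DD ρ v := by
  rw [DD, fox_mul, map_add, map_mul, Phi_of]; rfl

theorem DD_one : DD ρ 1 = 0 := by
  have h := DD_mul ρ 1 1
  rw [mul_one, map_one, one_mul] at h
  exact left_eq_add.mp h

theorem DD_inv (u : F2) : DD ρ u⁻¹ = -(twHom ρ u⁻¹ * DD ρ u) := by
  have h := DD_mul ρ u⁻¹ u
  rw [inv_mul_cancel, DD_one] at h
  exact eq_neg_of_add_eq_zero_left h.symm

theorem DD_gx : DD ρ gx = 1 := by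
  rw [DD, gx, fox_of, if_pos rfl, map_one]

theorem DD_gy : DD ρ gy = 0 := by
  rw [DD, gy, fox_of, if_neg (by decide), map_zero]

theorem twHom_apply (u : F2) : twHom ρ u = (T (Multiplicative.toAdd (degHom u)) : ℂ[T;T⁻¹]) •
    ((ρ u).1).map C := rfl

theorem twHom_zero {u : F2} (h : degHom u = 1) : twHom ρ u = ((ρ u).1).map C := by
  rw [twHom_apply, h, toAdd_one, T_zero, one_smul]

theorem twHom_one {u : F2} (h : degHom u = Multiplicative.ofAdd 1) :
    twHom ρ u = (T 1 : ℂ[T;T⁻¹]) • ((ρ u).1).map C := by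
  rw [twHom_apply, h, toAdd_ofAdd]

theorem DD_zpow {h : F2} (hh : degHom h = 1) (m : ℤ) :
    DD ρ (h ^ m) = (geomZ (ρ h) m).map C * DD ρ h := by
  have hp : ∀ m : ℤ, degHom (h ^ m) = 1 := fun m => by rw [map_zpow, hh, _root_.one_zpow]
  have key : ∀ m : ℤ, DD ρ (h ^ (m + 1)) = DD ρ (h ^ m) + ((ρ h ^ m).1).map C * DD ρ h := by
    intro m
    rw [_root_.zpow_add_one, DD_mul, twHom_zero ρ (hp m), map_zpow]
  have key2 : ∀ m : ℤ, (geomZ (ρ h) (m + 1)).map C * DD ρ h =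
      (geomZ (ρ h) m).map C * DD ρ h + ((ρ h ^ m).1).map C * DD ρ h := by
    intro m
    rw [geomZ_succ, Matrix.map_add _ (map_add _), Matrix.add_mul]
  induction m using Int.induction_on with
  | zero =>
    rw [zpow_zero, DD_one, geomZ_zero]
    ext i j
    simp
  | succ n ih => rw [key, key2, ih]
  | pred n ih =>
    have h1 := key (-(n : ℤ) - 1)
    have h2 := key2 (-(n : ℤ) - 1)
    rw [sub_add_cancel] at h1 h2
    rw [ih, h2] at h1
    exact (add_right_cancel h1).symm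

theorem DD_conj {g b : F2} (hg : degHom g = 1) (hb : degHom b = Multiplicative.ofAdd 1) :
    DD ρ (g * b * g⁻¹) = DD ρ g + ((ρ g).1).map C * DD ρ b -
      (T 1 : ℂ[T;T⁻¹]) • (((ρ (g * b * g⁻¹)).1).map C * DD ρ g) := by
  have hd : degHom (g * b * g⁻¹) = Multiplicative.ofAdd 1 := by
    rw [map_mul, map_mul, map_inv, hg, hb]; simp
  rw [DD_mul, DD_mul, DD_inv, twHom_zero ρ hg, Matrix.mul_neg, ← Matrix.mul_assoc, ← map_mul,
    twHom_one ρ hd, Matrix.smul_mul]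
  abel

theorem strands_degHom (L : List (ℤ × ℤ)) :
    degHom (strands gx gy L).1 = Multiplicative.ofAdd 1 ∧
    degHom (strands gx gy L).2.1 = Multiplicative.ofAdd 1 ∧
    degHom (strands gx gy L).2.2 = Multiplicative.ofAdd 1 := by
  induction L with
  | nil => simp [strands, gx, gy, degHom]
  | cons p L ih =>
    obtain ⟨h1, h2, h3⟩ := ih
    simp only [strands, twistAB, twistBC, map_mul, map_inv, map_zpow, h1, h2, h3]
    simp

theorem twHom_inv_one {u : F2} (h : degHom u = Multiplicative.ofAdd 1) :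
    twHom ρ u⁻¹ = (T (-1) : ℂ[T;T⁻¹]) • (((ρ u)⁻¹).1).map C := by
  rw [twHom_apply, map_inv degHom, map_inv ρ, h, toAdd_inv, toAdd_ofAdd]

theorem step_BC {b c : F2} (db : degHom b = Multiplicative.ofAdd 1)
    (dc : degHom c = Multiplicative.ofAdd 1) (m k : ℤ) (Z : Matrix (Fin 2) (Fin 2) ℂ)
    (hb : TopM (DD ρ b) k (-((ρ b).1 * Z))) (hc : DegLE (DD ρ c) (k - 1)) :
    TopM (DD ρ ((b⁻¹ * c) ^ m * b * ((b⁻¹ * c) ^ m)⁻¹)) k
      (-(((ρ ((b⁻¹ * c) ^ m * b * ((b⁻¹ * c) ^ m)⁻¹)).1 * geomZ (ρ (b⁻¹ * c)) m +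
        (ρ ((b⁻¹ * c) ^ m)).1 * (ρ b).1) * Z)) ∧
    DegLE (DD ρ ((b⁻¹ * c) ^ m * c * ((b⁻¹ * c) ^ m)⁻¹)) k := by
  have dh : degHom (b⁻¹ * c) = 1 := by rw [map_mul, map_inv, db, dc]; simp
  have dg : degHom ((b⁻¹ * c) ^ m) = 1 := by rw [map_zpow, dh, _root_.one_zpow]
  have hE : TopM (DD ρ (b⁻¹ * c)) (k - 1) Z := by
    have e : DD ρ (b⁻¹ * c) = (T (-1) : ℂ[T;T⁻¹]) •
        ((((ρ b)⁻¹).1).map C * (-DD ρ b + DD ρ c)) := by
      rw [DD_mul, DD_inv, twHom_inv_one ρ db, Matrix.mul_add, smul_add, Matrix.mul_neg, smul_neg,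
        Matrix.smul_mul, Matrix.smul_mul]
    rw [e]
    refine ((hb.neg.add_low hc).const_mul _).smulT (-1) |>.congr ?_
    rw [neg_neg, ← Matrix.mul_assoc, ← Matrix.SpecialLinearGroup.coe_mul, inv_mul_cancel,
      Matrix.SpecialLinearGroup.coe_one, Matrix.one_mul]
  have hg : TopM (DD ρ ((b⁻¹ * c) ^ m)) (k - 1) (geomZ (ρ (b⁻¹ * c)) m * Z) := by
    rw [DD_zpow ρ dh]
    exact hE.const_mul _
  constructor
  · rw [DD_conj ρ dg db]
    have h1 := (hb.const_mul (ρ ((b⁻¹ * c) ^ m)).1)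
    have h2 := ((hg.const_mul (ρ ((b⁻¹ * c) ^ m * b * ((b⁻¹ * c) ^ m)⁻¹)).1).smulT 1).neg
    rw [show k - 1 + 1 = k by ring] at h2
    have h3 := (h1.add h2).add_low hg.degLE
    have e : ∀ x y z : Matrix (Fin 2) (Fin 2) ℂ[T;T⁻¹], x + y - z = y + -z + x := by
      intro x y z; abel
    rw [e]
    refine h3.congr ?_
    noncomm_ring
  · rw [DD_conj ρ dg dc]
    refine DegLE.sub (DegLE.add (hg.degLE.mono (by omega)) ?_) ?_
    · exact (hc.const_mul _).mono (by omega)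
    · exact ((hg.degLE.const_mul _).smulT 1).mono (by omega)

theorem step_AB {a b : F2} (da : degHom a = Multiplicative.ofAdd 1)
    (db : degHom b = Multiplicative.ofAdd 1) (n k : ℤ) (Za Zb : Matrix (Fin 2) (Fin 2) ℂ)
    (ha : TopM (DD ρ a) k Za) (hb : TopM (DD ρ b) k Zb) :
    TopM (DD ρ ((a * b⁻¹) ^ n * a * ((a * b⁻¹) ^ n)⁻¹)) (k + 1)
      (-((ρ ((a * b⁻¹) ^ n * a * ((a * b⁻¹) ^ n)⁻¹)).1 *
        (geomZ (ρ (a * b⁻¹)) n * (Za - (ρ (a * b⁻¹)).1 * Zb)))) ∧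
    TopM (DD ρ ((a * b⁻¹) ^ n * b * ((a * b⁻¹) ^ n)⁻¹)) (k + 1)
      (-((ρ ((a * b⁻¹) ^ n * b * ((a * b⁻¹) ^ n)⁻¹)).1 *
        (geomZ (ρ (a * b⁻¹)) n * (Za - (ρ (a * b⁻¹)).1 * Zb)))) := by
  have dh : degHom (a * b⁻¹) = 1 := by rw [map_mul, map_inv, da, db]; simp
  have dg : degHom ((a * b⁻¹) ^ n) = 1 := by rw [map_zpow, dh, _root_.one_zpow]
  have hE : TopM (DD ρ (a * b⁻¹)) k (Za - (ρ (a * b⁻¹)).1 * Zb) := by
    have e : DD ρ (a * b⁻¹) = DD ρ a + -(((ρ (a * b⁻¹)).1).map C * DD ρ b) := by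
      rw [DD_mul, DD_inv, Matrix.mul_neg, ← Matrix.mul_assoc, ← map_mul, twHom_zero ρ dh]
    rw [e, sub_eq_add_neg]
    exact ha.add (hb.const_mul _).neg
  have hg : TopM (DD ρ ((a * b⁻¹) ^ n)) k
      (geomZ (ρ (a * b⁻¹)) n * (Za - (ρ (a * b⁻¹)).1 * Zb)) := by
    rw [DD_zpow ρ dh]
    exact hE.const_mul _
  have e : ∀ x y z : Matrix (Fin 2) (Fin 2) ℂ[T;T⁻¹], x + y - z = -z + (x + y) := by
    intro x y z; abel
  constructor
  · rw [DD_conj ρ dg da, e]
    refine TopM.add_low ((hg.const_mul _).smulT 1).neg (DegLE.add ?_ ?_)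
    · exact hg.degLE.mono (by omega)
    · exact (ha.degLE.const_mul _).mono (by omega)
  · rw [DD_conj ρ dg db, e]
    refine TopM.add_low ((hg.const_mul _).smulT 1).neg (DegLE.add ?_ ?_)
    · exact hg.degLE.mono (by omega)
    · exact (hb.degLE.const_mul _).mono (by omega)

end foxd

theorem strands_map_aux {G H : Type*} [Group G] [Group H] (f : G →* H) (x y : G)
    (L : List (ℤ × ℤ)) :
    strands (f x) (f y) L =
      (f (strands x y L).1, f (strands x y L).2.1, f (strands x y L).2.2) := by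
  induction L with
  | nil => rfl
  | cons p L ih => simp only [strands, ih, twistAB, twistBC, map_mul, map_inv, map_zpow]

theorem degLE_zero (n : ℤ) : DegLE 0 n := fun i j k _ => by simp

/-- The algebra of the induction step. -/
theorem step_alg (A B H G : SL(2, ℂ)) (S Z : Matrix (Fin 2) (Fin 2) ℂ)
    (hS : (H.1 - 1) * S = G.1 - 1) :
    -(A.1 * Z) - (A * (G * B * G⁻¹)⁻¹).1 * -(((G * B * G⁻¹).1 * S + G.1 * B.1) * Z) =
      A.1 * (H.1 * S) * Z := by
  have h1 : (A * (G * B * G⁻¹)⁻¹).1 * (G * B * G⁻¹).1 = A.1 := by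
    rw [← Matrix.SpecialLinearGroup.coe_mul, inv_mul_cancel_right]
  have h2 : (A * (G * B * G⁻¹)⁻¹).1 * (G.1 * B.1) = A.1 * G.1 := by
    have h0 : A * (G * B * G⁻¹)⁻¹ * (G * B) = A * G := by group
    rw [← Matrix.SpecialLinearGroup.coe_mul G B, ← Matrix.SpecialLinearGroup.coe_mul, h0,
      Matrix.SpecialLinearGroup.coe_mul]
  have h3 : H.1 * S = G.1 - 1 + S := by
    rw [← hS]; noncomm_ring
  rw [h3, Matrix.mul_neg, sub_neg_eq_add, ← Matrix.mul_assoc, Matrix.mul_add, ← Matrix.mul_assoc,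
    h1, h2]
  noncomm_ring

theorem fox_strands (ρ : F2 →* SL(2, ℂ)) (L : List (ℤ × ℤ)) :
    ∃ Z : Matrix (Fin 2) (Fin 2) ℂ, Z.det = leadM (ρ gx) (ρ gy) L ∧
      TopM (Phi ρ (fox 0 (strands gx gy L).1)) L.length
        (-((ρ (strands gx gy L).1).1 * Z)) ∧
      TopM (Phi ρ (fox 0 (strands gx gy L).2.1)) L.length
        (-((ρ (strands gx gy L).2.1).1 * Z)) ∧
      DegLE (Phi ρ (fox 0 (strands gx gy L).2.2)) (L.length - 1) := by
  change ∃ Z : Matrix (Fin 2) (Fin 2) ℂ, Z.det = leadM (ρ gx) (ρ gy) L ∧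
      TopM (DD ρ (strands gx gy L).1) L.length (-((ρ (strands gx gy L).1).1 * Z)) ∧
      TopM (DD ρ (strands gx gy L).2.1) L.length (-((ρ (strands gx gy L).2.1).1 * Z)) ∧
      DegLE (DD ρ (strands gx gy L).2.2) (L.length - 1)
  induction L with
  | nil =>
    have hx : TopM (DD ρ gx) 0 (-((ρ gx).1 * -((ρ gx)⁻¹).1)) := by
      rw [DD_gx, Matrix.mul_neg, neg_neg, ← Matrix.SpecialLinearGroup.coe_mul, mul_inv_cancel,
        Matrix.SpecialLinearGroup.coe_one]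
      unfold TopM
      rw [T_zero, one_smul, Matrix.map_one _ (map_zero _) (map_one _), sub_self]
      exact degLE_zero _
    refine ⟨-((ρ gx)⁻¹).1, ?_, hx, hx, ?_⟩
    · rw [leadM, Matrix.det_neg, ((ρ gx)⁻¹).2]; simp
    · change DegLE (DD ρ gy) _
      rw [DD_gy]
      exact degLE_zero _
  | cons p L ih =>
    obtain ⟨Z, hZ, ha, hb, hc⟩ := ih
    obtain ⟨da, db, dc⟩ := strands_degHom L
    obtain ⟨hb', hc'⟩ := step_BC ρ db dc p.1 L.length Z hb hc
    have dh : degHom ((strands gx gy L).2.1⁻¹ * (strands gx gy L).2.2) = 1 := by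
      rw [map_mul, map_inv, db, dc]; simp
    have db' : degHom (((strands gx gy L).2.1⁻¹ * (strands gx gy L).2.2) ^ p.1 *
        (strands gx gy L).2.1 * (((strands gx gy L).2.1⁻¹ * (strands gx gy L).2.2) ^ p.1)⁻¹) =
        Multiplicative.ofAdd 1 := by
      rw [map_mul, map_mul, map_inv, map_zpow, dh, db]; simp
    obtain ⟨ha'', hb''⟩ := step_AB ρ da db' p.2 L.length _ _ ha hb'
    have hk : (((p :: L).length : ℕ) : ℤ) = (L.length : ℤ) + 1 := by simp
    rw [hk]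
    refine ⟨_, ?_, ha'', hb'', ?_⟩
    · have halg := step_alg (ρ (strands gx gy L).1) (ρ (strands gx gy L).2.1)
        (ρ ((strands gx gy L).2.1⁻¹ * (strands gx gy L).2.2))
        (ρ (((strands gx gy L).2.1⁻¹ * (strands gx gy L).2.2) ^ p.1))
        (geomZ (ρ ((strands gx gy L).2.1⁻¹ * (strands gx gy L).2.2)) p.1) Z
        (by rw [sub_one_mul_geomZ, map_zpow])
      have e1 : ρ ((strands gx gy L).1 * (((strands gx gy L).2.1⁻¹ * (strands gx gy L).2.2) ^ p.1 *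
          (strands gx gy L).2.1 * (((strands gx gy L).2.1⁻¹ * (strands gx gy L).2.2) ^ p.1)⁻¹)⁻¹) =
          ρ (strands gx gy L).1 * (ρ (((strands gx gy L).2.1⁻¹ * (strands gx gy L).2.2) ^ p.1) *
          ρ (strands gx gy L).2.1 *
          (ρ (((strands gx gy L).2.1⁻¹ * (strands gx gy L).2.2) ^ p.1))⁻¹)⁻¹ := by
        simp only [map_mul, map_inv]
      have e2 : ρ (((strands gx gy L).2.1⁻¹ * (strands gx gy L).2.2) ^ p.1 *
          (strands gx gy L).2.1 * (((strands gx gy L).2.1⁻¹ * (strands gx gy L).2.2) ^ p.1)⁻¹) =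
          ρ (((strands gx gy L).2.1⁻¹ * (strands gx gy L).2.2) ^ p.1) *
          ρ (strands gx gy L).2.1 *
          (ρ (((strands gx gy L).2.1⁻¹ * (strands gx gy L).2.2) ^ p.1))⁻¹ := by
        simp only [map_mul, map_inv]
      rw [e1, e2, halg, Matrix.det_mul, Matrix.det_mul, Matrix.det_mul, Matrix.det_mul,
        det_geomZ, det_geomZ, (ρ (strands gx gy L).1).2,
        (ρ ((strands gx gy L).2.1⁻¹ * (strands gx gy L).2.2)).2, hZ, leadM, strands_map_aux]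
      simp only [twistBC, map_mul, map_inv, map_zpow, one_mul]
    · rw [add_sub_cancel_right]
      exact hc'

/-- The top coefficient of the Fox determinant. -/
theorem fox_top (ρ : F2 →* SL(2, ℂ)) (L : List (ℤ × ℤ)) (h : ρ (rel L) = 1) :
    Top (Phi ρ (fox 0 (rel L))).det (2 * L.length) (leadM (ρ gx) (ρ gy) L) := by
  obtain ⟨Z, hZ, -, hb, hc⟩ := fox_strands ρ L
  obtain ⟨da, db, dc⟩ := strands_degHom L
  have e : Phi ρ (fox 0 (rel L)) = DD ρ (strands gx gy L).2.1 + -DD ρ (strands gx gy L).2.2 := by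
    have dr : degHom (rel L) = 1 := by rw [rel, map_mul, map_inv, db, dc]; simp
    change DD ρ (rel L) = _
    rw [rel, DD_mul, DD_inv, Matrix.mul_neg, ← Matrix.mul_assoc, ← map_mul]
    have : (strands gx gy L).2.1 * (strands gx gy L).2.2⁻¹ = rel L := rfl
    rw [this, twHom_zero ρ dr, h, Matrix.SpecialLinearGroup.coe_one,
      Matrix.map_one _ (map_zero _) (map_one _), Matrix.one_mul]
  rw [e]
  have h1 := (TopM.add_low hb (DegLE.neg hc)).det
  rw [Matrix.det_neg, Matrix.det_mul, (ρ (strands gx gy L).2.1).2, hZ] at h1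
  simpa [DD] using h1

/-- The denominator of Wada's invariant. -/
theorem den_eq (ρ : F2 →* SL(2, ℂ)) (h : (ρ gy).1.trace = 2) :
    (Phi ρ (MonoidAlgebra.of ℤ F2 gy - 1)).det = T 2 - 2 * T 1 + 1 := by
  have dy : degHom gy = Multiplicative.ofAdd 1 := by simp [gy, degHom]
  rw [map_sub, map_one, Phi_of, twHom_one ρ dy, Matrix.det_fin_two]
  have hd := (ρ gy).2
  rw [Matrix.det_fin_two] at hd
  rw [Matrix.trace_fin_two] at h
  have hd' : C ((ρ gy).1 0 0) * C ((ρ gy).1 1 1) - C ((ρ gy).1 0 1) * C ((ρ gy).1 1 0) =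
      (1 : ℂ[T;T⁻¹]) := by
    rw [← map_mul, ← map_mul, ← map_sub, hd, map_one]
  have h' : C ((ρ gy).1 0 0) + C ((ρ gy).1 1 1) = (2 : ℂ[T;T⁻¹]) := by
    rw [← map_add, h, map_ofNat]
  have hT : (T 2 : ℂ[T;T⁻¹]) = T 1 * T 1 := by rw [← T_add]; rfl
  simp only [Matrix.sub_apply, Matrix.smul_apply, Matrix.map_apply, smul_eq_mul,
    Matrix.one_apply_eq]
  rw [Matrix.one_apply_ne (by decide), Matrix.one_apply_ne (by decide), hT]
  linear_combination (T 1 * T 1) * hd' - T 1 * h'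

/-- The top coefficient of Wada's invariant. -/
theorem wada_top (L : List (ℤ × ℤ)) (ρ : KnotGroup L →* SL(2, ℂ))
    (hy : (ρ (toKnot L gy)).1.trace = 2) (Δ : ℂ[T;T⁻¹]) (hΔ : IsWada L ρ Δ) :
    Top Δ (2 * L.length - 2) (leadM (ρ (toKnot L gx)) (ρ (toKnot L gy)) L) := by
  have hr : (ρ.comp (toKnot L)) (rel L) = 1 := by
    rw [MonoidHom.comp_apply]
    have : toKnot L (rel L) = 1 := by
      rw [toKnot, PresentedGroup.mk_eq_one_iff]
      exact Subgroup.subset_normalClosure rfl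
    rw [this, map_one]
  have h1 := fox_top (ρ.comp (toKnot L)) L hr
  rw [IsWada, den_eq (ρ.comp (toKnot L)) hy] at hΔ
  rw [← hΔ] at h1
  obtain ⟨h2, h3⟩ := h1
  have hco : ∀ j : ℤ, (Δ * (T 2 - 2 * T 1 + 1)).coeff j =
      Δ.coeff (j - 2) - 2 * Δ.coeff (j - 1) + Δ.coeff j := by
    intro j
    have e : Δ * (T 2 - 2 * T 1 + 1) = T 2 * Δ - C 2 * (T 1 * Δ) + Δ := by
      rw [map_ofNat]; ring
    rw [e, AddMonoidAlgebra.coeff_add, AddMonoidAlgebra.coeff_sub, Finsupp.add_apply,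
      Finsupp.sub_apply, coeff_T_mul, coeff_C_mul', coeff_T_mul]
  have hd : ∀ k : ℤ, 2 * (L.length : ℤ) - 2 < k → Δ.coeff k = 0 := by
    by_contra hcon
    push Not at hcon
    obtain ⟨k, hk, hk0⟩ := hcon
    have hne : Δ.coeff.support.Nonempty := ⟨k, Finsupp.mem_support_iff.mpr hk0⟩
    have hM := Finset.max'_mem _ hne
    set M := Δ.coeff.support.max' hne with hMdef
    have hkM : k ≤ M := Finset.le_max' _ _ (Finsupp.mem_support_iff.mpr hk0)
    have hbig : ∀ j : ℤ, M < j → Δ.coeff j = 0 := by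
      intro j hj
      by_contra hj0
      have := Finset.le_max' _ _ (Finsupp.mem_support_iff.mpr hj0)
      omega
    have h4 := h3 (M + 2) (by omega)
    rw [hco, add_sub_cancel_right, hbig (M + 2 - 1) (by omega), hbig (M + 2) (by omega)] at h4
    apply Finsupp.mem_support_iff.mp hM
    simpa using h4
  refine ⟨?_, hd⟩
  have h5 := hco (2 * L.length)
  rw [h2, hd (2 * (L.length : ℤ) - 1) (by omega), hd (2 * (L.length : ℤ)) (by omega)] at h5
  rw [MonoidHom.comp_apply, MonoidHom.comp_apply] at h5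
  simpa using h5.symm

end Pool.Agent.W_MP_5f5bee_gt
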