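import Mathlib
import Pool.Agent.W_MP_5f5bee_gt.Vec

/-!
Characteristic two: the vectors of the strands are `N^j e₀`, as in a dihedral colouring.
-/

open scoped MatrixGroups

namespace Pool.Agent.W_MP_5f5bee_gt

theorem dihedral_conj {G : Type*} [Group G] (r n : G) (h : r * n * r⁻¹ = n⁻¹) (k : ℤ) :
    r * n ^ k * r⁻¹ = n ^ (-k) := by
  rw [← conj_zpow, h, inv_zpow, zpow_neg]

theorem dihedral_bc {G : Type*} [Group G] (r n : G) (hr : r⁻¹ = r) (h : r * n * r⁻¹ = n⁻¹)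
    (j k : ℤ) :
    (n ^ j * r * (n ^ j)⁻¹)⁻¹ * (n ^ k * r * (n ^ k)⁻¹) = n ^ (2 * (j - k)) := by
  have e : (n ^ j * r * (n ^ j)⁻¹)⁻¹ * (n ^ k * r * (n ^ k)⁻¹) =
      n ^ j * (r⁻¹ * n ^ (k - j) * r) * n ^ (-k) := by group
  have e2 : r⁻¹ * n ^ (k - j) * r = n ^ (-(k - j)) := by
    have := dihedral_conj r n h (k - j)
    rw [hr] at this ⊢
    exact this
  rw [e, e2, ← zpow_add, ← zpow_add]
  congr 1
  ring

theorem dihedral_ab {G : Type*} [Group G] (r n : G) (h : r * n * r⁻¹ = n⁻¹)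
    (i j : ℤ) :
    (n ^ i * r * (n ^ i)⁻¹) * (n ^ j * r * (n ^ j)⁻¹)⁻¹ = n ^ (2 * (i - j)) := by
  have e : (n ^ i * r * (n ^ i)⁻¹) * (n ^ j * r * (n ^ j)⁻¹)⁻¹ =
      n ^ i * (r * n ^ (j - i) * r⁻¹) * n ^ (-j) := by group
  rw [e, dihedral_conj r n h, ← zpow_add, ← zpow_add]
  congr 1
  ring

end Pool.Agent.W_MP_5f5bee_gt

open Matrix

namespace Pool.Agent.W_MP_5f5bee_gt

variable {R : Type*} [CommRing R] [CharP R 2]

/-- The rotation `N`. -/
def Nmat (q : R) : SL(2, R) := ⟨!![q, 1; 1, 0], by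
  rw [Matrix.det_fin_two_of]
  have : (2 : R) = 0 := CharTwo.two_eq_zero
  linear_combination (-1 : R) * this⟩

/-- The integers attached to the strands: the vectors are `N^i e₀`, `N^j e₀`, `N^k e₀`. -/
def idx : List (ℤ × ℤ) → ℤ × ℤ × ℤ
  | [] => (1, 1, 0)
  | p :: L =>
    ((idx L).1 + 2 * p.2 * ((idx L).1 - ((idx L).2.1 + 2 * p.1 * ((idx L).2.1 - (idx L).2.2))),
      (idx L).2.1 + 2 * p.1 * ((idx L).2.1 - (idx L).2.2) +
        2 * p.2 * ((idx L).1 - ((idx L).2.1 + 2 * p.1 * ((idx L).2.1 - (idx L).2.2))),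
      (idx L).2.2 + 2 * p.1 * ((idx L).2.1 - (idx L).2.2))

theorem idx_uv (L : List (ℤ × ℤ)) :
    (idx L).1 - (idx L).2.1 = (uv L).1 ∧ (idx L).2.1 - (idx L).2.2 = (uv L).2 := by
  induction L with
  | nil => simp [idx, uv]
  | cons p L ih =>
    obtain ⟨h1, h2⟩ := ih
    simp only [idx, uv]
    rw [← h1, ← h2]
    constructor <;> ring

theorem uv_odd (L : List (ℤ × ℤ)) : Odd (uv L).2 := by
  induction L with
  | nil => simp [uv]
  | cons p L ih =>
    simp only [uv]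
    refine ih.add_even ?_
    rw [mul_assoc]
    exact even_two_mul _

theorem Nmat_coe (q : R) : (Nmat q).1 = !![q, 1; 1, 0] := rfl

omit [CharP R 2] in
/-- The matrix `par q ![0, 1]`. -/
theorem par_e0_coe (q : R) : (par q ![0, 1]).1 = !![1, 0; -q, 1] := by
  rw [par_coe]
  simp

theorem par_e0_sq (q : R) : par q ![0, 1] * par q ![0, 1] = 1 := by
  have h2 : (2 : R) = 0 := CharTwo.two_eq_zero
  apply Subtype.ext
  rw [Matrix.SpecialLinearGroup.coe_mul, par_e0_coe]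
  ext i j
  fin_cases i <;> fin_cases j <;> simp [Matrix.mul_apply, Fin.sum_univ_two]
  linear_combination (-q) * h2

theorem par_e0_inv (q : R) : (par q ![0, 1])⁻¹ = par q ![0, 1] :=
  inv_eq_of_mul_eq_one_left (par_e0_sq q)

theorem par_e0_conj (q : R) :
    par q ![0, 1] * Nmat q * (par q ![0, 1])⁻¹ = (Nmat q)⁻¹ := by
  have h2 : (2 : R) = 0 := CharTwo.two_eq_zero
  rw [par_e0_inv]
  apply Subtype.ext
  rw [Matrix.SpecialLinearGroup.coe_mul, Matrix.SpecialLinearGroup.coe_mul, par_e0_coe,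
    Matrix.SpecialLinearGroup.coe_inv, Nmat_coe, Matrix.adjugate_fin_two_of]
  ext i j
  fin_cases i <;> fin_cases j <;> simp [Matrix.mul_apply, Fin.sum_univ_two]
  · linear_combination h2
  · linear_combination h2
  · linear_combination (-q) * h2

theorem bc_char2 (q : R) (j k : ℤ) :
    (par q ((Nmat q ^ j).1.mulVec ![0, 1]))⁻¹ * par q ((Nmat q ^ k).1.mulVec ![0, 1]) =
      Nmat q ^ (2 * (j - k)) := by
  rw [par_mulVec, par_mulVec]
  exact dihedral_bc _ _ (par_e0_inv q) (par_e0_conj q) j k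

theorem ab_char2 (q : R) (i j : ℤ) :
    par q ((Nmat q ^ i).1.mulVec ![0, 1]) * (par q ((Nmat q ^ j).1.mulVec ![0, 1]))⁻¹ =
      Nmat q ^ (2 * (i - j)) := by
  rw [par_mulVec, par_mulVec]
  exact dihedral_ab _ _ (par_e0_conj q) i j

theorem zpow_act (q : R) (a b : ℤ) (u : Fin 2 → R) :
    (Nmat q ^ a).1.mulVec ((Nmat q ^ b).1.mulVec u) = (Nmat q ^ (b + a)).1.mulVec u := by
  rw [add_comm b a, _root_.zpow_add, Matrix.SpecialLinearGroup.coe_mul, Matrix.mulVec_mulVec]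

theorem vBC_char2 (q : R) (m i j k : ℤ) :
    vBC q m ((Nmat q ^ i).1.mulVec ![0, 1], (Nmat q ^ j).1.mulVec ![0, 1],
      (Nmat q ^ k).1.mulVec ![0, 1]) =
    ((Nmat q ^ i).1.mulVec ![0, 1], (Nmat q ^ (j + 2 * m * (j - k))).1.mulVec ![0, 1],
      (Nmat q ^ (k + 2 * m * (j - k))).1.mulVec ![0, 1]) := by
  simp only [vBC, bc_char2, ← _root_.zpow_mul, zpow_act]
  rw [show 2 * (j - k) * m = 2 * m * (j - k) by ring]

theorem vAB_char2 (q : R) (m i j k : ℤ) :
    vAB q m ((Nmat q ^ i).1.mulVec ![0, 1], (Nmat q ^ j).1.mulVec ![0, 1],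
      (Nmat q ^ k).1.mulVec ![0, 1]) =
    ((Nmat q ^ (i + 2 * m * (i - j))).1.mulVec ![0, 1],
      (Nmat q ^ (j + 2 * m * (i - j))).1.mulVec ![0, 1],
      (Nmat q ^ k).1.mulVec ![0, 1]) := by
  simp only [vAB, ab_char2, ← _root_.zpow_mul, zpow_act]
  rw [show 2 * (i - j) * m = 2 * m * (i - j) by ring]

/-- The vectors of the strands in characteristic two. -/
theorem vst_char2 (q : R) (L : List (ℤ × ℤ)) :
    vst q L = ((Nmat q ^ (idx L).1).1.mulVec ![0, 1], (Nmat q ^ (idx L).2.1).1.mulVec ![0, 1],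
      (Nmat q ^ (idx L).2.2).1.mulVec ![0, 1]) := by
  induction L with
  | nil =>
    have e : (Nmat q).1.mulVec ![0, 1] = ![1, 0] := by
      rw [mulVec_two, Nmat_coe]
      simp
    simp only [vst, idx, zpow_one, zpow_zero, e, Matrix.SpecialLinearGroup.coe_one,
      Matrix.one_mulVec]
  | cons p L ih =>
    rw [vst, ih, vBC_char2, vAB_char2]
    simp only [idx]

/-- Powers of `N` are polynomials in `N`. -/
theorem Nmat_zpow_form (q : R) (l : ℤ) :
    (Nmat q ^ l).1 0 1 = (Nmat q ^ l).1 1 0 ∧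
      (Nmat q ^ l).1 0 0 = q * (Nmat q ^ l).1 1 0 + (Nmat q ^ l).1 1 1 := by
  have h2 : (2 : R) = 0 := CharTwo.two_eq_zero
  have hc : (Nmat q ^ l).1 * (Nmat q).1 = (Nmat q).1 * (Nmat q ^ l).1 := by
    rw [← Matrix.SpecialLinearGroup.coe_mul, ← Matrix.SpecialLinearGroup.coe_mul]
    exact congrArg Subtype.val ((Commute.refl (Nmat q)).zpow_left l)
  have h00 := congrFun (congrFun hc 0) 0
  have h01 := congrFun (congrFun hc 0) 1
  rw [Matrix.mul_apply, Matrix.mul_apply, Nmat_coe, Fin.sum_univ_two, Fin.sum_univ_two] at h00 h01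
  simp at h00 h01
  have e1 : (Nmat q ^ l).1 0 1 = (Nmat q ^ l).1 1 0 := by linear_combination h00
  refine ⟨e1, ?_⟩
  rw [h01, e1]

theorem trace_form (q : R) (l : ℤ) : (Nmat q ^ l).1.trace = q * (Nmat q ^ l).1 1 0 := by
  have h2 : (2 : R) = 0 := CharTwo.two_eq_zero
  rw [Matrix.trace_fin_two, (Nmat_zpow_form q l).2]
  linear_combination ((Nmat q ^ l).1 1 1) * h2

theorem frm_char2 (q : R) (j k : ℤ) :
    frm q ((Nmat q ^ j).1.mulVec ![0, 1]) ((Nmat q ^ k).1.mulVec ![0, 1]) =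
      (Nmat q ^ (j - k)).1.trace := by
  have e : (Nmat q ^ j).1.mulVec ![0, 1] =
      (Nmat q ^ k).1.mulVec ((Nmat q ^ (j - k)).1.mulVec ![0, 1]) := by
    rw [zpow_act]
    congr 3
    ring
  have h := Nmat_zpow_form q (j - k)
  rw [e, frm_mulVec, trace_form, ← h.1, frm, mulVec_two]
  simp

/-- The values of the form in characteristic two. -/
theorem bands_char2 (q : R) (L : List (ℤ × ℤ)) :
    bands q L = (bandsZ L).map fun bl => (bl.1, (Nmat q ^ bl.2).1.trace) := by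
  induction L with
  | nil => rfl
  | cons p L ih =>
    obtain ⟨h1, h2⟩ := idx_uv L
    rw [bands, ih, bandsZ, List.map_cons, List.map_cons, vst_char2, vBC_char2, frm_char2,
      frm_char2, ← h1, ← h2]
    have e : (idx L).1 - ((idx L).2.1 + 2 * p.1 * ((idx L).2.1 - (idx L).2.2)) =
        (idx L).1 - (idx L).2.1 - 2 * p.1 * ((idx L).2.1 - (idx L).2.2) := by ring
    rw [e]

/-- If the last two vectors agree then `N` has odd order. -/
theorem Nmat_pow (q : R) (L : List (ℤ × ℤ)) (h : (vst q L).2.1 = (vst q L).2.2) :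
    Nmat q ^ (uv L).2 = 1 := by
  rw [vst_char2] at h
  simp only at h
  have h' := congrArg (fun u => (Nmat q ^ (-(idx L).2.2)).1.mulVec u) h
  simp only [zpow_act] at h'
  rw [add_neg_cancel, ← sub_eq_add_neg, (idx_uv L).2, zpow_zero,
    Matrix.SpecialLinearGroup.coe_one, Matrix.one_mulVec, mulVec_two] at h'
  have h0 := congrFun h' 0
  have h1 := congrFun h' 1
  simp at h0 h1
  have hf := Nmat_zpow_form q (uv L).2
  have h10 : (Nmat q ^ (uv L).2).1 1 0 = 0 := by rw [← hf.1]; exact h0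
  have h00 : (Nmat q ^ (uv L).2).1 0 0 = 1 := by rw [hf.2, h10, h1]; ring
  apply Subtype.ext
  rw [Matrix.SpecialLinearGroup.coe_one]
  ext i j
  fin_cases i <;> fin_cases j
  · simpa using h00
  · simpa using h0
  · simpa using h10
  · simpa using h1

theorem trace_sq (M : SL(2, R)) : (M * M).1.trace = M.1.trace ^ 2 := by
  have h2 : (2 : R) = 0 := CharTwo.two_eq_zero
  have h := M.2
  rw [Matrix.det_fin_two] at h
  rw [Matrix.SpecialLinearGroup.coe_mul, Matrix.trace_fin_two, Matrix.trace_fin_two,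
    Matrix.mul_apply, Matrix.mul_apply, Fin.sum_univ_two, Fin.sum_univ_two]
  linear_combination (-M.1 0 0 * M.1 1 1 + M.1 0 1 * M.1 1 0) * h2

/-- Traces of powers of two. -/
theorem trace_two_pow (q : R) (l : ℤ) (k : ℕ) :
    (Nmat q ^ l).1.trace ^ 2 ^ k = (Nmat q ^ (l * 2 ^ k)).1.trace := by
  induction k with
  | zero => simp
  | succ k ih =>
    rw [pow_succ 2 k, pow_mul, ih, ← trace_sq, ← _root_.zpow_add]
    congr 3
    ring

theorem uv_cast (L : List (ℤ × ℤ)) :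
    ∃ k : ℕ, 1 ≤ k ∧ (uv L).2 ∣ 2 ^ k - 1 := by
  have hodd := uv_odd L
  have hn : Nat.Coprime 2 (uv L).2.natAbs := by
    rw [Nat.coprime_two_left]
    exact Int.natAbs_odd.mpr hodd
  have hpos : 0 < (uv L).2.natAbs := by
    rcases Nat.eq_zero_or_pos (uv L).2.natAbs with h | h
    · rw [h] at hn
      norm_num at hn
    · exact h
  refine ⟨(uv L).2.natAbs.totient, Nat.totient_pos.mpr hpos, ?_⟩
  have h := Nat.ModEq.pow_totient hn
  have h3 := (Nat.modEq_iff_dvd.mp h.symm)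
  rw [← Int.natAbs_dvd]
  simpa using h3

/-- If the last two vectors agree then some Frobenius power fixes `q`. -/
theorem exists_frob (q : R) (L : List (ℤ × ℤ)) (h : (vst q L).2.1 = (vst q L).2.2) :
    ∃ k : ℕ, 1 ≤ k ∧ q ^ 2 ^ k = q := by
  obtain ⟨k, hk, c, hc⟩ := uv_cast L
  refine ⟨k, hk, ?_⟩
  have hN := Nmat_pow q L h
  have ht := trace_two_pow q 1 k
  have e : (1 : ℤ) * 2 ^ k = 1 + (uv L).2 * c := by rw [← hc]; ring
  rw [e, _root_.zpow_add, _root_.zpow_mul, hN, _root_.one_zpow, mul_one, zpow_one] at ht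
  have hq : (Nmat q).1.trace = q := by
    rw [Nmat_coe, Matrix.trace_fin_two]
    simp
  rwa [hq] at ht

/-- The trace of the inverse square of a form value. -/
theorem trace_inv_sq (q : R) (L : List (ℤ × ℤ)) (h : (vst q L).2.1 = (vst q L).2.2) (m : ℕ)
    (hm : (uv L).2 ∣ 2 ^ m + 1) (l : ℤ) (c : R)
    (hc : c * (Nmat q ^ l).1.trace ^ 2 = 1) :
    ∑ i ∈ Finset.range m, c ^ 2 ^ i = 1 := by
  have h2 : (2 : R) = 0 := CharTwo.two_eq_zero
  obtain ⟨d, hd⟩ := hm
  have hN := Nmat_pow q L h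
  set M : SL(2, R) := Nmat q ^ l with hM
  set r : R := M.1.trace with hr
  -- the power `2 ^ m` acts as inversion
  have hMm : M ^ (2 ^ m) = M⁻¹ := by
    rw [hM, ← _root_.zpow_natCast, ← _root_.zpow_mul, ← _root_.zpow_neg]
    have e : l * ((2 ^ m : ℕ) : ℤ) = -l + (uv L).2 * (d * l) := by
      push_cast
      linear_combination l * hd
    rw [e, _root_.zpow_add, _root_.zpow_mul, hN, _root_.one_zpow, mul_one]
  have hdet := M.2
  rw [Matrix.det_fin_two] at hdet
  have htr : r = M.1 0 0 + M.1 1 1 := by rw [hr, Matrix.trace_fin_two]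
  have htrinv : (M⁻¹).1.trace = r := by
    rw [Matrix.SpecialLinearGroup.coe_inv, Matrix.adjugate_fin_two, Matrix.trace_fin_two, htr]
    simp [add_comm]
  have hrm : r ^ 2 ^ m = r := by
    have ht := trace_two_pow q l m
    rw [← hM, ← hr] at ht
    rw [ht, _root_.zpow_mul, ← hM]
    have : (M ^ ((2 : ℤ) ^ m)) = M⁻¹ := by
      rw [← hMm, ← _root_.zpow_natCast]
      push_cast
      rfl
    rw [this, htrinv]
  have hcm : c ^ 2 ^ m = c := by
    have h1 : c ^ 2 ^ m * r ^ 2 = 1 := by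
      have := congrArg (fun t => t ^ 2 ^ m) hc
      simp only [one_pow] at this
      rw [mul_pow, ← pow_mul, mul_comm 2 (2 ^ m), pow_mul, hrm] at this
      exact this
    linear_combination c * h1 - c ^ 2 ^ m * hc
  -- Cayley-Hamilton
  set x : Matrix (Fin 2) (Fin 2) R := (c * r) • M.1 with hx
  have hxx : (c • (1 : Matrix (Fin 2) (Fin 2) R)) = x + x ^ 2 := by
    rw [hx, pow_two, htr]
    rw [htr] at hc
    ext i j
    fin_cases i <;> fin_cases j <;> simp [Matrix.mul_apply, Fin.sum_univ_two]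
    · linear_combination (c - c * (M.1 0 0 + M.1 1 1) * M.1 0 0) * h2 + c * hdet -
        c * (M.1 0 0 ^ 2 + M.1 0 1 * M.1 1 0) * hc
    · linear_combination (-c * (M.1 0 0 + M.1 1 1) * M.1 0 1) * h2 -
        c * (M.1 0 0 + M.1 1 1) * M.1 0 1 * hc
    · linear_combination (-c * (M.1 0 0 + M.1 1 1) * M.1 1 0) * h2 -
        c * (M.1 0 0 + M.1 1 1) * M.1 1 0 * hc
    · linear_combination (c - c * (M.1 0 0 + M.1 1 1) * M.1 1 1) * h2 + c * hdet -
        c * (M.1 1 1 ^ 2 + M.1 0 1 * M.1 1 0) * hc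
  have hsum : ∀ k : ℕ, (∑ i ∈ Finset.range k, c ^ 2 ^ i) • (1 : Matrix (Fin 2) (Fin 2) R) =
      x ^ 2 ^ k + x := by
    intro k
    induction k with
    | zero =>
      simp [CharTwo.add_self_eq_zero]
    | succ k ih =>
      have e : (c ^ 2 ^ k) • (1 : Matrix (Fin 2) (Fin 2) R) = x ^ 2 ^ k + x ^ 2 ^ (k + 1) := by
        have h3 : (c • (1 : Matrix (Fin 2) (Fin 2) R)) ^ 2 ^ k =
            (c ^ 2 ^ k) • (1 : Matrix (Fin 2) (Fin 2) R) := by
          rw [smul_pow, one_pow]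
        rw [← h3, hxx]
        rw [add_pow_char_pow_of_commute (p := 2) (n := k) ((Commute.refl x).pow_right 2), ← pow_mul,
          pow_succ, mul_comm (2 ^ k) 2]
      rw [Finset.sum_range_succ, add_smul, ih, e]
      have e2 : x ^ 2 ^ k + x + (x ^ 2 ^ k + x ^ 2 ^ (k + 1)) =
        (x ^ 2 ^ k + x ^ 2 ^ k) + (x ^ 2 ^ (k + 1) + x) := by abel
      rw [e2, CharTwo.add_self_eq_zero, zero_add]
  have hfin := hsum m
  have hxm : x ^ 2 ^ m = (c * r) • (M⁻¹).1 := by
    rw [hx, smul_pow, mul_pow, hcm, hrm, ← hMm, Matrix.SpecialLinearGroup.coe_pow]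
  rw [hxm, hx, Matrix.SpecialLinearGroup.coe_inv, Matrix.adjugate_fin_two] at hfin
  have h00 := congrFun (congrFun hfin 0) 0
  simp at h00
  rw [h00]
  linear_combination hc + (-c * r) * htr

end Pool.Agent.W_MP_5f5bee_gt
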