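import Mathlib
import Pool.Agent.W_MP_5f5bee_gt.Vec

/-!
Valuations: if `|q| > 1` then the last form value has absolute value `> 1`; hence `q` is integral
when the last two vectors are parallel.
-/

open scoped MatrixGroups
open Matrix

namespace Pool.Agent.W_MP_5f5bee_gt

/-- One twist region, positive direction. -/
theorem val_nat {K : Type*} [Field K] {Γ : Type*} [LinearOrderedCommGroupWithZero Γ]
    (v : Valuation K Γ) (c : K) (x s : ℕ → K)
    (hx : ∀ n, x (n + 1) = x n + c * s n) (hs : ∀ n, s (n + 1) = s n + c * x (n + 1))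
    (h1 : 1 < v c) (h2 : v (x 0) < v c) (h3 : 1 < v (s 0)) (n : ℕ) :
    v c < v (x (n + 1)) ∧ 1 < v (s (n + 1)) ∧ 1 < v (s n) := by
  have hc0 : 0 < v c := zero_lt_one.trans h1
  have hc : ∀ a : Γ, 1 < a → v c < v c * a := fun a ha =>
    lt_mul_of_one_lt_right hc0 ha
  have key : ∀ m : ℕ, v (x m) < v c * v (s m) ∧ 1 < v (s m) := by
    intro m
    induction m with
    | zero => exact ⟨h2.trans (hc _ h3), h3⟩
    | succ m ih =>
      obtain ⟨ha, hb⟩ := ih
      have e1 : v (x (m + 1)) = v c * v (s m) := by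
        rw [hx m, Valuation.map_add_eq_of_lt_right v (by rwa [map_mul]), map_mul]
      have e2 : v c < v (x (m + 1)) := by rw [e1]; exact hc _ hb
      have e3 : v (s m) < v c * v (x (m + 1)) := by
        rw [e1]
        have h0 : 0 < v (s m) := zero_lt_one.trans hb
        calc v (s m) < v c * v (s m) := lt_mul_of_one_lt_left h0 h1
          _ < v c * (v c * v (s m)) := by
            refine lt_mul_of_one_lt_left (mul_pos hc0 h0) h1
      have e4 : v (s (m + 1)) = v c * v (x (m + 1)) := by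
        rw [hs m, Valuation.map_add_eq_of_lt_right v (by rwa [map_mul]), map_mul]
      have h0 : 0 < v (x (m + 1)) := hc0.trans e2
      refine ⟨?_, ?_⟩
      · rw [e4]
        calc v (x (m + 1)) < v c * v (x (m + 1)) := lt_mul_of_one_lt_left h0 h1
          _ < v c * (v c * v (x (m + 1))) := lt_mul_of_one_lt_left (mul_pos hc0 h0) h1
      · rw [e4]
        exact h1.trans (hc _ (h1.trans e2))
  refine ⟨?_, (key (n + 1)).2, (key n).2⟩
  rw [hx n, Valuation.map_add_eq_of_lt_right v (by rw [map_mul]; exact (key n).1), map_mul]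
  exact hc _ (key n).2

/-- One twist region. -/
theorem val_step {K : Type*} [Field K] {Γ : Type*} [LinearOrderedCommGroupWithZero Γ]
    (v : Valuation K Γ) (c : K) (x s : ℤ → K)
    (hx : ∀ n, x (n + 1) = x n + c * s n) (hs : ∀ n, s (n + 1) = s n + c * x (n + 1))
    (h1 : 1 < v c) (h2 : v (x 0) < v c) (h3 : 1 < v (s 0)) (h4 : 1 < v (s 0 - c * x 0))
    (n : ℤ) (hn : n ≠ 0) :
    v c < v (x n) ∧ 1 < v (s n) ∧ 1 < v (s n - c * x n) := by
  have hprev : ∀ m : ℤ, s (m + 1) - c * x (m + 1) = s m := fun m => by rw [hs m]; ring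
  rcases lt_or_gt_of_ne hn with hneg | hpos
  · obtain ⟨k, hk⟩ : ∃ k : ℕ, n = -((k : ℤ) + 1) := ⟨(-n - 1).toNat, by omega⟩
    have hx' : ∀ m : ℕ, x (-((m + 1 : ℕ) : ℤ)) = x (-(m : ℤ)) + (-c) * s (-(m : ℤ) - 1) := by
      intro m
      have e := hx (-(m : ℤ) - 1)
      rw [sub_add_cancel] at e
      have e' : (-((m + 1 : ℕ) : ℤ)) = -(m : ℤ) - 1 := by push_cast; ring
      rw [e', e]
      ring
    have hs' : ∀ m : ℕ, s (-((m + 1 : ℕ) : ℤ) - 1)
        = s (-(m : ℤ) - 1) + (-c) * x (-((m + 1 : ℕ) : ℤ)) := by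
      intro m
      have e := hs (-((m + 1 : ℕ) : ℤ) - 1)
      rw [sub_add_cancel] at e
      have e' : (-((m + 1 : ℕ) : ℤ)) = -(m : ℤ) - 1 := by push_cast; ring
      rw [← e', e]
      ring
    have h3' : 1 < v (s (-((0 : ℕ) : ℤ) - 1)) := by
      have e := hs (-1)
      have e0 : (-1 : ℤ) + 1 = 0 := by norm_num
      rw [e0] at e
      have e' : (-((0 : ℕ) : ℤ) - 1) = -1 := by norm_num
      rw [e']
      have : s (-1) = s 0 - c * x 0 := by rw [e]; ring
      rw [this]
      exact h4
    have h2' : v (x (-((0 : ℕ) : ℤ))) < v (-c) := by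
      rw [Valuation.map_neg]
      simpa using h2
    have h1' : 1 < v (-c) := by rwa [Valuation.map_neg]
    obtain ⟨r1, r2, r3⟩ := val_nat v (-c) (fun m => x (-(m : ℤ))) (fun m => s (-(m : ℤ) - 1))
      hx' hs' h1' h2' h3' k
    have en : (-((k + 1 : ℕ) : ℤ)) = n := by rw [hk]; push_cast; ring
    have en' : (-(k : ℤ) - 1) = n := by rw [hk]; ring
    have r1' : v (-c) < v (x n) := by
      have := r1
      simp only [en] at this
      exact this
    have r2' : 1 < v (s (n - 1)) := by
      have := r2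
      simp only [en] at this
      exact this
    have r3' : 1 < v (s n) := by
      have := r3
      simp only [en'] at this
      exact this
    rw [Valuation.map_neg] at r1'
    refine ⟨r1', r3', ?_⟩
    have := hprev (n - 1)
    rw [sub_add_cancel] at this
    rw [this]
    exact r2'
  · obtain ⟨k, hk⟩ : ∃ k : ℕ, n = (k : ℤ) + 1 := ⟨(n - 1).toNat, by omega⟩
    obtain ⟨r1, r2, r3⟩ := val_nat v c (fun m => x (m : ℤ)) (fun m => s (m : ℤ))
      (fun m => by have := hx (m : ℤ); push_cast; exact this)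
      (fun m => by have := hs (m : ℤ); push_cast; exact this) h1 (by simpa using h2)
      (by simpa using h3) k
    have en : ((k + 1 : ℕ) : ℤ) = n := by rw [hk]; push_cast; ring
    simp only [en] at r1 r2
    refine ⟨r1, r2, ?_⟩
    rw [hk, hprev (k : ℤ)]
    exact r3

/-- The invariant of the induction. -/
theorem val_inv {K : Type*} [Field K] {Γ : Type*} [LinearOrderedCommGroupWithZero Γ]
    (v : Valuation K Γ) (q : K) (hq : 1 < v q) (L : List (ℤ × ℤ))
    (hL : ∀ p ∈ L, p.1 ≠ 0 ∧ p.2 ≠ 0) :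
    1 < v (frm q (vst q L).2.1 (vst q L).2.2) ∧
    v (frm q (vst q L).1 (vst q L).2.1) < v (frm q (vst q L).2.1 (vst q L).2.2) ∧
    1 < v (frm q (vst q L).1 (vst q L).2.2) ∧
    1 < v (frm q (vst q L).1 (vst q L).2.2 -
      frm q (vst q L).2.1 (vst q L).2.2 * frm q (vst q L).1 (vst q L).2.1) := by
  induction L with
  | nil =>
    have e1 : frm q (vst q []).2.1 (vst q []).2.2 = q := by simp [vst, frm]
    have e2 : frm q (vst q []).1 (vst q []).2.1 = 0 := by simp [vst, frm]
    have e3 : frm q (vst q []).1 (vst q []).2.2 = q := by simp [vst, frm]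
    rw [e1, e2, e3, mul_zero, sub_zero, map_zero]
    exact ⟨hq, zero_lt_one.trans hq, hq, hq⟩
  | cons p L ih =>
    obtain ⟨i1, i2, i3, i4⟩ := ih fun p' hp' => hL p' (List.mem_cons_of_mem _ hp')
    obtain ⟨hp1, hp2⟩ := hL p List.mem_cons_self
    -- the BC region
    have hBC := val_step v (frm q (vst q L).2.1 (vst q L).2.2)
      (fun n => frm q (vst q L).1 (vBC q (-n) (vst q L)).2.1)
      (fun n => frm q (vst q L).1 (vBC q (-n) (vst q L)).2.2)
      (fun n => by
        have := (vBC_frm q (vst q L) (-n - 1)).2.1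
        rw [sub_add_cancel] at this
        have e : -(n + 1) = -n - 1 := by ring
        simp only [e]
        exact this)
      (fun n => by
        have := (vBC_frm q (vst q L) (-n - 1)).2.2
        rw [sub_add_cancel] at this
        have e : -(n + 1) = -n - 1 := by ring
        simp only [e]
        exact this)
      i1 (by simpa [vBC_zero] using i2) (by simpa [vBC_zero] using i3)
      (by simpa [vBC_zero] using i4) (-p.1) (neg_ne_zero.mpr hp1)
    simp only [neg_neg] at hBC
    obtain ⟨b1, b2, b3⟩ := hBC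
    have hQ' := (vBC_frm q (vst q L) p.1).1
    have hfst : (vBC q p.1 (vst q L)).1 = (vst q L).1 := rfl
    set s1 := vBC q p.1 (vst q L) with hs1
    rw [← hfst] at b1 b2 b3
    rw [← hQ'] at b1 b3 i1
    -- the AB region
    have hAB := val_step v (frm q s1.1 s1.2.1)
      (fun n => frm q (vAB q n s1).2.1 s1.2.2)
      (fun n => frm q (vAB q n s1).1 s1.2.2)
      (fun n => (vAB_frm q s1 n).2.1)
      (fun n => (vAB_frm q s1 n).2.2)
      (i1.trans b1) (by simpa [vAB_zero] using b1) (by simpa [vAB_zero] using b2)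
      (by
        have e : frm q s1.1 s1.2.2 - frm q s1.1 s1.2.1 * frm q s1.2.1 s1.2.2
            = frm q s1.1 s1.2.2 - frm q s1.2.1 s1.2.2 * frm q s1.1 s1.2.1 := by ring
        simp only [vAB_zero]
        rw [e]
        exact b3) p.2 hp2
    obtain ⟨a1, a2, a3⟩ := hAB
    have hP' := (vAB_frm q s1 p.2).1
    have hst : vst q (p :: L) = vAB q p.2 s1 := rfl
    have hthd : (vAB q p.2 s1).2.2 = s1.2.2 := rfl
    rw [hst, hthd, hP']
    refine ⟨(i1.trans b1).trans a1, a1, a2, ?_⟩
    have e : frm q (vAB q p.2 s1).1 s1.2.2 - frm q (vAB q p.2 s1).2.1 s1.2.2 * frm q s1.1 s1.2.1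
        = frm q (vAB q p.2 s1).1 s1.2.2 - frm q s1.1 s1.2.1 * frm q (vAB q p.2 s1).2.1 s1.2.2 := by
      ring
    rw [e]
    exact a3

/-- If `|q| > 1` then the last form value has absolute value `> 1`. -/
theorem val_final {K : Type*} [Field K] {Γ : Type*} [LinearOrderedCommGroupWithZero Γ]
    (v : Valuation K Γ) (q : K) (hq : 1 < v q) (L : List (ℤ × ℤ))
    (hL : ∀ p ∈ L, p.1 ≠ 0 ∧ p.2 ≠ 0) :
    1 < v (frm q (vst q L).2.1 (vst q L).2.2) :=
  (val_inv v q hq L hL).1

/-- If the last two vectors are parallel, then `2` is not invertible in `ℤ[q]`. -/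
theorem two_not_unit (q : ℂ) (L : List (ℤ × ℤ)) (hL : ∀ p ∈ L, p.1 ≠ 0 ∧ p.2 ≠ 0)
    (h : frm q (vst q L).2.1 (vst q L).2.2 = 0) (a : ℂ) (ha : a ∈ Algebra.adjoin ℤ {q}) :
    2 * a ≠ 1 := by
  intro h2a
  let A : Subring ℂ := (Int.castRingHom ℂ).range
  have htwo : (2 : ℂ) ∈ A := ⟨2, by simp⟩
  let I : Ideal A := Ideal.span {⟨2, htwo⟩}
  have hI : I ≠ ⊤ := by
    intro hI
    have h1 : (1 : A) ∈ I := by rw [hI]; trivial
    obtain ⟨b, hb⟩ := Ideal.mem_span_singleton'.mp h1
    obtain ⟨m, hm⟩ := b.2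
    have h3 : (b : ℂ) * 2 = 1 := congrArg Subtype.val hb
    rw [← hm] at h3
    have h4 : ((m * 2 : ℤ) : ℂ) = ((1 : ℤ) : ℂ) := by
      push_cast
      simpa using h3
    have h5 : m * 2 = 1 := by exact_mod_cast h4
    omega
  obtain ⟨B, hB1, hB2⟩ := Ideal.image_subset_nonunits_valuationSubring I hI
  have h2non : (2 : ℂ) ∈ B.nonunits :=
    hB2 ⟨⟨2, htwo⟩, Ideal.subset_span rfl, rfl⟩
  have h2lt : B.valuation (2 : ℂ) < 1 := h2non
  by_cases hq : q ∈ B
  · have haB : a ∈ B := by
      refine Algebra.adjoin_induction (p := fun x _ => x ∈ B) ?_ ?_ ?_ ?_ ha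
      · intro x hx
        rw [Set.mem_singleton_iff.mp hx]
        exact hq
      · intro r
        exact hB1 ⟨r, rfl⟩
      · intro x y _ _ hx hy
        exact B.add_mem _ _ hx hy
      · intro x y _ _ hx hy
        exact B.mul_mem _ _ hx hy
    have h1 : B.valuation (2 * a) < 1 := by
      rw [map_mul]
      calc B.valuation 2 * B.valuation a ≤ B.valuation 2 * 1 :=
            mul_le_mul_right ((B.valuation_le_one_iff a).mpr haB) _
        _ < 1 := by rwa [mul_one]
    rw [h2a, map_one] at h1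
    exact lt_irrefl _ h1
  · have h1 : 1 < B.valuation q := by
      rw [← B.valuation_le_one_iff] at hq
      exact not_le.mp hq
    have := val_final B.valuation q h1 L hL
    rw [h, map_zero] at this
    exact absurd this (not_lt.mpr zero_le_one)

end Pool.Agent.W_MP_5f5bee_gt
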