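import Mathlib
import Pool.Agent.W_MP_5f5bee_gt.Nb
import Pool.Agent.W_MP_5f5bee_gt.Char2
import Pool.Agent.W_MP_5f5bee_gt.Val

/-!
Arithmetic at the prime two of the ring `A = ℤ[q]`.
-/

open scoped MatrixGroups
open Matrix

namespace Pool.Agent.W_MP_5f5bee_gt

/-- `A` is a ring generated by `q` in which `2` is neither a zero divisor nor invertible, and the
last two vectors agree modulo two. -/
structure Good (A : Type) [CommRing A] (q : A) (L : List (ℤ × ℤ)) : Prop where
  gen : Algebra.adjoin ℤ {q} = (⊤ : Subalgebra ℤ A)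
  tf : ∀ a : A, 2 * a = 0 → a = 0
  nu : ∀ a : A, 2 * a ≠ 1
  par1 : (2 : A) ∣ (vst q L).2.1 0 - (vst q L).2.2 0
  par2 : (2 : A) ∣ (vst q L).2.1 1 - (vst q L).2.2 1

/-- The ring `ℤ[q]` of a parabolic representation is good. -/
theorem good_adjoin (q : ℂ) (L : List (ℤ × ℤ)) (hL : ∀ p ∈ L, p.1 ≠ 0 ∧ p.2 ≠ 0)
    (h : (vst q L).2.1 = (vst q L).2.2 ∨ (vst q L).2.1 = -(vst q L).2.2) :
    Good (Algebra.adjoin ℤ {q}) ⟨q, Algebra.subset_adjoin rfl⟩ L := by
  set A := Algebra.adjoin ℤ ({q} : Set ℂ) with hA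
  set q' : A := ⟨q, Algebra.subset_adjoin rfl⟩ with hq'
  have hfrm : frm q (vst q L).2.1 (vst q L).2.2 = 0 := by
    rcases h with h | h
    · rw [h, frm_self]
    · rw [h]
      simp only [frm, Pi.neg_apply]
      ring
  have hmap := vst_map (A.val : A →+* ℂ) q' L
  have hqv : (A.val : A →+* ℂ) q' = q := rfl
  rw [hqv] at hmap
  have h1 : ∀ i, (vst q L).2.1 i = ((vst q' L).2.1 i : ℂ) := fun i => by rw [hmap]; rfl
  have h2 : ∀ i, (vst q L).2.2 i = ((vst q' L).2.2 i : ℂ) := fun i => by rw [hmap]; rfl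
  have hpar : ∀ i, (2 : A) ∣ (vst q' L).2.1 i - (vst q' L).2.2 i := by
    intro i
    rcases h with h | h
    · have : (vst q' L).2.1 i = (vst q' L).2.2 i := by
        apply Subtype.ext
        rw [← h1, ← h2, h]
      rw [this, sub_self]
      exact dvd_zero _
    · have : (vst q' L).2.1 i = -(vst q' L).2.2 i := by
        apply Subtype.ext
        rw [← h1, h, Subalgebra.coe_neg, ← h2]
        rfl
      rw [this]
      exact ⟨-(vst q' L).2.2 i, by ring⟩
  refine ⟨?_, ?_, ?_, hpar 0, hpar 1⟩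
  · have := Algebra.adjoin_adjoin_coe_preimage (R := ℤ) (A := ℂ) (s := {q})
    have hs : ((↑) : Algebra.adjoin ℤ ({q} : Set ℂ) → ℂ) ⁻¹' {q} = {q'} := by
      ext x
      simp only [Set.mem_preimage, Set.mem_singleton_iff]
      constructor
      · intro hx
        exact Subtype.ext hx
      · intro hx
        rw [hx]
    rw [hs] at this
    exact this
  · intro a ha
    apply Subtype.ext
    have := congrArg Subtype.val ha
    simpa using this
  · intro a ha
    have h3 : (2 : ℂ) * a.1 = 1 := congrArg Subtype.val ha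
    exact two_not_unit q L hL hfrm a.1 a.2 h3

variable {A : Type} [CommRing A] {q : A} {L : List (ℤ × ℤ)}

/-- The residue ring modulo two. -/
abbrev Rq (A : Type) [CommRing A] : Type := A ⧸ (Ideal.span {((2 : ℕ) : A)})

theorem Good.charP (h : Good A q L) : CharP (Rq A) 2 := by
  have : Fact (Nat.Prime 2) := ⟨Nat.prime_two⟩
  apply CharP.quotient A 2
  intro hu
  obtain ⟨b, hb⟩ := hu.exists_right_inv
  exact h.nu b (by simpa using hb)

theorem mk_eq_zero_iff (a : A) : (Ideal.Quotient.mk (Ideal.span {((2 : ℕ) : A)})) a = 0 ↔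
    (2 : A) ∣ a := by
  rw [Ideal.Quotient.eq_zero_iff_mem, Ideal.mem_span_singleton]
  simp

theorem Good.vst_eq (h : Good A q L) {R : Type*} [CommRing R] [CharP R 2] (φ : A →+* R) :
    (vst (φ q) L).2.1 = (vst (φ q) L).2.2 := by
  have h2 : (2 : R) = 0 := CharTwo.two_eq_zero
  rw [vst_map]
  ext i
  fin_cases i
  · obtain ⟨c, hc⟩ := h.par1
    have := congrArg φ hc
    rw [map_sub, map_mul, map_ofNat, h2, zero_mul, sub_eq_zero] at this
    exact this
  · obtain ⟨c, hc⟩ := h.par2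
    have := congrArg φ hc
    rw [map_sub, map_mul, map_ofNat, h2, zero_mul, sub_eq_zero] at this
    exact this

/-- If a power of Frobenius fixes `q` then it is the identity. -/
theorem Good.frob (h : Good A q L) {R : Type*} [CommRing R] [CharP R 2] (φ : A →+* R) (k : ℕ)
    (hk : φ q ^ 2 ^ k = φ q) (a : A) : φ a ^ 2 ^ k = φ a := by
  have : Fact (Nat.Prime 2) := ⟨Nat.prime_two⟩
  have ha : a ∈ Algebra.adjoin ℤ ({q} : Set A) := by rw [h.gen]; trivial
  have key : ∀ x : R, iterateFrobenius R 2 k x = x ^ 2 ^ k := fun x => iterateFrobenius_def 2 k x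
  induction ha using Algebra.adjoin_induction with
  | mem x hx =>
    rw [Set.mem_singleton_iff.mp hx]
    exact hk
  | algebraMap r =>
    rw [← key]
    simp
  | add x y _ _ hx hy =>
    rw [← key, map_add, map_add, key, key, hx, hy]
  | mul x y _ _ hx hy =>
    rw [map_mul, mul_pow, hx, hy]

/-- `A/2A` is reduced. -/
theorem Good.reduced (h : Good A q L) (z : A) (hz : (2 : A) ∣ z ^ 2) : (2 : A) ∣ z := by
  have := h.charP
  set φ := Ideal.Quotient.mk (Ideal.span {((2 : ℕ) : A)}) with hφ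
  obtain ⟨k, hk1, hk⟩ := exists_frob (φ q) L (h.vst_eq φ)
  rw [← mk_eq_zero_iff] at hz ⊢
  rw [← hφ] at hz ⊢
  rw [← h.frob φ k hk z]
  obtain ⟨j, rfl⟩ : ∃ j, k = j + 1 := ⟨k - 1, by omega⟩
  rw [pow_succ', pow_mul, ← map_pow, hz]
  exact zero_pow (by positivity)

/-- `-1` is not a square modulo four. -/
theorem Good.not_sq (h : Good A q L) (z w : A) : z ^ 2 ≠ -1 + 4 * w := by
  intro hz
  obtain ⟨y, hy⟩ := h.reduced (z - 1) ⟨2 * w - z, by linear_combination hz⟩
  have h1 : z = 1 + 2 * y := by linear_combination hy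
  rw [h1] at hz
  have h2 : 1 + 2 * (y + y ^ 2 - w) = 0 := by
    apply h.tf
    linear_combination hz
  exact h.nu (w - y - y ^ 2) (by linear_combination -h2)

theorem Good.trace_ne (h : Good A q L) (r : A) : 2 + r ^ 2 ≠ -2 := by
  intro hr
  obtain ⟨z, hz⟩ := h.reduced r ⟨-2, by linear_combination hr⟩
  rw [hz] at hr
  have h2 : z ^ 2 + 1 = 0 := by
    apply h.tf
    apply h.tf
    linear_combination hr
  exact h.not_sq z 0 (by linear_combination h2)

theorem nb_dich (r : A) (b : ℕ) : (Even b ∧ ∃ t : A, nb (2 + r ^ 2) b = (r ^ 2 + 4) * t ^ 2) ∨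
    (¬ Even b ∧ ∃ t : A, nb (2 + r ^ 2) b = t ^ 2) := by
  rcases Nat.even_or_odd b with hb | hb
  · left
    refine ⟨hb, ?_⟩
    obtain ⟨k, rfl⟩ := hb
    obtain ⟨t, ht⟩ := nb_even r k
    exact ⟨t, by rw [← two_mul]; exact ht⟩
  · right
    refine ⟨by simpa using hb, ?_⟩
    obtain ⟨k, rfl⟩ := hb
    exact nb_odd r k

/-- The top coefficient is never `-1`. -/
theorem Good.lead_ne_neg_one (h : Good A q L) : lead q L ≠ -1 := by
  have key : ∀ l : List (ℤ × A), ∃ z w : A,
      (l.map fun br => nb (2 + br.2 ^ 2) br.1.natAbs).prod = z ^ 2 + 4 * w := by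
    intro l
    induction l with
    | nil => exact ⟨1, 0, by simp⟩
    | cons p l ih =>
      obtain ⟨z, w, hzw⟩ := ih
      rw [List.map_cons, List.prod_cons, hzw]
      rcases nb_dich p.2 p.1.natAbs with ⟨_, t, ht⟩ | ⟨_, t, ht⟩
      · rw [ht]
        exact ⟨p.2 * t * z, p.2 ^ 2 * t ^ 2 * w + t ^ 2 * (z ^ 2 + 4 * w), by ring⟩
      · rw [ht]
        exact ⟨t * z, t ^ 2 * w, by ring⟩
  obtain ⟨z, w, hzw⟩ := key (bands q L)
  intro hl
  rw [lead] at hl
  exact h.not_sq z (-w) (by linear_combination hl - hzw)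

theorem bands_fst (q : A) (L : List (ℤ × ℤ)) : (bands q L).map Prod.fst = twists L := by
  induction L with
  | nil => rfl
  | cons p L ih => simp [bands, twists, ih]

theorem sum_add_pow {R : Type*} [CommRing R] [CharP R 2] (x y : R) (m : ℕ) :
    ∑ i ∈ Finset.range m, (x + y) ^ 2 ^ i =
      ∑ i ∈ Finset.range m, x ^ 2 ^ i + ∑ i ∈ Finset.range m, y ^ 2 ^ i := by
  have : Fact (Nat.Prime 2) := ⟨Nat.prime_two⟩
  rw [← Finset.sum_add_distrib]
  apply Finset.sum_congr rfl
  intro i _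
  exact add_pow_char_pow x y 2 i

theorem telescope {R : Type*} [CommRing R] [CharP R 2] (x : R) (m : ℕ) :
    ∑ i ∈ Finset.range m, (x ^ 2 + x) ^ 2 ^ i = x ^ 2 ^ m + x := by
  have : Fact (Nat.Prime 2) := ⟨Nat.prime_two⟩
  have h2 : (2 : R) = 0 := CharTwo.two_eq_zero
  induction m with
  | zero =>
    simp only [Finset.range_zero, Finset.sum_empty, pow_zero, pow_one]
    linear_combination (-x) * h2
  | succ m ih =>
    rw [Finset.sum_range_succ, ih, add_pow_char_pow, ← pow_mul, ← pow_succ']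
    linear_combination (x ^ 2 ^ m) * h2

/-- The structure of the product modulo sixteen. -/
theorem lead_struct {R : Type*} [CommRing R] [CharP R 2] (φ : A →+* R) (m : ℕ)
    (l : List (ℤ × A))
    (hl : ∀ p ∈ l, ∀ c : R, c * φ p.2 ^ 2 = 1 → ∑ i ∈ Finset.range m, c ^ 2 ^ i = 1) :
    ∃ Y e0 e1 w : A, (l.map fun br => nb (2 + br.2 ^ 2) br.1.natAbs).prod =
        Y ^ 2 * (e0 ^ 2 + 4 * e1 + 16 * w) ∧
      ∀ u : R, u * φ e0 ^ 2 = 1 →
        ∑ i ∈ Finset.range m, (u * φ e1) ^ 2 ^ i =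
          (((l.map Prod.fst).countP fun b => Even b : ℕ) : R) := by
  induction l with
  | nil =>
    refine ⟨1, 1, 0, 0, by simp, ?_⟩
    intro u _
    simp
  | cons p l ih =>
    obtain ⟨Y, e0, e1, w, hprod, hsum⟩ := ih fun p' hp' => hl p' (List.mem_cons_of_mem _ hp')
    rw [List.map_cons, List.prod_cons, hprod, List.map_cons, List.countP_cons]
    have hev : Even p.1.natAbs ↔ Even p.1 := Int.natAbs_even
    rcases nb_dich p.2 p.1.natAbs with ⟨he, t, ht⟩ | ⟨he, t, ht⟩
    · rw [ht]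
      refine ⟨t * Y, p.2 * e0, e0 ^ 2 + p.2 ^ 2 * e1, w * p.2 ^ 2 + e1 + 4 * w, by ring, ?_⟩
      intro u hu
      rw [map_mul] at hu
      have h1 := hl p (List.mem_cons_self ..) (u * φ e0 ^ 2) (by linear_combination hu)
      have h2 := hsum (u * φ p.2 ^ 2) (by linear_combination hu)
      have h3 : u * φ (e0 ^ 2 + p.2 ^ 2 * e1) = u * φ e0 ^ 2 + u * φ p.2 ^ 2 * φ e1 := by
        rw [map_add, map_mul, map_pow, map_pow]
        ring
      rw [h3, sum_add_pow, h1, h2]
      have he' : decide (Even p.1) = true := by simpa using hev.mp he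
      rw [if_pos he']
      push_cast
      ring
    · rw [ht]
      refine ⟨t * Y, e0, e1, w, by ring, ?_⟩
      intro u hu
      rw [hsum u hu]
      have he' : ¬ (decide (Even p.1) = true) := by simpa using fun h => he (hev.mpr h)
      rw [if_neg he', add_zero]

theorem trace_inv_SL {R : Type*} [CommRing R] (g : SL(2, R)) : (g⁻¹).1.trace = g.1.trace := by
  rw [Matrix.SpecialLinearGroup.coe_inv, Matrix.adjugate_fin_two, Matrix.trace_fin_two,
    Matrix.trace_fin_two]
  simp [add_comm]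

/-- The Artin–Schreier criterion. -/
theorem Good.lead_ne_one_of_odd (h : Good A q L) (m : ℕ) (hm : (uv L).2 ∣ 2 ^ m + 1)
    (ho : Odd ((twists L).countP fun b => Even b)) : lead q L ≠ 1 := by
  intro hlead
  have := h.charP
  set φ := Ideal.Quotient.mk (Ideal.span {((2 : ℕ) : A)}) with hφ
  have hv := h.vst_eq φ
  have h2R : (2 : Rq A) = 0 := CharTwo.two_eq_zero
  have hmem : ∀ p ∈ bands q L, ∀ c : Rq A, c * φ p.2 ^ 2 = 1 →
      ∑ i ∈ Finset.range m, c ^ 2 ^ i = 1 := by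
    intro p hp c hc
    have h1 : (p.1, φ p.2) ∈ bands (φ q) L := by
      rw [bands_map]
      exact List.mem_map.mpr ⟨p, hp, rfl⟩
    rw [bands_char2] at h1
    obtain ⟨bl, _, hbl⟩ := List.mem_map.mp h1
    have h3 : φ p.2 = (Nmat (φ q) ^ bl.2).1.trace := (congrArg Prod.snd hbl).symm
    rw [h3] at hc
    exact trace_inv_sq (φ q) L hv m hm bl.2 c hc
  obtain ⟨Y, e0, e1, w, hprod, hsum⟩ := lead_struct φ m (bands q L) hmem
  rw [lead] at hlead
  rw [hlead] at hprod
  obtain ⟨y, hy⟩ := h.reduced (Y * e0 - 1)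
    ⟨1 - Y * e0 - 2 * (Y ^ 2 * (e1 + 4 * w)), by linear_combination -hprod⟩
  have hz : Y * e0 = 1 + 2 * y := by linear_combination hy
  have h4 : y + y ^ 2 + Y ^ 2 * e1 + 4 * (Y ^ 2 * w) = 0 := by
    apply h.tf
    apply h.tf
    have : (Y * e0) ^ 2 = (1 + 2 * y) ^ 2 := by rw [hz]
    linear_combination -this - hprod
  have h5 : φ Y ^ 2 * φ e1 = φ y ^ 2 + φ y := by
    have := congrArg φ h4
    rw [map_add, map_add, map_add, map_mul, map_mul, map_pow, map_pow, map_zero] at this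
    have h40 : φ (4 : A) = 0 := by
      rw [hφ, mk_eq_zero_iff]
      exact ⟨2, by norm_num⟩
    rw [h40] at this
    linear_combination this - (φ y ^ 2 + φ y) * h2R
  have h6 : φ Y ^ 2 * φ e0 ^ 2 = 1 := by
    have := congrArg φ hz
    rw [map_mul, map_add, map_mul, map_one, map_ofNat, h2R, zero_mul, add_zero] at this
    rw [← mul_pow, this, one_pow]
  have h7 := hsum (φ Y ^ 2) h6
  rw [h5, telescope, bands_fst] at h7
  have hN : φ q ^ 2 ^ m = φ q := by
    have h8 := trace_two_pow (φ q) 1 m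
    rw [zpow_one, one_mul] at h8
    have htr : (Nmat (φ q)).1.trace = φ q := by
      simp [Nmat, Matrix.trace_fin_two]
    rw [htr] at h8
    rw [h8]
    have h9 := Nmat_pow (φ q) L hv
    obtain ⟨d, hd⟩ := hm
    have h10 : Nmat (φ q) ^ ((2 : ℤ) ^ m + 1) = 1 := by
      rw [hd, _root_.zpow_mul, h9, _root_.one_zpow]
    have h11 : Nmat (φ q) ^ ((2 : ℤ) ^ m) = (Nmat (φ q))⁻¹ := by
      rw [_root_.zpow_add_one] at h10
      exact eq_inv_of_mul_eq_one_left h10
    rw [h11, trace_inv_SL, htr]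
  rw [h.frob φ m hN y] at h7
  have h12 : ((((twists L).countP fun b => Even b : ℕ)) : Rq A) = 1 := by
    obtain ⟨j, hj⟩ := ho
    rw [hj]
    push_cast
    linear_combination (j : Rq A) * h2R
  rw [h12] at h7
  have h13 : (1 : Rq A) = 0 := by
    rw [← h7]
    linear_combination (φ y) * h2R
  have : Nontrivial (Rq A) := CharP.nontrivial_of_char_ne_one (R := Rq A) (v := 2) (by norm_num)
  exact one_ne_zero h13

/-- The trace of a matrix in `SL(2)` with an eigenvalue. -/
theorem trace_of_eigen {F : Type*} [Field F] (g : SL(2, F)) (l : F) (hl : l ≠ 0)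
    (v : Fin 2 → F) (hv : v ≠ 0) (h : g.1.mulVec v = l • v) : g.1.trace = l + l⁻¹ := by
  have hd := g.2
  rw [Matrix.det_fin_two] at hd
  have h0 : g.1 0 0 * v 0 + g.1 0 1 * v 1 = l * v 0 := by
    have := congrFun h 0
    rw [mulVec_two] at this
    simpa using this
  have h1 : g.1 1 0 * v 0 + g.1 1 1 * v 1 = l * v 1 := by
    have := congrFun h 1
    rw [mulVec_two] at this
    simpa using this
  have key : (g.1 0 0 - l) * (g.1 1 1 - l) - g.1 0 1 * g.1 1 0 = 0 := by
    by_contra hne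
    apply hv
    have e0 : ((g.1 0 0 - l) * (g.1 1 1 - l) - g.1 0 1 * g.1 1 0) * v 0 = 0 := by
      linear_combination (g.1 1 1 - l) * h0 - g.1 0 1 * h1
    have e1 : ((g.1 0 0 - l) * (g.1 1 1 - l) - g.1 0 1 * g.1 1 0) * v 1 = 0 := by
      linear_combination (g.1 0 0 - l) * h1 - g.1 1 0 * h0
    ext i
    fin_cases i
    · exact (mul_eq_zero.mp e0).resolve_left hne
    · exact (mul_eq_zero.mp e1).resolve_left hne
  rw [Matrix.trace_fin_two]
  field_simp
  linear_combination hd - key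

/-- Eigenvectors of powers. -/
theorem eigen_zpow {F : Type*} [Field F] (g : SL(2, F)) (l : F) (hl : l ≠ 0)
    (v : Fin 2 → F) (h : g.1.mulVec v = l • v) (n : ℤ) :
    (g ^ n).1.mulVec v = (l ^ n) • v := by
  have hinv : (g⁻¹).1.mulVec v = l⁻¹ • v := by
    have h1 : (g⁻¹).1.mulVec (g.1.mulVec v) = v := by
      rw [Matrix.mulVec_mulVec, ← Matrix.SpecialLinearGroup.coe_mul, inv_mul_cancel,
        Matrix.SpecialLinearGroup.coe_one, Matrix.one_mulVec]
    rw [h, Matrix.mulVec_smul] at h1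
    rw [← h1, smul_smul, inv_mul_cancel₀ hl, one_smul, h1]
  induction n using Int.induction_on with
  | zero => simp
  | succ n ih =>
    rw [_root_.zpow_add_one, Matrix.SpecialLinearGroup.coe_mul, ← Matrix.mulVec_mulVec, h,
      Matrix.mulVec_smul, ih, smul_smul, zpow_add_one₀ hl, mul_comm]
  | pred n ih =>
    rw [_root_.zpow_sub_one, Matrix.SpecialLinearGroup.coe_mul, ← Matrix.mulVec_mulVec, hinv,
      Matrix.mulVec_smul, ih, smul_smul, zpow_sub_one₀ hl, mul_comm]

/-- The criterion modulo two. -/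
theorem Good.lead_ne_one_of_crit (h : Good A q L)
    (hc : ∀ (F : Type) [Field F] [CharP F 2] (z : F), z ^ (uv L).2 = 1 → z ≠ 1 →
      ((bandsZ L).map fun bl => (∑ i ∈ Finset.range bl.1.natAbs, z ^ (bl.2 * (i : ℤ))) *
        ∑ i ∈ Finset.range bl.1.natAbs, z ^ (-(bl.2 * (i : ℤ)))).prod ≠ 1) : lead q L ≠ 1 := by
  intro hlead
  have := h.charP
  have : Nontrivial (Rq A) := CharP.nontrivial_of_char_ne_one (R := Rq A) (v := 2) (by norm_num)
  obtain ⟨M, hM⟩ := Ideal.exists_maximal (Rq A)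
  let _ : Field (Rq A ⧸ M) := Ideal.Quotient.field M
  let F : Type := AlgebraicClosure (Rq A ⧸ M)
  let ψ : Rq A →+* F := (algebraMap (Rq A ⧸ M) F).comp (Ideal.Quotient.mk M)
  have hF2 : (2 : F) = 0 := by
    have h2R : (2 : Rq A) = 0 := CharTwo.two_eq_zero
    have := congrArg ψ h2R
    rwa [map_ofNat, map_zero] at this
  have : CharP F 2 := CharTwo.of_one_ne_zero_of_two_eq_zero one_ne_zero hF2
  let φ : A →+* F := ψ.comp (Ideal.Quotient.mk (Ideal.span {((2 : ℕ) : A)}))
  have hv := h.vst_eq φ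
  have hN := Nmat_pow (φ q) L hv
  obtain ⟨μ, hμ⟩ := IsAlgClosed.exists_root
    (Polynomial.C (1 : F) * Polynomial.X ^ 2 + Polynomial.C (φ q) * Polynomial.X +
      Polynomial.C 1) (by
      rw [Polynomial.degree_quadratic one_ne_zero]
      norm_num)
  have hμ2 : μ ^ 2 + φ q * μ + 1 = 0 := by
    simpa [Polynomial.IsRoot] using hμ
  have hμ0 : μ ≠ 0 := by
    rintro rfl
    simp at hμ2
  have hv0 : (![μ, 1] : Fin 2 → F) ≠ 0 := by
    intro h0
    have := congrFun h0 1
    simp at this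
  have heig : (Nmat (φ q)).1.mulVec ![μ, 1] = μ • ![μ, 1] := by
    rw [mulVec_two]
    ext i
    fin_cases i
    · simp [Nmat]
      linear_combination hμ2 - μ ^ 2 * hF2
    · simp [Nmat]
  have hpow := eigen_zpow (Nmat (φ q)) μ hμ0 _ heig
  have htr : ∀ l : ℤ, (Nmat (φ q) ^ l).1.trace = μ ^ l + (μ ^ l)⁻¹ := fun l =>
    trace_of_eigen _ _ (zpow_ne_zero l hμ0) _ hv0 (hpow l)
  have hμn : μ ^ (uv L).2 = 1 := by
    have h1 := hpow (uv L).2
    rw [hN] at h1
    have h2 := congrFun h1 1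
    simp at h2
    exact h2.symm
  have hμ1 : μ ≠ 1 := by
    intro h1
    have hq0 : φ q = 0 := by
      rw [h1] at hμ2
      linear_combination hμ2 - hF2
    have hsq : Nmat (φ q) ^ (2 : ℤ) = 1 := by
      rw [hq0, zpow_ofNat, pow_two]
      apply Subtype.ext
      rw [Matrix.SpecialLinearGroup.coe_mul]
      ext i j
      fin_cases i <;> fin_cases j <;> simp [Nmat, Matrix.mul_apply, Fin.sum_univ_two]
    obtain ⟨j, hj⟩ := uv_odd L
    rw [hj, _root_.zpow_add, _root_.zpow_mul, hsq, _root_.one_zpow, one_mul,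
      _root_.zpow_one] at hN
    have := congrArg (fun g : SL(2, F) => g.1 0 1) hN
    simp [Nmat] at this
  have hz1 : (μ ^ 2) ^ (uv L).2 = 1 := by
    rw [← zpow_natCast, ← _root_.zpow_mul, mul_comm, _root_.zpow_mul, hμn, _root_.one_zpow]
  have hz2 : μ ^ 2 ≠ 1 := by
    intro h1
    apply hμ1
    have : (μ - 1) ^ 2 = 0 := by linear_combination h1 - (μ - 1) * hF2
    have := pow_eq_zero_iff (two_ne_zero) |>.mp this
    exact sub_eq_zero.mp this
  apply hc F (μ ^ 2) hz1 hz2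
  have h1 : φ (lead q L) = 1 := by rw [hlead, map_one]
  rw [lead_map, lead, bands_char2, List.map_map] at h1
  rw [← h1]
  congr 1
  apply List.map_congr_left
  intro bl _
  simp only [Function.comp_apply]
  rw [htr]
  have hzw : (μ ^ 2) ^ bl.2 * ((μ ^ 2) ^ bl.2)⁻¹ = 1 :=
    mul_inv_cancel₀ (zpow_ne_zero _ (pow_ne_zero _ hμ0))
  have h3 : (2 : F) + (μ ^ bl.2 + (μ ^ bl.2)⁻¹) ^ 2 =
      (μ ^ 2) ^ bl.2 + ((μ ^ 2) ^ bl.2)⁻¹ := by
    have h4 : (μ ^ 2) ^ bl.2 = (μ ^ bl.2) ^ 2 := by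
      rw [← zpow_natCast, ← zpow_natCast, ← _root_.zpow_mul, ← _root_.zpow_mul, mul_comm]
    have h5 : μ ^ bl.2 * (μ ^ bl.2)⁻¹ = 1 := mul_inv_cancel₀ (zpow_ne_zero _ hμ0)
    rw [h4, ← inv_pow]
    linear_combination (2 : F) * h5 + 2 * hF2
  rw [h3, nb_eigen _ _ hzw]
  congr 1
  · apply Finset.sum_congr rfl
    intro i _
    rw [_root_.zpow_mul, zpow_natCast]
  · apply Finset.sum_congr rfl
    intro i _
    rw [_root_.zpow_neg, _root_.zpow_mul, zpow_natCast, inv_pow]

end Pool.Agent.W_MP_5f5bee_gt
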