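import Mathlib
import Pool.Agent.W_MP_5f5bee_gt.Vec

/-!
Normal form of a pair of non-commuting parabolic matrices, and conjugation invariance.
-/

open scoped MatrixGroups
open Matrix

namespace Pool.Agent.W_MP_5f5bee_gt

theorem exists_par_one (X : SL(2, ℂ)) (hX : X.1.trace = 2) :
    ∃ u : Fin 2 → ℂ, X = par 1 u := by
  have hdet := X.2
  rw [Matrix.det_fin_two] at hdet
  rw [Matrix.trace_fin_two] at hX
  obtain ⟨b, hb⟩ := IsAlgClosed.exists_pow_nat_eq (X.1 0 1) (n := 2) (by norm_num)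
  obtain ⟨c, hc⟩ := IsAlgClosed.exists_pow_nat_eq (-(X.1 1 0)) (n := 2) (by norm_num)
  have hs : (b * c) ^ 2 = (1 - X.1 0 0) ^ 2 := by
    rw [mul_pow, hb, hc]
    linear_combination hdet - X.1 0 0 * hX
  rcases sq_eq_sq_iff_eq_or_eq_neg.mp hs with h | h
  · refine ⟨![b, c], ?_⟩
    apply Subtype.ext
    rw [par_coe]
    ext i j
    fin_cases i <;> fin_cases j
    · simp [h]
    · simp [hb]
    · simp [hc]
    · simp [h]; linear_combination hX
  · refine ⟨![b, -c], ?_⟩
    apply Subtype.ext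
    rw [par_coe]
    ext i j
    fin_cases i <;> fin_cases j
    · simp [h]
    · simp [hb]
    · simp [hc]
    · simp [h]; linear_combination hX

theorem par_comm_of_frm_eq_zero (u z : Fin 2 → ℂ) (h : u 0 * z 1 - u 1 * z 0 = 0) :
    par 1 u * par 1 z = par 1 z * par 1 u := by
  apply Subtype.ext
  rw [Matrix.SpecialLinearGroup.coe_mul, Matrix.SpecialLinearGroup.coe_mul, par_coe, par_coe]
  ext i j
  fin_cases i <;> fin_cases j
  · simp [Matrix.mul_apply, Fin.sum_univ_two]
    linear_combination (-(u 0 * z 1 + u 1 * z 0)) * h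
  · simp [Matrix.mul_apply, Fin.sum_univ_two]
    linear_combination (2 * u 0 * z 0) * h
  · simp [Matrix.mul_apply, Fin.sum_univ_two]
    linear_combination (-(2 * u 1 * z 1)) * h
  · simp [Matrix.mul_apply, Fin.sum_univ_two]
    linear_combination (u 0 * z 1 + u 1 * z 0) * h

theorem exists_par (X Y : SL(2, ℂ)) (hX : X.1.trace = 2) (hY : Y.1.trace = 2)
    (hXY : X * Y ≠ Y * X) :
    ∃ (g : SL(2, ℂ)) (q : ℂ), q ≠ 0 ∧ X = g * par q ![1, 0] * g⁻¹ ∧
      Y = g * par q ![0, 1] * g⁻¹ := by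
  obtain ⟨u, rfl⟩ := exists_par_one X hX
  obtain ⟨z, rfl⟩ := exists_par_one Y hY
  have hD : u 0 * z 1 - u 1 * z 0 ≠ 0 := fun h => hXY (par_comm_of_frm_eq_zero u z h)
  obtain ⟨k, hk⟩ := IsAlgClosed.exists_pow_nat_eq (u 0 * z 1 - u 1 * z 0) (n := 2) (by norm_num)
  have hk0 : k ≠ 0 := by
    rintro rfl
    apply hD
    rw [← hk]; ring
  have hkk : k * k⁻¹ = 1 := mul_inv_cancel₀ hk0
  have hdet : (!![k⁻¹ * u 0, k⁻¹ * z 0; k⁻¹ * u 1, k⁻¹ * z 1] : Matrix (Fin 2) (Fin 2) ℂ).det
      = 1 := by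
    rw [Matrix.det_fin_two_of]
    have : k⁻¹ * u 0 * (k⁻¹ * z 1) - k⁻¹ * z 0 * (k⁻¹ * u 1) = (k * k⁻¹) ^ 2 := by
      rw [mul_pow, hk]; ring
    rw [this, hkk, one_pow]
  refine ⟨⟨_, hdet⟩, k ^ 2, pow_ne_zero _ hk0, ?_, ?_⟩
  · rw [← par_mulVec]
    apply Subtype.ext
    rw [par_coe, par_coe, mulVec_two]
    ext i j
    fin_cases i <;> fin_cases j <;> simp <;> field_simp
  · rw [← par_mulVec]
    apply Subtype.ext
    rw [par_coe, par_coe, mulVec_two]
    ext i j
    fin_cases i <;> fin_cases j <;> simp <;> field_simp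

theorem strands_map {G H : Type*} [Group G] [Group H] (f : G →* H) (x y : G)
    (L : List (ℤ × ℤ)) :
    strands (f x) (f y) L =
      (f (strands x y L).1, f (strands x y L).2.1, f (strands x y L).2.2) := by
  induction L with
  | nil => rfl
  | cons p L ih =>
    rw [strands, strands, ih]
    simp only [twistAB, twistBC, map_mul, map_inv, map_zpow]

theorem strands_conj_eq {G : Type*} [Group G] (g x y : G) (L : List (ℤ × ℤ)) :
    strands (g * x * g⁻¹) (g * y * g⁻¹) L =
      (g * (strands x y L).1 * g⁻¹, g * (strands x y L).2.1 * g⁻¹,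
        g * (strands x y L).2.2 * g⁻¹) := by
  have := strands_map (MulAut.conj g).toMonoidHom x y L
  simpa [MulAut.conj_apply] using this

theorem trace_conj_SL (g h : SL(2, ℂ)) : (g * h * g⁻¹).1.trace = h.1.trace := by
  rw [Matrix.SpecialLinearGroup.coe_mul, Matrix.trace_mul_comm,
    ← Matrix.SpecialLinearGroup.coe_mul]
  congr 2
  group

theorem leadM_conj (g X Y : SL(2, ℂ)) (L : List (ℤ × ℤ)) :
    leadM (g * X * g⁻¹) (g * Y * g⁻¹) L = leadM X Y L := by
  induction L with
  | nil => rfl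
  | cons p L ih =>
    rw [leadM, leadM, ih, strands_conj_eq]
    have e1 : (twistBC p.1 (g * (strands X Y L).1 * g⁻¹, g * (strands X Y L).2.1 * g⁻¹,
        g * (strands X Y L).2.2 * g⁻¹)) =
        (g * (twistBC p.1 (strands X Y L)).1 * g⁻¹, g * (twistBC p.1 (strands X Y L)).2.1 * g⁻¹,
          g * (twistBC p.1 (strands X Y L)).2.2 * g⁻¹) := by
      have h : ∀ a b c : SL(2, ℂ), (MulAut.conj g) a = g * a * g⁻¹ := fun a _ _ =>
        MulAut.conj_apply g a
      simp only [twistBC, ← MulAut.conj_apply, ← map_inv, ← map_mul, ← map_zpow]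
    rw [e1]
    have h1 : ∀ a b : SL(2, ℂ), ((g * a * g⁻¹) * (g * b * g⁻¹)⁻¹).1.trace = (a * b⁻¹).1.trace := by
      intro a b
      rw [← trace_conj_SL g (a * b⁻¹)]
      congr 2
      group
    have h2 : ∀ a b : SL(2, ℂ), ((g * a * g⁻¹)⁻¹ * (g * b * g⁻¹)).1.trace = (a⁻¹ * b).1.trace := by
      intro a b
      rw [← trace_conj_SL g (a⁻¹ * b)]
      congr 2
      group
    rw [h1, h2]

/-- Vectors with the same parabolic matrix agree up to sign. -/
theorem par_injective (q : ℂ) (hq : q ≠ 0) (u z : Fin 2 → ℂ) (h : par q u = par q z) :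
    u = z ∨ u = -z := by
  have h' : (par q u).1 = (par q z).1 := by rw [h]
  rw [par_coe, par_coe] at h'
  have h00 := congrFun (congrFun h' 0) 0
  have h01 := congrFun (congrFun h' 0) 1
  have h10 := congrFun (congrFun h' 1) 0
  simp at h00 h01 h10
  have e0 : u 0 ^ 2 = z 0 ^ 2 := by
    rcases h01 with h | h
    · exact h
    · exact absurd h hq
  have e1 : u 1 ^ 2 = z 1 ^ 2 := by
    rcases h10 with h | h
    · exact h
    · exact absurd h hq
  have e01 : u 0 * u 1 = z 0 * z 1 := by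
    rcases h00 with h | h
    · exact h
    · exact absurd h hq
  rcases sq_eq_sq_iff_eq_or_eq_neg.mp e0 with a | a <;>
    rcases sq_eq_sq_iff_eq_or_eq_neg.mp e1 with b | b
  · left; ext i; fin_cases i <;> simp [a, b]
  · rw [a, b] at e01
    have : z 0 * z 1 = 0 := by linear_combination (-(1:ℂ) / 2) * e01
    rcases mul_eq_zero.mp this with c | c
    · right; ext i; fin_cases i <;> simp [a, b, c]
    · left; ext i; fin_cases i <;> simp [a, b, c]
  · rw [a, b] at e01
    have : z 0 * z 1 = 0 := by linear_combination (-(1:ℂ) / 2) * e01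
    rcases mul_eq_zero.mp this with c | c
    · left; ext i; fin_cases i <;> simp [a, b, c]
    · right; ext i; fin_cases i <;> simp [a, b, c]
  · right; ext i; fin_cases i <;> simp [a, b]

theorem isConj_conj {G : Type*} [Group G] (w a : G) : IsConj a (w * a * w⁻¹) :=
  isConj_iff.mpr ⟨w, rfl⟩

/-- The last meridians are conjugate to the first ones. -/
theorem strands_conj {G : Type*} [Group G] (x y : G) (L : List (ℤ × ℤ)) :
    IsConj x (strands x y L).2.1 ∧ IsConj y (strands x y L).2.2 := by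
  induction L with
  | nil => exact ⟨IsConj.refl _, IsConj.refl _⟩
  | cons p L ih =>
    rw [strands]
    simp only [twistAB, twistBC]
    exact ⟨(ih.1.trans (isConj_conj _ _)).trans (isConj_conj _ _), ih.2.trans (isConj_conj _ _)⟩

end Pool.Agent.W_MP_5f5bee_gt
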