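import Mathlib
import Pool.Agent.W_MP_5f5bee_gt.Vec

/-!
Real places: over the reals the product of the `nb` is at least the product of the squares of the
numbers of twists; and `q` lies in the trace field.
-/

open scoped MatrixGroups
open Matrix

namespace Pool.Agent.W_MP_5f5bee_gt

theorem nb_real (y : ℝ) (hy : 2 ≤ y) (b : ℕ) :
    (b : ℝ) ^ 2 ≤ nb y b ∧ 2 * (b : ℝ) + 1 ≤ nb y (b + 1) - nb y b := by
  induction b with
  | zero => simp [nb]
  | succ b ih =>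
    obtain ⟨h1, h2⟩ := ih
    have h3 : ((b + 1 : ℕ) : ℝ) ^ 2 ≤ nb y (b + 1) := by
      push_cast
      nlinarith
    refine ⟨h3, ?_⟩
    have h4 : nb y (b + 1 + 1) = y * nb y (b + 1) - nb y b + 2 := rfl
    have h5 : 0 ≤ nb y (b + 1) := le_trans (by positivity) h3
    rw [h4]
    push_cast
    nlinarith

theorem one_lt_lead_real (q : ℝ) (L : List (ℤ × ℤ))
    (hne : ∀ br ∈ bands q L, br.1 ≠ 0) (hex : ∃ br ∈ bands q L, 2 ≤ br.1.natAbs) :
    1 < lead q L := by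
  rw [lead]
  generalize bands q L = l at *
  have h1 : ∀ br : ℤ × ℝ, br.1 ≠ 0 → 1 ≤ nb (2 + br.2 ^ 2) br.1.natAbs := by
    intro br hbr
    have h2 := (nb_real (2 + br.2 ^ 2) (by nlinarith [sq_nonneg br.2]) br.1.natAbs).1
    have h3 : (1 : ℝ) ≤ br.1.natAbs := by
      have : 1 ≤ br.1.natAbs := by omega
      exact_mod_cast this
    nlinarith
  have h2 : ∀ br : ℤ × ℝ, 2 ≤ br.1.natAbs → 1 < nb (2 + br.2 ^ 2) br.1.natAbs := by
    intro br hbr
    have h2 := (nb_real (2 + br.2 ^ 2) (by nlinarith [sq_nonneg br.2]) br.1.natAbs).1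
    have h3 : (2 : ℝ) ≤ br.1.natAbs := by exact_mod_cast hbr
    nlinarith
  have h3 : ∀ l : List (ℤ × ℝ), (∀ br ∈ l, br.1 ≠ 0) →
      1 ≤ (l.map fun br => nb (2 + br.2 ^ 2) br.1.natAbs).prod := by
    intro l
    induction l with
    | nil => intro _; simp
    | cons a l ih =>
      intro hl
      rw [List.map_cons, List.prod_cons]
      have h4 := h1 a (hl a List.mem_cons_self)
      have h5 := ih fun br hbr => hl br (List.mem_cons_of_mem _ hbr)
      nlinarith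
  induction l with
  | nil => obtain ⟨br, hbr, -⟩ := hex; simp at hbr
  | cons a l ih =>
    rw [List.map_cons, List.prod_cons]
    obtain ⟨br, hbr, hb⟩ := hex
    rcases List.mem_cons.mp hbr with rfl | hbr
    · have h4 := h2 br hb
      have h5 := h3 l fun br hbr => hne br (List.mem_cons_of_mem _ hbr)
      nlinarith
    · have h4 := h1 a (hne a List.mem_cons_self)
      have h5 := ih (fun br hbr => hne br (List.mem_cons_of_mem _ hbr)) ⟨br, hbr, hb⟩
      nlinarith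

/-- The group of matrices with diagonal entries in `ℤ[q²]` and off-diagonal entries in
`q ℤ[q²]`. -/
def grp (q : ℂ) : Subgroup SL(2, ℂ) where
  carrier := {g | g.1 0 0 ∈ Algebra.adjoin ℤ {q ^ 2} ∧ g.1 1 1 ∈ Algebra.adjoin ℤ {q ^ 2} ∧
    (∃ b ∈ Algebra.adjoin ℤ {q ^ 2}, g.1 0 1 = q * b) ∧
    ∃ c ∈ Algebra.adjoin ℤ {q ^ 2}, g.1 1 0 = q * c}
  one_mem' := by
    refine ⟨?_, ?_, ⟨0, zero_mem _, ?_⟩, ⟨0, zero_mem _, ?_⟩⟩
    · simp
    · simp
    · simp
    · simp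
  mul_mem' := by
    rintro g h ⟨g1, g2, ⟨gb, g3, g4⟩, ⟨gc, g5, g6⟩⟩ ⟨h1, h2, ⟨hb, h3, h4⟩, ⟨hc, h5, h6⟩⟩
    have hq : q ^ 2 ∈ Algebra.adjoin ℤ {q ^ 2} := Algebra.subset_adjoin rfl
    refine ⟨?_, ?_, ⟨g.1 0 0 * hb + gb * h.1 1 1, ?_, ?_⟩, ⟨gc * h.1 0 0 + g.1 1 1 * hc, ?_, ?_⟩⟩
    · have e : (g * h).1 0 0 = g.1 0 0 * h.1 0 0 + q ^ 2 * (gb * hc) := by
        rw [Matrix.SpecialLinearGroup.coe_mul, Matrix.mul_apply, Fin.sum_univ_two, g4, h6]; ring
      rw [e]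
      exact add_mem (mul_mem g1 h1) (mul_mem hq (mul_mem g3 h5))
    · have e : (g * h).1 1 1 = q ^ 2 * (gc * hb) + g.1 1 1 * h.1 1 1 := by
        rw [Matrix.SpecialLinearGroup.coe_mul, Matrix.mul_apply, Fin.sum_univ_two, g6, h4]; ring
      rw [e]
      exact add_mem (mul_mem hq (mul_mem g5 h3)) (mul_mem g2 h2)
    · exact add_mem (mul_mem g1 h3) (mul_mem g3 h2)
    · rw [Matrix.SpecialLinearGroup.coe_mul, Matrix.mul_apply, Fin.sum_univ_two, g4, h4]; ring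
    · exact add_mem (mul_mem g5 h1) (mul_mem g2 h5)
    · rw [Matrix.SpecialLinearGroup.coe_mul, Matrix.mul_apply, Fin.sum_univ_two, g6, h6]; ring
  inv_mem' := by
    rintro g ⟨g1, g2, ⟨gb, g3, g4⟩, ⟨gc, g5, g6⟩⟩
    have e : (g⁻¹).1 = !![g.1 1 1, -g.1 0 1; -g.1 1 0, g.1 0 0] := by
      rw [Matrix.SpecialLinearGroup.coe_inv, Matrix.adjugate_fin_two]
    refine ⟨?_, ?_, ⟨-gb, neg_mem g3, ?_⟩, ⟨-gc, neg_mem g5, ?_⟩⟩
    · rw [e]; exact g2
    · rw [e]; exact g1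
    · rw [e]
      change -g.1 0 1 = _
      rw [g4]; ring
    · rw [e]
      change -g.1 1 0 = _
      rw [g6]; ring

theorem par_e1_mem (q : ℂ) : par q ![1, 0] ∈ grp q := by
  refine ⟨?_, ?_, ⟨1, one_mem _, ?_⟩, ⟨0, zero_mem _, ?_⟩⟩ <;> simp [par_coe]

theorem par_e2_mem (q : ℂ) : par q ![0, 1] ∈ grp q := by
  refine ⟨?_, ?_, ⟨0, zero_mem _, ?_⟩, ⟨-1, neg_mem (one_mem _), ?_⟩⟩ <;> simp [par_coe]

theorem vst_grp (q : ℂ) (L : List (ℤ × ℤ)) : ∃ g1 ∈ grp q, ∃ g2 ∈ grp q, ∃ g3 ∈ grp q,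
    (vst q L).1 = g1.1.mulVec ![1, 0] ∧ (vst q L).2.1 = g2.1.mulVec ![1, 0] ∧
      (vst q L).2.2 = g3.1.mulVec ![0, 1] := by
  induction L with
  | nil => exact ⟨1, one_mem _, 1, one_mem _, 1, one_mem _, by simp [vst], by simp [vst],
      by simp [vst]⟩
  | cons p L ih =>
    obtain ⟨g1, m1, g2, m2, g3, m3, e1, e2, e3⟩ := ih
    have hpar1 : ∀ g ∈ grp q, par q (g.1.mulVec ![1, 0]) ∈ grp q := by
      intro g hg
      rw [par_mulVec]
      exact mul_mem (mul_mem hg (par_e1_mem q)) (inv_mem hg)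
    have hpar2 : ∀ g ∈ grp q, par q (g.1.mulVec ![0, 1]) ∈ grp q := by
      intro g hg
      rw [par_mulVec]
      exact mul_mem (mul_mem hg (par_e2_mem q)) (inv_mem hg)
    have hH : ((par q (vst q L).2.1)⁻¹ * par q (vst q L).2.2) ^ p.1 ∈ grp q := by
      rw [e2, e3]
      exact zpow_mem (mul_mem (inv_mem (hpar1 g2 m2)) (hpar2 g3 m3)) _
    set H := ((par q (vst q L).2.1)⁻¹ * par q (vst q L).2.2) ^ p.1 with hHdef
    have e2' : (vBC q p.1 (vst q L)).2.1 = (H * g2).1.mulVec ![1, 0] := by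
      rw [Matrix.SpecialLinearGroup.coe_mul, ← Matrix.mulVec_mulVec, ← e2]
      rfl
    have e3' : (vBC q p.1 (vst q L)).2.2 = (H * g3).1.mulVec ![0, 1] := by
      rw [Matrix.SpecialLinearGroup.coe_mul, ← Matrix.mulVec_mulVec, ← e3]
      rfl
    have e1' : (vBC q p.1 (vst q L)).1 = g1.1.mulVec ![1, 0] := e1
    have hG : (par q (vBC q p.1 (vst q L)).1 * (par q (vBC q p.1 (vst q L)).2.1)⁻¹) ^ p.2 ∈
        grp q := by
      rw [e1', e2']
      exact zpow_mem (mul_mem (hpar1 g1 m1) (inv_mem (hpar1 _ (mul_mem hH m2)))) _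
    set G := (par q (vBC q p.1 (vst q L)).1 * (par q (vBC q p.1 (vst q L)).2.1)⁻¹) ^ p.2
      with hGdef
    refine ⟨G * g1, mul_mem hG m1, G * (H * g2), mul_mem hG (mul_mem hH m2), H * g3,
      mul_mem hH m3, ?_, ?_, e3'⟩
    · rw [Matrix.SpecialLinearGroup.coe_mul, ← Matrix.mulVec_mulVec, ← e1']
      rfl
    · rw [Matrix.SpecialLinearGroup.coe_mul G, ← Matrix.mulVec_mulVec, ← e2']
      rfl

/-- `q` lies in `ℤ[q²]`. -/
theorem q_mem (q : ℂ) (L : List (ℤ × ℤ))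
    (h : (vst q L).2.1 = (vst q L).2.2 ∨ (vst q L).2.1 = -(vst q L).2.2) :
    q ∈ Algebra.adjoin ℤ {q ^ 2} := by
  obtain ⟨g1, m1, g2, ⟨a1, a2, ⟨b, b1, b2⟩, ⟨c, c1, c2⟩⟩, g3,
    ⟨a1', a2', ⟨b', b1', b2'⟩, ⟨c', c1', c2'⟩⟩, e1, e2, e3⟩ := vst_grp q L
  obtain ⟨e, he, he2⟩ : ∃ e : ℂ, e ∈ Algebra.adjoin ℤ {q ^ 2} ∧ e * e = 1 ∧
      (vst q L).2.1 = e • (vst q L).2.2 := by
    rcases h with h | h
    · exact ⟨1, one_mem _, by norm_num, by rw [h, one_smul]⟩
    · exact ⟨-1, neg_mem (one_mem _), by norm_num, by rw [h]; simp⟩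
  obtain ⟨he1, hv⟩ := he2
  rw [e2, e3] at hv
  have h0 := congrFun hv 0
  have h1 := congrFun hv 1
  simp only [mulVec_two, Matrix.cons_val_zero, Matrix.cons_val_one, Pi.smul_apply, smul_eq_mul,
    mul_one, mul_zero, add_zero, zero_add] at h0 h1
  have hd := g3.2
  rw [Matrix.det_fin_two] at hd
  rw [b2'] at h0 hd
  rw [c2] at h1
  rw [c2'] at hd
  -- g2 0 0 = e q b', q c = e (g3 1 1)
  have key : q = q ^ 2 * (e * (g3.1 0 0 * c - g2.1 0 0 * c')) := by
    have h2 : g3.1 1 1 = e * (q * c) := by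
      rw [h1, ← mul_assoc, he1, one_mul]
    have h3 : q * b' = e * g2.1 0 0 := by
      rw [h0, ← mul_assoc, he1, one_mul]
    rw [h2] at hd
    have h4 : g3.1 0 0 * (e * (q * c)) - (e * g2.1 0 0) * (q * c') = 1 := by
      rw [← h3]; exact hd
    linear_combination (-q) * h4
  have hmem : q ^ 2 * (e * (g3.1 0 0 * c - g2.1 0 0 * c')) ∈ Algebra.adjoin ℤ {q ^ 2} :=
    mul_mem (Algebra.subset_adjoin rfl) (mul_mem he (sub_mem (mul_mem a1' c1) (mul_mem a1 c1')))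
  rw [← key] at hmem
  exact hmem

/-- The trace field of a representation. -/
noncomputable def traceField {G : Type*} [Group G] (ρ : G →* SL(2, ℂ)) :
    IntermediateField ℚ ℂ :=
  IntermediateField.adjoin ℚ (Set.range fun g => (ρ g).1.trace)

/-- A number field of odd degree has a real embedding. -/
theorem exists_real_of_odd (K : IntermediateField ℚ ℂ) (h : Odd (Module.finrank ℚ K)) :
    Nonempty (K →+* ℝ) := by
  have hpos : 0 < Module.finrank ℚ K := h.pos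
  have hfd : FiniteDimensional ℚ K := Module.finite_of_finrank_pos hpos
  have : NumberField K := { to_charZero := inferInstance, to_finiteDimensional := hfd }
  have h1 := NumberField.InfinitePlace.card_add_two_mul_card_eq_rank K
  have h2 : 0 < NumberField.InfinitePlace.nrRealPlaces K := by
    rw [← h1] at h
    by_contra hcon
    have h3 : NumberField.InfinitePlace.nrRealPlaces K = 0 := by omega
    rw [h3, zero_add] at h
    exact (Nat.not_odd_iff_even.mpr (even_two_mul _)) h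
  classical
  rw [NumberField.InfinitePlace.nrRealPlaces, Fintype.card_pos_iff] at h2
  obtain ⟨⟨w, hw⟩⟩ := h2
  exact ⟨NumberField.InfinitePlace.embedding_of_isReal hw⟩

end Pool.Agent.W_MP_5f5bee_gt
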