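import Mathlib
import Pool.Agent.W_MP_5f5bee_gt.Mod2
import Pool.Agent.W_MP_5f5bee_gt.FoxTop
import Pool.Agent.W_MP_5f5bee_gt.NormForm
import Pool.Agent.W_MP_5f5bee_gt.RealPlace

/-!
The main theorem on twisted Alexander polynomials of 2-bridge knots.
-/

open scoped LaurentPolynomial MatrixGroups
open LaurentPolynomial Matrix

namespace Pool.Agent.W_MP_5f5bee_gt

theorem Top.unique {f : ℂ[T;T⁻¹]} {n m : ℤ} {c d : ℂ} (h : Top f n c) (hc : c ≠ 0)
    (h' : Top f m d) (hd : d ≠ 0) : c = d := by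
  rcases lt_trichotomy n m with hlt | heq | hgt
  · exact absurd (h.2 m hlt) (by rw [h'.1]; exact hd)
  · rw [← h.1, ← h'.1, heq]
  · exact absurd (h'.2 n hgt) (by rw [h.1]; exact hc)

theorem bands_trace (q : ℂ) (f : F2 →* SL(2, ℂ)) (hx : f gx = par q ![1, 0])
    (hy : f gy = par q ![0, 1]) (L : List (ℤ × ℤ)) :
    ∀ br ∈ bands q L, ∃ w : F2, (f w).1.trace = 2 + br.2 ^ 2 := by
  induction L with
  | nil => intro br hbr; simp [bands] at hbr
  | cons p L ih =>
    intro br hbr
    have hs : strands (f gx) (f gy) L = (f (strands gx gy L).1, f (strands gx gy L).2.1,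
      f (strands gx gy L).2.2) := strands_map f gx gy L
    rw [hx, hy, strands_par] at hs
    have h1 : par q (vst q L).1 = f (strands gx gy L).1 := congrArg Prod.fst hs
    have h2 : par q (vst q L).2.1 = f (strands gx gy L).2.1 :=
      congrArg (fun z => z.2.1) hs
    have h3 : par q (vst q L).2.2 = f (strands gx gy L).2.2 :=
      congrArg (fun z => z.2.2) hs
    rw [bands, List.mem_cons, List.mem_cons] at hbr
    rcases hbr with hbr | hbr | hbr
    · refine ⟨(twistBC p.1 (strands gx gy L)).1 * ((twistBC p.1 (strands gx gy L)).2.1)⁻¹, ?_⟩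
      rw [hbr, ← trace_ab]
      simp only [vBC, twistBC, par_mulVec, map_mul, map_inv, map_zpow, h1, h2, h3]
    · refine ⟨(strands gx gy L).2.1⁻¹ * (strands gx gy L).2.2, ?_⟩
      rw [hbr, ← trace_bc, h2, h3, map_mul, map_inv]
    · exact ih br hbr

/-- A product over a list in which exactly one factor is nontrivial. -/
theorem prod_one_factor (l : List (ℤ × ℂ)) (hl : ∀ br ∈ l, br.1 ≠ 0)
    (h1 : (l.map Prod.fst).countP (fun b => 2 ≤ |b|) = 1) :
    ∃ br ∈ l, 2 ≤ br.1.natAbs ∧
      (l.map fun br => nb (2 + br.2 ^ 2) br.1.natAbs).prod = nb (2 + br.2 ^ 2) br.1.natAbs := by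
  induction l with
  | nil => simp at h1
  | cons a l ih =>
    rw [List.map_cons, List.countP_cons] at h1
    by_cases ha : 2 ≤ |a.1|
    · refine ⟨a, List.mem_cons_self, by rw [Int.abs_eq_natAbs] at ha; omega, ?_⟩
      have h2 : (l.map Prod.fst).countP (fun b => 2 ≤ |b|) = 0 := by
        simpa [ha] using h1
      rw [List.countP_eq_zero] at h2
      have h3 : (l.map fun br => nb (2 + br.2 ^ 2) br.1.natAbs).prod = 1 := by
        apply List.prod_eq_one
        intro x hx
        obtain ⟨br, hbr, rfl⟩ := List.mem_map.mp hx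
        have h4 := h2 br.1 (List.mem_map_of_mem hbr)
        have h5 := hl br (List.mem_cons_of_mem _ hbr)
        have h6 : br.1.natAbs = 1 := by
          simp only [decide_eq_true_eq, not_le] at h4
          rw [Int.abs_eq_natAbs] at h4
          omega
        rw [h6, nb]
      rw [List.map_cons, List.prod_cons, h3, mul_one]
    · have h2 : (l.map Prod.fst).countP (fun b => 2 ≤ |b|) = 1 := by
        simpa [ha] using h1
      obtain ⟨br, hbr, h3, h4⟩ := ih (fun br hbr => hl br (List.mem_cons_of_mem _ hbr)) h2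
      refine ⟨br, List.mem_cons_of_mem _ hbr, h3, ?_⟩
      have h5 := hl a List.mem_cons_self
      have h6 : a.1.natAbs = 1 := by
        rw [Int.abs_eq_natAbs] at ha
        omega
      rw [List.map_cons, List.prod_cons, h4, h6, nb, one_mul]

theorem twists_ne_zero (L : List (ℤ × ℤ)) (hL : ∀ p ∈ L, p.1 ≠ 0 ∧ p.2 ≠ 0) :
    ∀ b ∈ twists L, b ≠ 0 := by
  induction L with
  | nil => intro b hb; simp [twists] at hb
  | cons p L ih =>
    intro b hb
    rw [twists, List.mem_cons, List.mem_cons] at hb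
    rcases hb with rfl | rfl | hb
    · exact (hL p List.mem_cons_self).2
    · exact (hL p List.mem_cons_self).1
    · exact ih (fun p hp => hL p (List.mem_cons_of_mem _ hp)) b hb

theorem trace_conj (g h : SL(2, ℂ)) : (g * h * g⁻¹).1.trace = h.1.trace := by
  rw [Matrix.SpecialLinearGroup.coe_mul, Matrix.trace_mul_comm,
    ← Matrix.SpecialLinearGroup.coe_mul, ← mul_assoc, inv_mul_cancel, one_mul]

/-- Everything we know about the top coefficient. -/
theorem top_coeff (L : List (ℤ × ℤ)) (hL : ∀ p ∈ L, p.1 ≠ 0 ∧ p.2 ≠ 0)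
    (ρ : KnotGroup L →* SL(2, ℂ)) (hx : (ρ (toKnot L gx)).1.trace = 2)
    (hxy : ρ (toKnot L gx) * ρ (toKnot L gy) ≠ ρ (toKnot L gy) * ρ (toKnot L gx))
    (Δ : ℂ[T;T⁻¹]) (hΔ : IsWada L ρ Δ) :
    ∃ c : ℂ, Top Δ (2 * L.length - 2) c ∧ c ≠ -1 ∧
      ((∀ b ∈ twists L, |b| = 1) → c = 1) ∧
      (¬ (∀ b ∈ twists L, |b| = 1) → Nonempty (traceField ρ →+* ℝ) → c ≠ 0 ∧ c ≠ 1) ∧
      (NoElliptic ρ → c ≠ 0) ∧
      (NoElliptic ρ → (twists L).countP (fun b => 2 ≤ |b|) = 1 → c ≠ 1) ∧
      (∀ m : ℕ, (uv L).2 ∣ 2 ^ m + 1 → Odd ((twists L).countP fun b => Even b) → c ≠ 1) ∧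
      ((∀ (F : Type) [Field F] [CharP F 2] (z : F), z ^ (uv L).2 = 1 → z ≠ 1 →
        ((bandsZ L).map fun bl => (∑ i ∈ Finset.range bl.1.natAbs, z ^ (bl.2 * (i : ℤ))) *
          ∑ i ∈ Finset.range bl.1.natAbs, z ^ (-(bl.2 * (i : ℤ)))).prod ≠ 1) → c ≠ 1) := by
  -- the last meridians agree in the knot group
  have hrel : (strands (toKnot L gx) (toKnot L gy) L).2.1 =
      (strands (toKnot L gx) (toKnot L gy) L).2.2 := by
    have h1 : toKnot L (rel L) = 1 := by
      rw [toKnot, PresentedGroup.mk_eq_one_iff]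
      exact Subgroup.subset_normalClosure rfl
    rw [strands_map (toKnot L)]
    change toKnot L ((strands gx gy L).2.1 * (strands gx gy L).2.2⁻¹) = 1 at h1
    rw [map_mul, map_inv, mul_inv_eq_one] at h1
    exact h1
  have hconj : IsConj (toKnot L gx) (toKnot L gy) := by
    obtain ⟨h1, h2⟩ := strands_conj (toKnot L gx) (toKnot L gy) L
    rw [hrel] at h1
    exact h1.trans h2.symm
  have hy : (ρ (toKnot L gy)).1.trace = 2 := by
    obtain ⟨c, hc⟩ := isConj_iff.mp hconj
    rw [← hc, map_mul, map_mul, map_inv, trace_conj, hx]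
  obtain ⟨g, q, hq, hX, hY⟩ := exists_par _ _ hx hy hxy
  have hlead : leadM (ρ (toKnot L gx)) (ρ (toKnot L gy)) L = lead q L := by
    rw [hX, hY, leadM_conj, leadM_par]
  -- the closing relation for the vectors
  have hclose : (vst q L).2.1 = (vst q L).2.2 ∨ (vst q L).2.1 = -(vst q L).2.2 := by
    apply par_injective q hq
    have h1 : strands (ρ (toKnot L gx)) (ρ (toKnot L gy)) L =
        (ρ (strands (toKnot L gx) (toKnot L gy) L).1,
          ρ (strands (toKnot L gx) (toKnot L gy) L).2.1,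
          ρ (strands (toKnot L gx) (toKnot L gy) L).2.2) := strands_map ρ _ _ L
    have h2 : strands (g * par q ![1, 0] * g⁻¹) (g * par q ![0, 1] * g⁻¹) L = _ :=
      strands_map (MulAut.conj g).toMonoidHom (par q ![1, 0]) (par q ![0, 1]) L
    rw [← hX, ← hY, h1, strands_par, hrel] at h2
    have h3 : ρ (strands (toKnot L gx) (toKnot L gy) L).2.2 =
        (MulAut.conj g).toMonoidHom (par q (vst q L).2.1) := congrArg (fun z => z.2.1) h2
    have h4 : ρ (strands (toKnot L gx) (toKnot L gy) L).2.2 =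
        (MulAut.conj g).toMonoidHom (par q (vst q L).2.2) := congrArg (fun z => z.2.2) h2
    exact (MulAut.conj g).injective (h3.symm.trans h4)
  have hgood := good_adjoin q L hL hclose
  have hval : ((lead (⟨q, Algebra.subset_adjoin rfl⟩ : Algebra.adjoin ℤ {q}) L :
      Algebra.adjoin ℤ {q}) : ℂ) = lead q L :=
    lead_map (Algebra.adjoin ℤ {q}).val.toRingHom ⟨q, Algebra.subset_adjoin rfl⟩ L
  -- every band value lies in the ring and is the trace of a group element
  have hmem : ∀ br ∈ bands q L, br.2 ∈ Algebra.adjoin ℤ {q} := by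
    intro br hbr
    have h1 := bands_map (Algebra.adjoin ℤ {q}).val.toRingHom ⟨q, Algebra.subset_adjoin rfl⟩ L
    change bands q L = _ at h1
    rw [h1] at hbr
    obtain ⟨br', -, rfl⟩ := List.mem_map.mp hbr
    exact br'.2.2
  have htr : NoElliptic ρ → ∀ br ∈ bands q L, ∀ b : ℕ, 2 ≤ b →
      nb (2 + br.2 ^ 2) b ≠ 0 ∧ nb (2 + br.2 ^ 2) b ≠ 1 := by
    intro hell br hbr b hb
    by_contra hcon
    have h1 : nb (2 + br.2 ^ 2) b = 0 ∨ nb (2 + br.2 ^ 2) b = 1 := by tauto
    obtain ⟨t, ht, ht1, ht2⟩ := nb_elliptic _ b hb h1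
    rcases eq_or_lt_of_le ht1 with h2 | h2
    · have h3 := hgood.trace_ne ⟨br.2, hmem br hbr⟩
      apply h3
      apply Subtype.ext
      change 2 + br.2 ^ 2 = (-2 : ℂ)
      rw [ht, ← h2]; simp
    · obtain ⟨w, hw⟩ := bands_trace q
        ((MulAut.conj g⁻¹).toMonoidHom.comp (ρ.comp (toKnot L)))
        (by simp [hX, mul_assoc]) (by simp [hY, mul_assoc]) L br hbr
      refine hell (toKnot L w) t ?_ ⟨h2, ht2⟩
      rw [← ht, ← hw]
      simp only [MonoidHom.comp_apply, MulEquiv.coe_toMonoidHom, MulAut.conj_apply]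
      rw [trace_conj]
  have hbne : ∀ br ∈ bands q L, br.1 ≠ 0 := by
    intro br hbr
    apply twists_ne_zero L hL
    rw [← bands_fst q]
    exact List.mem_map_of_mem hbr
  refine ⟨lead q L, ?_, ?_, ?_, ?_, ?_, ?_, ?_, ?_⟩
  · rw [← hlead]
    exact wada_top L ρ hy Δ hΔ
  · intro h
    apply hgood.lead_ne_neg_one
    apply Subtype.ext
    rw [hval, h]; simp
  · intro h
    rw [lead]
    apply List.prod_eq_one
    intro x hx'
    obtain ⟨br, hbr, rfl⟩ := List.mem_map.mp hx'
    have h1 : |br.1| = 1 := by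
      apply h
      rw [← bands_fst q]
      exact List.mem_map_of_mem hbr
    have h2 : br.1.natAbs = 1 := by
      rw [Int.abs_eq_natAbs] at h1
      omega
    rw [h2, nb]
  · rintro hnf ⟨φ⟩
    -- `q` lies in the trace field
    have h1 : (ρ (toKnot L gx * (toKnot L gy)⁻¹)).1.trace = 2 + q ^ 2 := by
      have h2 : ρ (toKnot L gx * (toKnot L gy)⁻¹) =
          g * (par q ![1, 0] * (par q ![0, 1])⁻¹) * g⁻¹ := by
        rw [map_mul, map_inv, hX, hY]; group
      rw [h2, trace_conj, trace_ab]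
      simp [frm]
    have h2 : q ^ 2 ∈ traceField ρ := by
      have h3 : (2 + q ^ 2) ∈ traceField ρ := by
        rw [← h1]
        exact IntermediateField.subset_adjoin ℚ _ ⟨_, rfl⟩
      have h4 : q ^ 2 = (2 + q ^ 2) - 2 := by ring
      rw [h4]
      exact sub_mem h3 (ofNat_mem _ 2)
    have h3 : q ∈ traceField ρ := by
      have h4 := q_mem q L hclose
      refine (Algebra.adjoin_le (S := (traceField ρ).toSubalgebra.restrictScalars ℤ) ?_) h4
      rintro z rfl
      exact h2
    have hv : (((lead (⟨q, h3⟩ : traceField ρ) L : traceField ρ)) : ℂ) = lead q L :=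
      lead_map (traceField ρ).val.toRingHom ⟨q, h3⟩ L
    have hex : ∃ br ∈ bands (φ ⟨q, h3⟩) L, 2 ≤ br.1.natAbs := by
      by_contra hcon
      push Not at hcon
      apply hnf
      intro b hb
      have hb0 := twists_ne_zero L hL b hb
      rw [← bands_fst (φ ⟨q, h3⟩)] at hb
      obtain ⟨br, hbr, rfl⟩ := List.mem_map.mp hb
      have h5 := hcon br hbr
      rw [Int.abs_eq_natAbs]
      omega
    have hlt := one_lt_lead_real (φ ⟨q, h3⟩) L (by
      intro br hbr
      apply twists_ne_zero L hL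
      rw [← bands_fst (φ ⟨q, h3⟩)]
      exact List.mem_map_of_mem hbr) hex
    rw [← lead_map φ] at hlt
    constructor
    · intro h
      have h6 : lead (⟨q, h3⟩ : traceField ρ) L = 0 := by
        apply Subtype.ext
        rw [hv, h]; simp
      rw [h6, map_zero] at hlt
      linarith
    · intro h
      have h6 : lead (⟨q, h3⟩ : traceField ρ) L = 1 := by
        apply Subtype.ext
        rw [hv, h]; simp
      rw [h6, map_one] at hlt
      linarith
  · intro hell
    rw [lead]
    apply List.prod_ne_zero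
    intro h0
    obtain ⟨br, hbr, h1⟩ := List.mem_map.mp h0
    rcases Nat.lt_or_ge br.1.natAbs 2 with h2 | h2
    · have h3 : br.1.natAbs = 1 := by
        have := hbne br hbr
        omega
      rw [h3, nb] at h1
      exact one_ne_zero h1
    · exact (htr hell br hbr _ h2).1 h1
  · intro hell h h1
    rw [← bands_fst q] at h
    obtain ⟨br, hbr, h2, h3⟩ := prod_one_factor (bands q L) hbne h
    rw [lead, h3] at h1
    exact (htr hell br hbr _ h2).2 h1
  · intro m hm ho h
    apply hgood.lead_ne_one_of_odd m hm ho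
    apply Subtype.ext
    rw [hval, h]; simp
  · intro hc h
    apply hgood.lead_ne_one_of_crit hc
    apply Subtype.ext
    rw [hval, h]; simp

/-- A Laurent polynomial with known nonzero top coefficient other than `±1` is not monic. -/
theorem not_monic {f : ℂ[T;T⁻¹]} {n : ℤ} {c : ℂ} (h : Top f n c) (h0 : c ≠ 0) (h1 : c ≠ 1)
    (h2 : c ≠ -1) : ¬ IsMonicL f := by
  rintro ⟨m, hm | hm⟩
  · exact h1 (h.unique h0 hm one_ne_zero)
  · exact h2 (h.unique h0 hm (neg_ne_zero.mpr one_ne_zero))

end Pool.Agent.W_MP_5f5bee_gt
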