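import Mathlib
import Pool.Agent.W_MP_5f5bee_gt.Defs

/-!
Knot groups presented by means of a Seifert surface whose complement is a handlebody, Fox
derivatives, and Wada's twisted Alexander invariant for such presentations.
-/

open scoped LaurentPolynomial MatrixGroups
open LaurentPolynomial

namespace Pool.Agent.W_MP_5f5bee_gt.Plumb

variable {n : ℕ}

/-- The free group on generators `x_i` (`i < n`) and one more generator `t`. -/
abbrev FG (n : ℕ) : Type := FreeGroup (Option (Fin n))

/-- The generator `t` (a meridian). -/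
def gt : FG n := FreeGroup.of none

/-- The inclusion of the free group on the `x_i`. -/
def inc : FreeGroup (Fin n) →* FG n := FreeGroup.map some

/-- The relator `t u_j t⁻¹ v_j⁻¹`. -/
def rel (u v : Fin n → FreeGroup (Fin n)) (j : Fin n) : FG n :=
  gt * inc (u j) * gt⁻¹ * (inc (v j))⁻¹

/-- The group `⟨x_i, t | t u_j t⁻¹ = v_j⟩` of a knot with a Seifert surface `S`: the complement of
`S` has free fundamental group on the `x_i`, the group of `S` is free, and `u_j`, `v_j` are the
push-offs of its free generators to the two sides of `S`. -/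
abbrev KnotGroup (u v : Fin n → FreeGroup (Fin n)) : Type :=
  PresentedGroup (Set.range (rel u v))

/-- The quotient map. -/
def toKnot (u v : Fin n → FreeGroup (Fin n)) : FG n →* KnotGroup u v :=
  PresentedGroup.mk (Set.range (rel u v))

/-- The integral group ring of the free group. -/
abbrev ZF (n : ℕ) : Type := MonoidAlgebra ℤ (FG n)

/-- `d i` is the Fox derivative with respect to the generator `i`. -/
structure IsFox (d : Option (Fin n) → FG n → ZF n) : Prop where
  mul : ∀ i a b, d i (a * b) = d i a + MonoidAlgebra.of ℤ (FG n) a * d i b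
  of : ∀ i k, d i (FreeGroup.of k) = if k = i then 1 else 0

/-- The abelianization `α`: `t ↦ 1` and `x_i ↦ 0`. -/
def degHom : FG n →* Multiplicative ℤ :=
  FreeGroup.lift fun k => if k = none then Multiplicative.ofAdd 1 else 1

/-- The tensor product `g ↦ α(g) ρ(g)`. -/
noncomputable def twHom (ρ : FG n →* SL(2, ℂ)) : FG n →* Matrix (Fin 2) (Fin 2) ℂ[T;T⁻¹] where
  toFun g := (T (Multiplicative.toAdd (degHom g)) : ℂ[T;T⁻¹]) •
    ((ρ g : Matrix (Fin 2) (Fin 2) ℂ).map C)
  map_one' := by simp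
  map_mul' g h := by
    rw [map_mul ρ, map_mul degHom, toAdd_mul, T_add, Matrix.SpecialLinearGroup.coe_mul,
      Matrix.map_mul, Matrix.smul_mul, Matrix.mul_smul, smul_smul]

/-- The ring homomorphism `Φ` extending `g ↦ α(g) ρ(g)`. -/
noncomputable def Phi (ρ : FG n →* SL(2, ℂ)) : ZF n →ₐ[ℤ] Matrix (Fin 2) (Fin 2) ℂ[T;T⁻¹] :=
  MonoidAlgebra.lift ℤ _ _ (twHom ρ)

/-- The matrix `Φ(∂r_j/∂x_i)`, of size `2n`. -/
noncomputable def foxMatrix (d : Option (Fin n) → FG n → ZF n)
    (u v : Fin n → FreeGroup (Fin n)) (ρ : KnotGroup u v →* SL(2, ℂ)) :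
    Matrix (Fin n × Fin 2) (Fin n × Fin 2) ℂ[T;T⁻¹] :=
  Matrix.of fun p q => Phi (ρ.comp (toKnot u v)) (d (some q.1) (rel u v p.1)) p.2 q.2

/-- `Δ` is the twisted Alexander polynomial (Wada's invariant) for the representation `ρ`:
`Δ · det Φ(t - 1) = det Φ(∂r_j/∂x_i)`. -/
def IsTwistedAlexander (u v : Fin n → FreeGroup (Fin n)) (ρ : KnotGroup u v →* SL(2, ℂ))
    (Δ : ℂ[T;T⁻¹]) : Prop :=
  ∃ d : Option (Fin n) → FG n → ZF n, IsFox d ∧
    Δ * (Phi (ρ.comp (toKnot u v)) (MonoidAlgebra.of ℤ (FG n) gt - 1)).det =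
      (foxMatrix d u v ρ).det

/-- `u_j = g_j x_j^(b_j) h_j` with `g_j` and `h_j` in the subgroup generated by the earlier
generators `x_i`, `i < j`. -/
def IsTriangular (b : Fin n → ℤ) (u : Fin n → FreeGroup (Fin n)) : Prop :=
  ∀ j, ∃ g ∈ Subgroup.closure (FreeGroup.of '' {i : Fin n | i < j}),
    ∃ h ∈ Subgroup.closure (FreeGroup.of '' {i : Fin n | i < j}),
      u j = g * FreeGroup.of j ^ b j * h

/-- Every `x_j` with `|b_j| ≥ 2` is, in the knot group, the product of a meridian and of the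
inverse of a meridian. -/
def BandLoops (b : Fin n → ℤ) (u v : Fin n → FreeGroup (Fin n)) : Prop :=
  ∀ j, 2 ≤ |b j| → ∃ m m' : KnotGroup u v, IsConj (toKnot u v gt) m ∧
    IsConj (toKnot u v gt) m' ∧ toKnot u v (inc (FreeGroup.of j)) = m * m'⁻¹

end Pool.Agent.W_MP_5f5bee_gt.Plumb
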