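import Mathlib
import Pool.Agent.W_MP_5f5bee_gt.PlumbDefs
import Pool.Agent.W_MP_5f5bee_gt.Nb
import Pool.Agent.W_MP_5f5bee_gt.RealPlace
import Pool.Agent.W_MP_5f5bee_gt.FoxTop

/-!
The top coefficient of Wada's invariant for presentations coming from a Seifert surface.
-/

open scoped LaurentPolynomial MatrixGroups
open LaurentPolynomial Matrix

namespace Pool.Agent.W_MP_5f5bee_gt.Plumb

variable {n : ℕ}

section fox

variable {d : Option (Fin n) → FG n → ZF n} (hd : IsFox d) (ρ : FG n →* SL(2, ℂ))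

include hd

theorem IsFox.one (i : Option (Fin n)) : d i 1 = 0 := by
  have h1 := hd.mul i 1 1
  rw [mul_one, map_one, one_mul] at h1
  exact left_eq_add.mp h1

theorem IsFox.inv (i : Option (Fin n)) (u : FG n) :
    d i u⁻¹ = -(MonoidAlgebra.of ℤ (FG n) u⁻¹ * d i u) := by
  have h1 := hd.mul i u⁻¹ u
  rw [inv_mul_cancel, hd.one] at h1
  exact eq_neg_of_add_eq_zero_left h1.symm

end fox

section values

variable (d : Option (Fin n) → FG n → ZF n) (ρ : FG n →* SL(2, ℂ))

/-- The image of the Fox derivative under `Φ`. -/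
noncomputable def DD (i : Fin n) (w : FG n) : Matrix (Fin 2) (Fin 2) ℂ[T;T⁻¹] :=
  Phi ρ (d (some i) w)

/-- The constant part of the image of the Fox derivative of a word in the `x_i`. -/
noncomputable def EE (i : Fin n) (w : FreeGroup (Fin n)) : Matrix (Fin 2) (Fin 2) ℂ :=
  (DD d ρ i (inc w)).map fun f => f.coeff 0

variable {d}

theorem Phi_of (u : FG n) : Phi ρ (MonoidAlgebra.of ℤ (FG n) u) = twHom ρ u := by
  rw [Phi, MonoidAlgebra.lift_of]

theorem twHom_apply (u : FG n) : twHom ρ u = (T (Multiplicative.toAdd (degHom u)) : ℂ[T;T⁻¹]) •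
    ((ρ u).1).map C := rfl

theorem degHom_inc (w : FreeGroup (Fin n)) : degHom (inc w) = 1 := by
  have : (degHom.comp inc : FreeGroup (Fin n) →* Multiplicative ℤ) = 1 := by
    ext i
    simp [degHom, inc]
  exact DFunLike.congr_fun this w

theorem degHom_gt : degHom (gt : FG n) = Multiplicative.ofAdd 1 := by
  simp [degHom, gt]

theorem twHom_inc (w : FreeGroup (Fin n)) : twHom ρ (inc w) = ((ρ (inc w)).1).map C := by
  rw [twHom_apply, degHom_inc, toAdd_one, T_zero, one_smul]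

theorem twHom_gt : twHom ρ gt = (T 1 : ℂ[T;T⁻¹]) • ((ρ gt).1).map C := by
  rw [twHom_apply, degHom_gt, toAdd_ofAdd]

theorem mapC_inj {Z Z' : Matrix (Fin 2) (Fin 2) ℂ}
    (h : Z.map (C : ℂ →+* ℂ[T;T⁻¹]) = Z'.map C) : Z = Z' := by
  ext i j
  have h1 := congrFun (congrFun h i) j
  have h2 := congrArg (fun f => f.coeff 0) h1
  simpa using h2

theorem mapC_coeff (Z : Matrix (Fin 2) (Fin 2) ℂ) :
    (Z.map (C : ℂ →+* ℂ[T;T⁻¹])).map (fun f => f.coeff 0) = Z := by
  ext i j
  simp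

variable (hd : IsFox d)

include hd

theorem DD_mul (i : Fin n) (u v : FG n) :
    DD d ρ i (u * v) = DD d ρ i u + twHom ρ u * DD d ρ i v := by
  rw [DD, hd.mul, map_add, map_mul, Phi_of]; rfl

theorem DD_one (i : Fin n) : DD d ρ i 1 = 0 := by
  rw [DD, hd.one, map_zero]

theorem DD_inv (i : Fin n) (u : FG n) : DD d ρ i u⁻¹ = -(twHom ρ u⁻¹ * DD d ρ i u) := by
  rw [DD, hd.inv, map_neg, map_mul, Phi_of]; rfl

theorem DD_of (i k : Fin n) : DD d ρ i (inc (FreeGroup.of k)) = if k = i then 1 else 0 := by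
  rw [DD, inc, FreeGroup.map.of, hd.of]
  by_cases h : k = i
  · rw [if_pos h, if_pos (by rw [h]), map_one]
  · rw [if_neg h, if_neg (by simpa using h), map_zero]

theorem DD_gt (i : Fin n) : DD d ρ i gt = 0 := by
  rw [DD, gt, hd.of, if_neg (by simp), map_zero]

theorem DD_inc (i : Fin n) (w : FreeGroup (Fin n)) :
    DD d ρ i (inc w) = (EE d ρ i w).map C := by
  suffices h : ∃ Z : Matrix (Fin 2) (Fin 2) ℂ, DD d ρ i (inc w) = Z.map C by
    obtain ⟨Z, hZ⟩ := h
    rw [EE, hZ, mapC_coeff]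
  induction w using FreeGroup.induction_on with
  | C1 => exact ⟨0, by rw [map_one, DD_one ρ hd]; ext i j; simp⟩
  | of k =>
    rw [DD_of ρ hd]
    by_cases h : k = i
    · exact ⟨1, by rw [if_pos h, Matrix.map_one _ (map_zero _) (map_one _)]⟩
    · exact ⟨0, by rw [if_neg h]; ext i j; simp⟩
  | inv_of k hk =>
    obtain ⟨Z, hZ⟩ := hk
    rw [map_inv, DD_inv ρ hd, hZ, ← map_inv, twHom_inc]
    refine ⟨-((ρ (inc (FreeGroup.of k)⁻¹)).1 * Z), ?_⟩
    rw [Matrix.map_neg _ (map_neg _), Matrix.map_mul]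
  | mul u v hu hv =>
    obtain ⟨Z, hZ⟩ := hu
    obtain ⟨Z', hZ'⟩ := hv
    rw [map_mul, DD_mul ρ hd, hZ, hZ', twHom_inc]
    exact ⟨Z + (ρ (inc u)).1 * Z', by rw [Matrix.map_add _ (map_add _), Matrix.map_mul]⟩

theorem EE_one (i : Fin n) : EE d ρ i 1 = 0 := by
  apply mapC_inj
  rw [← DD_inc ρ hd, map_one, DD_one ρ hd]
  ext i j
  simp

theorem EE_mul (i : Fin n) (u v : FreeGroup (Fin n)) :
    EE d ρ i (u * v) = EE d ρ i u + (ρ (inc u)).1 * EE d ρ i v := by
  apply mapC_inj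
  rw [← DD_inc ρ hd, map_mul, DD_mul ρ hd, DD_inc ρ hd, DD_inc ρ hd, twHom_inc,
    Matrix.map_add _ (map_add _), Matrix.map_mul]

theorem EE_inv (i : Fin n) (u : FreeGroup (Fin n)) :
    EE d ρ i u⁻¹ = -((ρ (inc u⁻¹)).1 * EE d ρ i u) := by
  have h1 := EE_mul ρ hd i u⁻¹ u
  rw [inv_mul_cancel, EE_one ρ hd] at h1
  exact eq_neg_of_add_eq_zero_left h1.symm

theorem EE_of (i k : Fin n) : EE d ρ i (FreeGroup.of k) = if k = i then 1 else 0 := by
  apply mapC_inj
  rw [← DD_inc ρ hd, DD_of ρ hd]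
  by_cases h : k = i
  · rw [if_pos h, if_pos h, Matrix.map_one _ (map_zero _) (map_one _)]
  · rw [if_neg h, if_neg h]
    ext i j
    simp

theorem EE_closure (i : Fin n) (s : Set (Fin n)) (hi : i ∉ s) (w : FreeGroup (Fin n))
    (hw : w ∈ Subgroup.closure (FreeGroup.of '' s)) : EE d ρ i w = 0 := by
  induction hw using Subgroup.closure_induction with
  | mem x hx =>
    obtain ⟨k, hk, rfl⟩ := hx
    rw [EE_of ρ hd, if_neg]
    rintro rfl
    exact hi hk
  | one => exact EE_one ρ hd i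
  | mul x y _ _ hx hy => rw [EE_mul ρ hd, hx, hy, Matrix.mul_zero, add_zero]
  | inv x _ hx => rw [EE_inv ρ hd, hx, Matrix.mul_zero, neg_zero]

theorem EE_zpow (j : Fin n) (m : ℤ) :
    EE d ρ j (FreeGroup.of j ^ m) = geomZ (ρ (inc (FreeGroup.of j))) m := by
  have key : ∀ m : ℤ, EE d ρ j (FreeGroup.of j ^ (m + 1)) =
      EE d ρ j (FreeGroup.of j ^ m) + ((ρ (inc (FreeGroup.of j))) ^ m).1 := by
    intro m
    rw [_root_.zpow_add_one, EE_mul ρ hd, EE_of ρ hd, if_pos rfl, Matrix.mul_one, map_zpow,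
      map_zpow]
  induction m using Int.induction_on with
  | zero => rw [zpow_zero, EE_one ρ hd, geomZ_zero]
  | succ m ih => rw [key, geomZ_succ, ih]
  | pred m ih =>
    have h1 := key (-(m : ℤ) - 1)
    have h2 := geomZ_succ (ρ (inc (FreeGroup.of j))) (-(m : ℤ) - 1)
    rw [sub_add_cancel] at h1 h2
    rw [ih, h2] at h1
    exact (add_right_cancel h1).symm

/-- Derivatives of a triangular system of words. -/
theorem EE_tri {b : Fin n → ℤ} {u : Fin n → FreeGroup (Fin n)} (hu : IsTriangular b u)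
    {i j : Fin n} (hij : j < i) : EE d ρ i (u j) = 0 := by
  obtain ⟨g, hg, h, hh, e⟩ := hu j
  have hg' := EE_closure ρ hd i {k | k < j} (by simpa using hij.le) g hg
  have hh' := EE_closure ρ hd i {k | k < j} (by simpa using hij.le) h hh
  have hm : EE d ρ i (FreeGroup.of j ^ b j) = 0 := by
    apply EE_closure ρ hd i {j} (by simpa using hij.ne')
    exact Subgroup.zpow_mem _ (Subgroup.subset_closure
      (Set.mem_image_of_mem FreeGroup.of (Set.mem_singleton j))) _
  rw [e, EE_mul ρ hd, EE_mul ρ hd, hg', hh', hm]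
  simp

theorem EE_diag {b : Fin n → ℤ} {u : Fin n → FreeGroup (Fin n)} (hu : IsTriangular b u)
    (j : Fin n) : (EE d ρ j (u j)).det =
      nb (ρ (inc (FreeGroup.of j))).1.trace (b j).natAbs := by
  obtain ⟨g, hg, h, hh, e⟩ := hu j
  have hg' := EE_closure ρ hd j {k | k < j} (by simp) g hg
  have hh' := EE_closure ρ hd j {k | k < j} (by simp) h hh
  rw [e, EE_mul ρ hd, EE_mul ρ hd, hg', hh', EE_zpow ρ hd, Matrix.mul_zero, add_zero, zero_add,
    Matrix.det_mul, det_geomZ, (ρ (inc g)).2, one_mul]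

/-- The Fox derivative of the relator. -/
theorem DD_rel (u v : Fin n → FreeGroup (Fin n)) (j i : Fin n) (hr : ρ (rel u v j) = 1) :
    DD d ρ i (rel u v j) =
      (T 1 : ℂ[T;T⁻¹]) • ((ρ gt).1 * EE d ρ i (u j)).map C - (EE d ρ i (v j)).map C := by
  have hdeg : degHom (rel u v j) = 1 := by
    rw [rel, map_mul, map_mul, map_mul, map_inv, map_inv, degHom_inc, degHom_inc]
    simp
  have htw : twHom ρ (rel u v j) = 1 := by
    rw [twHom_apply, hdeg, hr, toAdd_one, T_zero, one_smul, Matrix.SpecialLinearGroup.coe_one,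
      Matrix.map_one _ (map_zero _) (map_one _)]
  have h1 : DD d ρ i (rel u v j) = twHom ρ gt * DD d ρ i (inc (u j)) -
      twHom ρ (rel u v j) * DD d ρ i (inc (v j)) := by
    rw [rel, DD_mul ρ hd, DD_mul ρ hd, DD_mul ρ hd, DD_inv ρ hd, DD_inv ρ hd, DD_gt ρ hd]
    simp only [map_mul, Matrix.mul_zero, neg_zero, add_zero, zero_add, Matrix.mul_neg,
      Matrix.mul_assoc, sub_eq_add_neg]
  rw [h1, htw, DD_inc ρ hd, DD_inc ρ hd, twHom_gt, Matrix.smul_mul, ← Matrix.map_mul,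
    Matrix.one_mul]

end values

/-- The top coefficient of the determinant of `T A - B`. -/
theorem top_det {ι : Type*} [Fintype ι] [DecidableEq ι] (A B : Matrix ι ι ℂ) :
    Top ((T 1 : ℂ[T;T⁻¹]) • A.map C - B.map C).det (Fintype.card ι) A.det := by
  have h1 : ((T 1 : ℂ[T;T⁻¹]) • A.map C - B.map C).det =
      Polynomial.toLaurent ((Polynomial.X : Polynomial ℂ) • A.map Polynomial.C +
        (-B).map Polynomial.C).det := by
    rw [RingHom.map_det]
    congr 1
    ext1 i j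
    simp [RingHom.mapMatrix_apply, sub_eq_add_neg]
  have hco : ∀ (f : Polynomial ℂ) (k : ℕ), (Polynomial.toLaurent f).coeff (k : ℤ) =
      f.coeff k := by
    intro f k
    rw [coeff_toLaurent]
    exact Finsupp.mapDomain_apply Nat.castEmbedding.injective _ k
  have h2 := Polynomial.coeff_det_X_add_C_card A (-B)
  have h3 := Polynomial.natDegree_det_X_add_C_le A (-B)
  rw [h1]
  refine ⟨by rw [hco, h2], ?_⟩
  intro k hk
  obtain ⟨m, rfl⟩ := Int.eq_ofNat_of_zero_le (show 0 ≤ k by omega)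
  rw [hco]
  apply Polynomial.coeff_eq_zero_of_natDegree_lt
  exact lt_of_le_of_lt h3 (by exact_mod_cast hk)

end Pool.Agent.W_MP_5f5bee_gt.Plumb
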