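import Mathlib
import Pool.Agent.W_MP_5f5bee_gt.PlumbTop
import Pool.Agent.W_MP_5f5bee_gt.Main

/-!
The main theorem on twisted Alexander polynomials of knots bounding surfaces obtained by plumbing
annuli.
-/

open scoped LaurentPolynomial MatrixGroups
open LaurentPolynomial Matrix

namespace Pool.Agent.W_MP_5f5bee_gt.Plumb

variable {n : ℕ}

theorem rel_eq_one (u v : Fin n → FreeGroup (Fin n)) (j : Fin n) :
    toKnot u v (rel u v j) = 1 := by
  rw [toKnot, PresentedGroup.mk_eq_one_iff]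
  exact Subgroup.subset_normalClosure ⟨j, rfl⟩

/-- The determinant of a triangular Jacobian. -/
theorem det_jac (d : Option (Fin n) → FG n → ZF n) (hd : IsFox d) (ρ : FG n →* SL(2, ℂ))
    {b : Fin n → ℤ} {u : Fin n → FreeGroup (Fin n)} (hu : IsTriangular b u) (X : SL(2, ℂ)) :
    (Matrix.of fun p q : Fin n × Fin 2 => (X.1 * EE d ρ q.1 (u p.1)) p.2 q.2).det =
      ∏ j, nb (ρ (inc (FreeGroup.of j))).1.trace (b j).natAbs := by
  have hbt : (Matrix.of fun p q : Fin n × Fin 2 =>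
      (X.1 * EE d ρ q.1 (u p.1)) p.2 q.2).BlockTriangular
        (fun p => OrderDual.toDual p.1) := by
    intro p q hpq
    have h1 : p.1 < q.1 := hpq
    rw [Matrix.of_apply, EE_tri ρ hd hu h1, Matrix.mul_zero, Matrix.zero_apply]
  rw [hbt.det_fintype]
  refine Finset.prod_congr rfl fun j _ => ?_
  let e : Fin 2 ≃ {p : Fin n × Fin 2 // OrderDual.toDual p.1 = j} :=
    { toFun := fun a => ⟨(OrderDual.ofDual j, a), rfl⟩
      invFun := fun p => p.1.2
      left_inv := fun a => rfl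
      right_inv := by
        rintro ⟨⟨i, a⟩, h⟩
        cases h
        rfl }
  rw [← Matrix.det_submatrix_equiv_self e]
  have h2 : (Matrix.toSquareBlock (Matrix.of fun p q : Fin n × Fin 2 =>
      (X.1 * EE d ρ q.1 (u p.1)) p.2 q.2) (fun p => OrderDual.toDual p.1) j).submatrix e e =
      X.1 * EE d ρ (OrderDual.ofDual j) (u (OrderDual.ofDual j)) := by
    ext a c
    rfl
  rw [h2, Matrix.det_mul, X.2, one_mul, EE_diag ρ hd hu]
  rfl

/-- The denominator of Wada's invariant. -/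
theorem den_eq (ρ : FG n →* SL(2, ℂ)) (h : (ρ gt).1.trace = 2) :
    (Phi ρ (MonoidAlgebra.of ℤ (FG n) gt - 1)).det = T 2 - 2 * T 1 + 1 := by
  rw [map_sub, map_one, Phi_of, twHom_gt, Matrix.det_fin_two]
  have hd := (ρ gt).2
  rw [Matrix.det_fin_two] at hd
  rw [Matrix.trace_fin_two] at h
  have hd' : C ((ρ gt).1 0 0) * C ((ρ gt).1 1 1) - C ((ρ gt).1 0 1) * C ((ρ gt).1 1 0) =
      (1 : ℂ[T;T⁻¹]) := by
    rw [← map_mul, ← map_mul, ← map_sub, hd, map_one]
  have h' : C ((ρ gt).1 0 0) + C ((ρ gt).1 1 1) = (2 : ℂ[T;T⁻¹]) := by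
    rw [← map_add, h, map_ofNat]
  have hT : (T 2 : ℂ[T;T⁻¹]) = T 1 * T 1 := by rw [← T_add]; rfl
  simp only [Matrix.sub_apply, Matrix.smul_apply, Matrix.map_apply, smul_eq_mul,
    Matrix.one_apply_eq]
  rw [Matrix.one_apply_ne (by decide), Matrix.one_apply_ne (by decide), hT]
  linear_combination (T 1 * T 1) * hd' - T 1 * h'

/-- Dividing by `(T - 1)²` does not change the top coefficient. -/
theorem top_of_mul_den {Δ : ℂ[T;T⁻¹]} {N : ℤ} {c : ℂ}
    (h : Top (Δ * (T 2 - 2 * T 1 + 1)) N c) : Top Δ (N - 2) c := by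
  obtain ⟨h2, h3⟩ := h
  have hco : ∀ j : ℤ, (Δ * (T 2 - 2 * T 1 + 1)).coeff j =
      Δ.coeff (j - 2) - 2 * Δ.coeff (j - 1) + Δ.coeff j := by
    intro j
    have e : Δ * (T 2 - 2 * T 1 + 1) = T 2 * Δ - C 2 * (T 1 * Δ) + Δ := by
      rw [map_ofNat]; ring
    rw [e, AddMonoidAlgebra.coeff_add, AddMonoidAlgebra.coeff_sub, Finsupp.add_apply,
      Finsupp.sub_apply, coeff_T_mul, coeff_C_mul', coeff_T_mul]
  have hd : ∀ k : ℤ, N - 2 < k → Δ.coeff k = 0 := by
    by_contra hcon
    push Not at hcon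
    obtain ⟨k, hk, hk0⟩ := hcon
    have hne : Δ.coeff.support.Nonempty := ⟨k, Finsupp.mem_support_iff.mpr hk0⟩
    have hM := Finset.max'_mem _ hne
    set M := Δ.coeff.support.max' hne with hMdef
    have hkM : k ≤ M := Finset.le_max' _ _ (Finsupp.mem_support_iff.mpr hk0)
    have hbig : ∀ j : ℤ, M < j → Δ.coeff j = 0 := by
      intro j hj
      by_contra hj0
      have := Finset.le_max' _ _ (Finsupp.mem_support_iff.mpr hj0)
      omega
    have h4 := h3 (M + 2) (by omega)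
    rw [hco, add_sub_cancel_right, hbig (M + 2 - 1) (by omega), hbig (M + 2) (by omega)] at h4
    apply Finsupp.mem_support_iff.mp hM
    simpa using h4
  refine ⟨?_, hd⟩
  have h5 := hco N
  rw [h2, hd (N - 1) (by omega), hd N (by omega)] at h5
  simpa using h5.symm

/-- The top coefficient of Wada's invariant. -/
theorem wada_top {b : Fin n → ℤ} {u v : Fin n → FreeGroup (Fin n)} (hu : IsTriangular b u)
    (ρ : KnotGroup u v →* SL(2, ℂ)) (ht : (ρ (toKnot u v gt)).1.trace = 2)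
    (Δ : ℂ[T;T⁻¹]) (hΔ : IsTwistedAlexander u v ρ Δ) :
    Top Δ (2 * n - 2)
      (∏ j, nb (ρ (toKnot u v (inc (FreeGroup.of j)))).1.trace (b j).natAbs) := by
  obtain ⟨d, hd, h⟩ := hΔ
  rw [den_eq _ ht] at h
  have hM : foxMatrix d u v ρ = (T 1 : ℂ[T;T⁻¹]) •
      (Matrix.of fun p q : Fin n × Fin 2 => (((ρ.comp (toKnot u v)) gt).1 *
        EE d (ρ.comp (toKnot u v)) q.1 (u p.1)) p.2 q.2).map C -
      (Matrix.of fun p q : Fin n × Fin 2 =>
        (EE d (ρ.comp (toKnot u v)) q.1 (v p.1)) p.2 q.2).map C := by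
    ext1 p q
    have h1 := DD_rel (ρ.comp (toKnot u v)) hd u v p.1 q.1
      (by rw [MonoidHom.comp_apply, rel_eq_one, map_one])
    exact congrFun (congrFun h1 p.2) q.2
  have htop := top_det (Matrix.of fun p q : Fin n × Fin 2 => (((ρ.comp (toKnot u v)) gt).1 *
        EE d (ρ.comp (toKnot u v)) q.1 (u p.1)) p.2 q.2)
      (Matrix.of fun p q : Fin n × Fin 2 =>
        (EE d (ρ.comp (toKnot u v)) q.1 (v p.1)) p.2 q.2)
  rw [← hM, ← h, det_jac d hd _ hu] at htop
  have h3 := top_of_mul_den htop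
  have h4 : ((Fintype.card (Fin n × Fin 2) : ℕ) : ℤ) = 2 * n := by
    rw [Fintype.card_prod, Fintype.card_fin, Fintype.card_fin]
    push_cast
    ring
  rw [h4] at h3
  exact h3

/-- `tr [m, g] = 2 + (tr (m g) - tr g)²` if `tr m = 2`. -/
theorem trace_band (m g : SL(2, ℂ)) (hm : m.1.trace = 2) :
    (m * (g * m * g⁻¹)⁻¹).1.trace = 2 + ((m * g).1.trace - g.1.trace) ^ 2 := by
  have hd := m.2
  have hg := g.2
  have e : m * (g * m * g⁻¹)⁻¹ = m * g * m⁻¹ * g⁻¹ := by group
  rw [e]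
  rw [Matrix.SpecialLinearGroup.coe_mul, Matrix.SpecialLinearGroup.coe_mul,
    Matrix.SpecialLinearGroup.coe_mul, Matrix.SpecialLinearGroup.coe_inv,
    Matrix.SpecialLinearGroup.coe_inv, Matrix.adjugate_fin_two, Matrix.adjugate_fin_two]
  rw [Matrix.det_fin_two] at hd hg
  simp only [Matrix.trace_fin_two, Matrix.mul_apply, Fin.sum_univ_two, Matrix.of_apply,
    Matrix.cons_val', Matrix.cons_val_zero, Matrix.cons_val_one, Matrix.cons_val_fin_one] at *
  generalize m.1 0 0 = a at *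
  generalize m.1 0 1 = b at *
  generalize m.1 1 0 = c at *
  generalize m.1 1 1 = d at *
  generalize g.1 0 0 = p at *
  generalize g.1 0 1 = q at *
  generalize g.1 1 0 = r at *
  generalize g.1 1 1 = s at *
  linear_combination ((a + d) ^ 2 - 2 * (a * d - b * c)) * hg + ((p + s) ^ 2 - 2) * hd +
    ((a + d + 2) - (p + s) * (a * p + b * r + (c * q + d * s))) * hm

/-- The real embedding makes the top coefficient larger than one. -/
theorem one_lt_prod {ι : Type*} (s : Finset ι) (y : ι → ℝ) (b : ι → ℕ) (hb : ∀ j ∈ s, b j ≠ 0)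
    (hy : ∀ j ∈ s, 2 ≤ b j → 2 ≤ y j) :
    ∏ j ∈ s, (b j : ℝ) ^ 2 ≤ ∏ j ∈ s, nb (y j) (b j) := by
  refine Finset.prod_le_prod (fun j _ => by positivity) fun j hj => ?_
  rcases Nat.lt_or_ge (b j) 2 with h | h
  · have h1 : b j = 1 := by
      have := hb j hj
      omega
    rw [h1]
    simp [nb]
  · exact (nb_real (y j) (hy j hj h) (b j)).1

/-- The conclusion on the top coefficient at a real place. -/
theorem top_real {b : Fin n → ℤ} {u v : Fin n → FreeGroup (Fin n)}
    (hb : ∀ j, b j ≠ 0) (hband : BandLoops b u v)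
    (ρ : KnotGroup u v →* SL(2, ℂ)) (ht : (ρ (toKnot u v gt)).1.trace = 2)
    (φ : traceField ρ →+* ℝ) :
    ∃ c : traceField ρ,
      (c : ℂ) = ∏ j, nb (ρ (toKnot u v (inc (FreeGroup.of j)))).1.trace (b j).natAbs ∧
      ∏ j, (b j : ℝ) ^ 2 ≤ φ c := by
  have hmem : ∀ g : KnotGroup u v, (ρ g).1.trace ∈ traceField ρ := fun g =>
    IntermediateField.subset_adjoin ℚ _ ⟨g, rfl⟩
  let y : Fin n → traceField ρ := fun j => ⟨_, hmem (toKnot u v (inc (FreeGroup.of j)))⟩
  refine ⟨∏ j, nb (y j) (b j).natAbs, ?_, ?_⟩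
  · have h1 := map_prod (traceField ρ).val.toRingHom (fun j => nb (y j) (b j).natAbs)
      Finset.univ
    refine h1.trans ?_
    refine Finset.prod_congr rfl fun j _ => ?_
    exact nb_map (traceField ρ).val.toRingHom (y j) (b j).natAbs
  · rw [map_prod]
    have h1 := one_lt_prod Finset.univ (fun j => φ (y j)) (fun j => (b j).natAbs)
      (fun j _ => by have := hb j; omega) (by
        intro j _ hj
        obtain ⟨m, m', hm, hm', e⟩ := hband j (by rw [Int.abs_eq_natAbs]; exact_mod_cast hj)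
        obtain ⟨g, hg⟩ := isConj_iff.mp (hm.symm.trans hm')
        have htm : (ρ m).1.trace = 2 := by
          obtain ⟨a, ha⟩ := isConj_iff.mp hm
          rw [← ha, map_mul, map_mul, map_inv, trace_conj, ht]
        have h2 := trace_band (ρ m) (ρ g) htm
        have h3 : ρ m * (ρ g * ρ m * (ρ g)⁻¹)⁻¹ = ρ (m * m'⁻¹) := by
          rw [← hg]
          simp only [map_mul, map_inv]
        rw [h3, ← map_mul, ← e] at h2
        have h4 : y j = 2 + ((⟨_, hmem (m * g)⟩ : traceField ρ) - ⟨_, hmem g⟩) ^ 2 := by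
          apply Subtype.ext
          exact h2
        change 2 ≤ φ (y j)
        rw [h4, map_add, map_ofNat, map_pow]
        nlinarith [sq_nonneg (φ ((⟨_, hmem (m * g)⟩ : traceField ρ) - ⟨_, hmem g⟩))])
    refine le_trans (le_of_eq ?_) (h1.trans (le_of_eq ?_))
    · refine Finset.prod_congr rfl fun j _ => ?_
      rw [Nat.cast_natAbs, Int.cast_abs, sq_abs]
    · refine Finset.prod_congr rfl fun j _ => ?_
      exact (nb_map φ (y j) (b j).natAbs).symm

/-- The main theorem. -/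
theorem main {b : Fin n → ℤ} {u v : Fin n → FreeGroup (Fin n)} (hu : IsTriangular b u)
    (hb : ∀ j, b j ≠ 0) (hband : BandLoops b u v)
    (ρ : KnotGroup u v →* SL(2, ℂ)) (ht : (ρ (toKnot u v gt)).1.trace = 2)
    (hreal : Nonempty (traceField ρ →+* ℝ))
    (Δ : ℂ[T;T⁻¹]) (hΔ : IsTwistedAlexander u v ρ Δ) :
    IsMonicL Δ ↔ ∀ j, |b j| = 1 := by
  have htop := wada_top hu ρ ht Δ hΔ
  constructor
  · intro hmon
    by_contra hnf
    push Not at hnf
    obtain ⟨j0, hj0⟩ := hnf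
    obtain ⟨φ⟩ := hreal
    obtain ⟨c, hc, hle⟩ := top_real hb hband ρ ht φ
    have hone : ∀ j, (1 : ℝ) ≤ (b j : ℝ) ^ 2 := by
      intro j
      have h1 : 1 ≤ |b j| := Int.one_le_abs (hb j)
      have h2 : (1 : ℝ) ≤ |(b j : ℝ)| := by exact_mod_cast h1
      rw [← sq_abs]
      nlinarith
    have hlt : (1 : ℝ) < ∏ j, (b j : ℝ) ^ 2 := by
      have h1 : ∏ _j : Fin n, (1 : ℝ) < ∏ j : Fin n, (b j : ℝ) ^ 2 := by
        refine Finset.prod_lt_prod (fun _ _ => one_pos) (fun j _ => hone j)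
          ⟨j0, Finset.mem_univ _, ?_⟩
        have h1 : 1 ≤ |b j0| := Int.one_le_abs (hb j0)
        have h2 : (2 : ℤ) ≤ |b j0| := by omega
        have h3 : (2 : ℝ) ≤ |(b j0 : ℝ)| := by exact_mod_cast h2
        rw [← sq_abs]
        nlinarith
      simpa using h1
    rw [← hc] at htop
    refine not_monic htop ?_ ?_ ?_ hmon
    · intro h
      have h1 : c = 0 := Subtype.ext h
      rw [h1, map_zero] at hle
      linarith
    · intro h
      have h1 : c = 1 := Subtype.ext h
      rw [h1, map_one] at hle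
      linarith
    · intro h
      have h1 : c = -1 := Subtype.ext (by rw [h]; simp)
      rw [h1, map_neg, map_one] at hle
      linarith
  · intro hf
    refine ⟨2 * n - 2, Or.inl ?_⟩
    have h1 : (∏ j, nb (ρ (toKnot u v (inc (FreeGroup.of j)))).1.trace (b j).natAbs) = 1 := by
      refine Finset.prod_eq_one fun j _ => ?_
      have h2 : (b j).natAbs = 1 := by
        have := hf j
        rw [Int.abs_eq_natAbs] at this
        omega
      rw [h2, nb]
    rw [h1] at htop
    exact htop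

end Pool.Agent.W_MP_5f5bee_gt.Plumb
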