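import Mathlib
import Pool.Agent.W_MP_5f5bee_gt.Defs

/-!
Fox derivatives by their defining rules, and the twisted Alexander polynomial of a 2-bridge knot.
-/

open scoped LaurentPolynomial MatrixGroups
open LaurentPolynomial

namespace Pool.Agent.W_MP_5f5bee_gt

/-- `d` is the Fox derivative `∂/∂x` on the free group on `x` and `y`, with values in the
integral group ring. -/
structure IsFox (d : F2 → ZF) : Prop where
  mul : ∀ u v, d (u * v) = d u + MonoidAlgebra.of ℤ F2 u * d v
  x : d gx = 1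
  y : d gy = 0

/-- The Fox derivative exists. -/
theorem isFox_fox : IsFox (fox 0) where
  mul := fox_mul 0
  x := by rw [gx, fox_of, if_pos rfl]
  y := by rw [gy, fox_of, if_neg (by decide)]

theorem IsFox.one {d : F2 → ZF} (h : IsFox d) : d 1 = 0 := by
  have h1 := h.mul 1 1
  rw [mul_one, map_one, one_mul] at h1
  exact left_eq_add.mp h1

theorem IsFox.inv {d : F2 → ZF} (h : IsFox d) (u : F2) :
    d u⁻¹ = -(MonoidAlgebra.of ℤ F2 u⁻¹ * d u) := by
  have h1 := h.mul u⁻¹ u
  rw [inv_mul_cancel, h.one] at h1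
  exact eq_neg_of_add_eq_zero_left h1.symm

/-- The Fox derivative is unique. -/
theorem IsFox.eq_fox {d : F2 → ZF} (h : IsFox d) : d = fox 0 := by
  funext w
  induction w using FreeGroup.induction_on with
  | C1 => rw [h.one, isFox_fox.one]
  | of i =>
    fin_cases i
    · exact h.x.trans isFox_fox.x.symm
    · exact h.y.trans isFox_fox.y.symm
  | inv_of i hi =>
    rw [h.inv, isFox_fox.inv]
    have e : d (FreeGroup.of i) = fox 0 (FreeGroup.of i) := hi
    rw [e]
  | mul u v hu hv => rw [h.mul, isFox_fox.mul, hu, hv]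

/-- `Δ` is the twisted Alexander polynomial (Wada's invariant) of the 2-bridge knot for the
representation `ρ`: `Δ · det Φ(y - 1) = det Φ(∂r/∂x)`. -/
def IsTwistedAlexander (L : List (ℤ × ℤ)) (ρ : KnotGroup L →* SL(2, ℂ)) (Δ : ℂ[T;T⁻¹]) : Prop :=
  ∃ d : F2 → ZF, IsFox d ∧
    Δ * (Phi (ρ.comp (toKnot L)) (MonoidAlgebra.of ℤ F2 gy - 1)).det =
      (Phi (ρ.comp (toKnot L)) (d (rel L))).det

theorem IsTwistedAlexander.isWada {L : List (ℤ × ℤ)} {ρ : KnotGroup L →* SL(2, ℂ)}
    {Δ : ℂ[T;T⁻¹]} (h : IsTwistedAlexander L ρ Δ) : IsWada L ρ Δ := by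
  obtain ⟨d, hd, h⟩ := h
  rw [hd.eq_fox] at h
  exact h

end Pool.Agent.W_MP_5f5bee_gt
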