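import Mathlib
import Pool.Agent.W_MP_5f5bee_gt.PlumbDefs

/-!
Existence of the Fox derivatives on the free group on the `x_i` and `t` (so that the definition of
the twisted Alexander polynomial in `PlumbDefs` is not vacuous).
-/

namespace Pool.Agent.W_MP_5f5bee_gt.Plumb

variable {n : ℕ}

/-- Left multiplication by a group element on the group ring. -/
noncomputable def mulL (g : FG n) : ZF n ≃+ ZF n where
  toFun u := MonoidAlgebra.of ℤ (FG n) g * u
  invFun u := MonoidAlgebra.of ℤ (FG n) g⁻¹ * u
  left_inv u := by
    change MonoidAlgebra.of ℤ (FG n) g⁻¹ * (MonoidAlgebra.of ℤ (FG n) g * u) = u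
    rw [← mul_assoc, ← map_mul, inv_mul_cancel, map_one, one_mul]
  right_inv u := by
    change MonoidAlgebra.of ℤ (FG n) g * (MonoidAlgebra.of ℤ (FG n) g⁻¹ * u) = u
    rw [← mul_assoc, ← map_mul, mul_inv_cancel, map_one, one_mul]
  map_add' u v := mul_add _ _ _

/-- The action of the free group on its group ring by left multiplication. -/
noncomputable def foxAct : FG n →* MulAut (Multiplicative (ZF n)) where
  toFun g := (mulL g).toMultiplicative
  map_one' := by
    ext u
    simp [mulL]
  map_mul' g h := by
    ext u
    simp [mulL, mul_assoc]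

/-- The homomorphism `w ↦ (∂w/∂x_i, w)`. -/
noncomputable def foxHom (i : Option (Fin n)) : FG n →* (Multiplicative (ZF n) ⋊[foxAct] FG n) :=
  FreeGroup.lift fun j => ⟨Multiplicative.ofAdd (if j = i then 1 else 0), FreeGroup.of j⟩

theorem foxHom_right (i : Option (Fin n)) (w : FG n) : (foxHom i w).right = w := by
  have : (SemidirectProduct.rightHom.comp (foxHom i)) = MonoidHom.id (FG n) := by
    ext j
    simp [foxHom]
  exact DFunLike.congr_fun this w

/-- The Fox derivatives exist. -/
theorem exists_isFox : ∃ d : Option (Fin n) → FG n → ZF n, IsFox d := by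
  refine ⟨fun i w => Multiplicative.toAdd (foxHom i w).left, ?_, ?_⟩
  · intro i u v
    change Multiplicative.toAdd (foxHom i (u * v)).left = _
    rw [map_mul, SemidirectProduct.mul_left, foxHom_right]
    rfl
  · intro i j
    simp [foxHom]

end Pool.Agent.W_MP_5f5bee_gt.Plumb
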